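import Mathlib
set_option autoImplicit false

namespace Pool.Agent.Hhelper87.FC
open Subgroup

theorem exists_inverse_mod {m N : ℕ} (h1 : 1 < N) (h : Nat.Coprime m N) :
    ∃ m' q : ℕ, m * m' = N * q + 1 := by
  obtain ⟨m', -, hm'⟩ := Nat.exists_mul_mod_eq_one_of_coprime h h1
  refine ⟨m', m * m' / N, ?_⟩
  have := Nat.div_add_mod (m * m') N
  rw [hm'] at this
  exact this.symm

section Y
variable {Y : Type*} [CommGroup Y]

theorem pow_inverse_mod {m N m' q : ℕ} (h : m * m' = N * q + 1) {d : Y} (hd : d ^ N = 1) :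
    d ^ (m * m') = d := by
  rw [h, pow_succ, pow_mul, hd, one_pow, one_mul]

theorem pure_cyclic {p : ℕ} (hp : p.Prime) {s d : Y} {h : ℕ}
    (hsp : s ^ p = 1) (hd : d ^ (p ^ h) = s) (hmax : ∀ t : Y, t ^ (p ^ (h + 1)) ≠ s) {y : Y}
    {k : ℕ} (hk : 0 < k) {i : ℕ} (hyi : y ^ k = d ^ i) : ∃ j : ℕ, (d ^ j) ^ k = d ^ i := by
  have hdN : d ^ (p ^ (h + 1)) = 1 := by rw [pow_succ, pow_mul, hd, hsp]
  by_cases hdi : d ^ i = 1
  · exact ⟨0, by rw [hdi]; simp⟩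
  have hi0 : i ≠ 0 := fun h0 => hdi (by rw [h0, pow_zero])
  obtain ⟨v, m, hm, hkv⟩ := Nat.exists_eq_pow_mul_and_not_dvd hk.ne' p hp.ne_one
  obtain ⟨r, j0, hj0, hir⟩ := Nat.exists_eq_pow_mul_and_not_dvd hi0 p hp.ne_one
  have hr : r ≤ h := by
    by_contra hrh
    apply hdi
    have : ∃ c, r = (h + 1) + c := ⟨r - (h + 1), by omega⟩
    obtain ⟨c, hc⟩ := this
    rw [hir, hc, pow_add, mul_assoc, pow_mul, hdN, one_pow]
  have hcop1 : Nat.Coprime j0 p := ((Nat.Prime.coprime_iff_not_dvd hp).mpr hj0).symm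
  have hcop2 : Nat.Coprime m (p ^ (h + 1)) :=
    Nat.Coprime.pow_right _ ((Nat.Prime.coprime_iff_not_dvd hp).mpr hm).symm
  obtain ⟨j1, q1, hj1⟩ := exists_inverse_mod hp.one_lt hcop1
  obtain ⟨m1, q2, hm1⟩ := exists_inverse_mod (Nat.one_lt_pow (by omega) hp.one_lt) hcop2
  have hv : v ≤ r := by
    by_contra hvr
    have hexp : k * (p ^ (h - r) * j1) = (p ^ (v - r - 1) * m * j1) * p ^ (h + 1) := by
      have e1 : p ^ v * p ^ (h - r) = p ^ (v - r - 1) * p ^ (h + 1) := by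
        rw [← pow_add, ← pow_add]
        congr 1
        omega
      calc k * (p ^ (h - r) * j1) = (p ^ v * p ^ (h - r)) * (m * j1) := by rw [hkv]; ring
        _ = (p ^ (v - r - 1) * p ^ (h + 1)) * (m * j1) := by rw [e1]
        _ = _ := by ring
    have h3 : (y ^ (p ^ (v - r - 1) * m * j1)) ^ (p ^ (h + 1)) = s := by
      rw [← pow_mul, ← hexp, pow_mul, hyi, ← pow_mul, hir]
      have e2 : p ^ r * j0 * (p ^ (h - r) * j1) = p ^ h * (j0 * j1) := by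
        have e3 : p ^ r * p ^ (h - r) = p ^ h := by
          rw [← pow_add]
          congr 1
          omega
        calc p ^ r * j0 * (p ^ (h - r) * j1) = (p ^ r * p ^ (h - r)) * (j0 * j1) := by ring
          _ = _ := by rw [e3]
      rw [e2, pow_mul, hd]
      exact pow_inverse_mod hj1 hsp
    exact hmax _ h3
  refine ⟨p ^ (r - v) * j0 * m1, ?_⟩
  rw [← pow_mul]
  have e4 : p ^ (r - v) * j0 * m1 * k = i * (m * m1) := by
    have e5 : p ^ (r - v) * p ^ v = p ^ r := by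
      rw [← pow_add]
      congr 1
      omega
    calc p ^ (r - v) * j0 * m1 * k = (p ^ (r - v) * p ^ v) * j0 * (m * m1) := by rw [hkv]; ring
      _ = i * (m * m1) := by rw [e5, hir]
  rw [e4, mul_comm i, pow_mul, pow_inverse_mod hm1 hdN]

theorem exists_height {p : ℕ} (hp : p.Prime) {s : Y} (hsp : s ^ p = 1) {e : ℕ} (he : 0 < e)
    (hes : ∀ y : Y, y ^ e ≠ s) :
    ∃ (h : ℕ) (d : Y), d ^ (p ^ h) = s ∧ ∀ t : Y, t ^ (p ^ (h + 1)) ≠ s := by
  classical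
  obtain ⟨v, m, hm, hev⟩ := Nat.exists_eq_pow_mul_and_not_dvd he.ne' p hp.ne_one
  have hcop : Nat.Coprime m p := ((Nat.Prime.coprime_iff_not_dvd hp).mpr hm).symm
  obtain ⟨m1, q1, hm1⟩ := exists_inverse_mod hp.one_lt hcop
  have hex : ∃ v : ℕ, ¬ ∃ t : Y, t ^ (p ^ v) = s := by
    refine ⟨v, ?_⟩
    rintro ⟨t, ht⟩
    apply hes (t ^ m1)
    rw [← pow_mul, hev]
    have : m1 * (p ^ v * m) = p ^ v * (m * m1) := by ring
    rw [this, pow_mul, ht]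
    exact pow_inverse_mod hm1 hsp
  have h0 : Nat.find hex ≠ 0 := by
    intro h
    have := Nat.find_spec hex
    rw [h] at this
    exact this ⟨s, by simp⟩
  obtain ⟨h, hh⟩ := Nat.exists_eq_succ_of_ne_zero h0
  have h1 : ¬ ¬ ∃ t : Y, t ^ (p ^ h) = s := Nat.find_min hex (by omega)
  rw [not_not] at h1
  obtain ⟨d, hd⟩ := h1
  refine ⟨h, d, hd, fun t ht => ?_⟩
  have h2 := Nat.find_spec hex
  rw [hh] at h2
  exact h2 ⟨t, ht⟩

end Y

section A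
variable {A : Type*} [CommGroup A]

/-- Purity. -/
def PureS (B : Subgroup A) : Prop :=
  ∀ k : ℕ, 0 < k → ∀ b ∈ B, (∃ y : A, y ^ k = b) → ∃ b' ∈ B, b' ^ k = b

/-- The quotient has no nontrivial elements divisible by all `e`. -/
def SepS (B : Subgroup A) : Prop :=
  ∀ z : A, z ∉ B → ∃ e : ℕ, 0 < e ∧ ∀ c ∈ B, ∀ y : A, z ≠ c * y ^ e

theorem abel_step {B : Subgroup A} (hpure : PureS B) (hsep : SepS B) {n : ℕ} (hn : 0 < n) {a : A}
    (han : a ^ n ∈ B) (haB : a ∉ B) : ∃ (B' X : Subgroup A) (n' : ℕ), n' < n ∧ 0 < n' ∧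
      B ⊓ X = ⊥ ∧ B ⊔ X = B' ∧ PureS B' ∧ SepS B' ∧ a ^ n' ∈ B' := by
  classical
  let c : A ⧸ B := (a : A ⧸ B)
  have hcn : c ^ n = 1 := by
    have : ((a ^ n : A) : A ⧸ B) = 1 := (QuotientGroup.eq_one_iff _).mpr han
    exact this
  have hc1 : c ≠ 1 := fun h => haB ((QuotientGroup.eq_one_iff _).mp h)
  set n1 := orderOf c with hn1
  have hn1n : n1 ∣ n := orderOf_dvd_of_pow_eq_one hcn
  have hn1pos : 0 < n1 := Nat.pos_of_dvd_of_pos hn1n hn
  have hn1ne : n1 ≠ 1 := fun h => hc1 (orderOf_eq_one_iff.mp h)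
  obtain ⟨p, hp, hpn⟩ := Nat.exists_prime_and_dvd hn1ne
  obtain ⟨n2, hn2⟩ := hpn
  have hn2pos : 0 < n2 := by
    rcases Nat.eq_zero_or_pos n2 with h | h
    · rw [h] at hn2; omega
    · exact h
  have hn2lt : n2 < n1 := by
    rw [hn2]
    calc n2 = 1 * n2 := (one_mul _).symm
      _ < p * n2 := Nat.mul_lt_mul_of_pos_right hp.one_lt hn2pos
  set s := c ^ n2 with hs
  have hsp : s ^ p = 1 := by
    rw [hs, ← pow_mul, mul_comm n2 p, ← hn2, hn1]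
    exact pow_orderOf_eq_one c
  have hs1 : s ≠ 1 := by
    intro h
    have := orderOf_dvd_of_pow_eq_one h
    have := Nat.le_of_dvd hn2pos this
    omega
  have hs2 : a ^ n2 ∉ B := by
    intro h
    apply hs1
    exact (QuotientGroup.eq_one_iff _).mpr h
  obtain ⟨e, he, hes⟩ := hsep _ hs2
  have hes' : ∀ y : A ⧸ B, y ^ e ≠ s := by
    intro y hy
    obtain ⟨y, rfl⟩ := QuotientGroup.mk_surjective y
    have h1 : ((y ^ e : A) : A ⧸ B) = ((a ^ n2 : A) : A ⧸ B) := hy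
    have h2 := QuotientGroup.eq.mp h1
    apply hes _ h2 y
    rw [mul_comm (y ^ e)⁻¹, mul_assoc, inv_mul_cancel, mul_one]
  obtain ⟨h, d, hd, hmax⟩ := exists_height hp hsp he hes'
  set q := p ^ (h + 1) with hq
  have hqpos : 0 < q := Nat.pow_pos hp.pos
  have hdq : d ^ q = 1 := by rw [hq, pow_succ, pow_mul, hd, hsp]
  obtain ⟨x0, hx0⟩ := QuotientGroup.mk_surjective d
  have hx0q : x0 ^ q ∈ B := by
    rw [← QuotientGroup.eq_one_iff]
    have : ((x0 ^ q : A) : A ⧸ B) = ((x0 : A) : A ⧸ B) ^ q := rfl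
    rw [this, hx0, hdq]
  obtain ⟨b', hb'B, hb'⟩ := hpure q hqpos _ hx0q ⟨x0, rfl⟩
  set x := x0 * b'⁻¹ with hx
  have hxq : x ^ q = 1 := by rw [hx, mul_pow, inv_pow, hb', mul_inv_cancel]
  have hxd : ((x : A) : A ⧸ B) = d := by
    rw [hx, ← hx0]
    apply QuotientGroup.eq.mpr
    have : (x0 * b'⁻¹)⁻¹ * x0 = b' := by
      rw [mul_inv, inv_inv, mul_comm x0⁻¹, mul_assoc, inv_mul_cancel, mul_one]
    rw [this]
    exact hb'B
  have hordd : orderOf d = q := by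
    have : Fact p.Prime := ⟨hp⟩
    apply orderOf_eq_prime_pow
    · rw [hd]; exact hs1
    · exact hdq
  have hdfin : IsOfFinOrder d := isOfFinOrder_iff_pow_eq_one.mpr ⟨q, hqpos, hdq⟩
  have hpow : ∀ w ∈ zpowers d, ∃ i, i < q ∧ w = d ^ i := by
    intro w hw
    rw [← hdfin.mem_powers_iff_mem_zpowers] at hw
    obtain ⟨i, hi⟩ := hw
    refine ⟨i % q, Nat.mod_lt _ hqpos, ?_⟩
    rw [← hordd, pow_mod_orderOf]
    exact hi.symm
  let B' : Subgroup A := (zpowers d).comap (QuotientGroup.mk' B)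
  have hB' : ∀ z : A, z ∈ B' ↔ ((z : A) : A ⧸ B) ∈ zpowers d := fun z => Iff.rfl
  have hBB' : B ≤ B' := by
    intro z hz
    rw [hB', (QuotientGroup.eq_one_iff _).mpr hz]
    exact one_mem _
  have hxB' : x ∈ B' := by rw [hB', hxd]; exact mem_zpowers d
  refine ⟨B', zpowers x, n2, lt_of_lt_of_le hn2lt (Nat.le_of_dvd hn hn1n), hn2pos, ?_, ?_, ?_, ?_,
    ?_⟩
  · rw [eq_bot_iff]
    rintro w ⟨hw1, hw2⟩
    obtain ⟨i, rfl⟩ := hw2
    have h1 : d ^ i = 1 := by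
      rw [← hxd]
      exact (QuotientGroup.eq_one_iff _).mpr hw1
    have h2 : (orderOf d : ℤ) ∣ i := orderOf_dvd_iff_zpow_eq_one.mpr h1
    rw [hordd] at h2
    obtain ⟨t, rfl⟩ := h2
    rw [mem_bot]
    change x ^ ((q : ℤ) * t) = 1
    rw [zpow_mul, zpow_natCast, hxq, one_zpow]
  · apply le_antisymm
    · apply sup_le hBB'
      rw [zpowers_le]
      exact hxB'
    · intro z hz
      rw [hB'] at hz
      obtain ⟨i, -, hi⟩ := hpow _ hz
      rw [mem_sup]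
      refine ⟨z * (x ^ i)⁻¹, ?_, x ^ i, pow_mem (mem_zpowers x) i, by group⟩
      rw [← QuotientGroup.eq_one_iff]
      have : ((z * (x ^ i)⁻¹ : A) : A ⧸ B) = (z : A ⧸ B) * ((x : A ⧸ B) ^ i)⁻¹ := rfl
      rw [this, hxd, hi, mul_inv_cancel]
  · -- pure
    rintro k hk b hb ⟨y, hy⟩
    rw [hB'] at hb
    obtain ⟨i, -, hi⟩ := hpow _ hb
    have h1 : ((y : A) : A ⧸ B) ^ k = d ^ i := by
      rw [← hi, ← hy]
      rfl
    obtain ⟨j, hj⟩ := pure_cyclic hp hsp hd hmax hk h1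
    have h2 : (y * (x ^ j)⁻¹) ^ k ∈ B := by
      rw [← QuotientGroup.eq_one_iff]
      have : (((y * (x ^ j)⁻¹) ^ k : A) : A ⧸ B)
        = ((y : A ⧸ B) * ((x : A ⧸ B) ^ j)⁻¹) ^ k := rfl
      rw [this, hxd, mul_pow, inv_pow, hj, h1, mul_inv_cancel]
    obtain ⟨b0, hb0, hb0k⟩ := hpure k hk _ h2 ⟨_, rfl⟩
    refine ⟨b0 * x ^ j, mul_mem (hBB' hb0) (pow_mem hxB' j), ?_⟩
    rw [mul_pow, hb0k, ← mul_pow, inv_mul_cancel_right, hy]
  · -- separable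
    intro z hz
    have h1 : ∀ i : ℕ, ∃ e : ℕ, 0 < e ∧ ∀ c ∈ B, ∀ y : A, z * (x ^ i)⁻¹ ≠ c * y ^ e := by
      intro i
      apply hsep
      intro h
      apply hz
      have h2 := mul_mem (hBB' h) (pow_mem hxB' i)
      rwa [inv_mul_cancel_right] at h2
    choose ee hee1 hee2 using h1
    refine ⟨∏ i ∈ Finset.range q, ee i, Finset.prod_pos (fun i _ => hee1 i), ?_⟩
    intro c hc y hzc
    rw [hB'] at hc
    obtain ⟨i, hiq, hi⟩ := hpow _ hc
    have hdvd : ee i ∣ ∏ i ∈ Finset.range q, ee i :=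
      Finset.dvd_prod_of_mem _ (Finset.mem_range.mpr hiq)
    obtain ⟨t, ht⟩ := hdvd
    have h3 : c * (x ^ i)⁻¹ ∈ B := by
      rw [← QuotientGroup.eq_one_iff]
      have : ((c * (x ^ i)⁻¹ : A) : A ⧸ B) = (c : A ⧸ B) * ((x : A ⧸ B) ^ i)⁻¹ := rfl
      rw [this, hxd, hi, mul_inv_cancel]
    apply hee2 i _ h3 (y ^ t)
    rw [← pow_mul, mul_comm t, ← ht, hzc]
    rw [mul_assoc, mul_assoc, mul_comm (y ^ _)]
  · rw [hB']
    have : (((a ^ n2 : A)) : A ⧸ B) = s := rfl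
    rw [this, ← hd]
    exact pow_mem (mem_zpowers d) _

theorem inf_sup_bot {B X Z : Subgroup A} (h1 : B ⊓ X = ⊥) (h2 : (B ⊔ X) ⊓ Z = ⊥) :
    B ⊓ (X ⊔ Z) = ⊥ := by
  rw [eq_bot_iff]
  rintro b ⟨hb1, hb2⟩
  obtain ⟨x, hx, z, hz, hxz⟩ := mem_sup.mp hb2
  have hz' : z = x⁻¹ * b := by rw [← hxz]; group
  have h3 : z ∈ (B ⊔ X) ⊓ Z :=
    ⟨by rw [hz']; exact (B ⊔ X).mul_mem ((B ⊔ X).inv_mem (mem_sup_right hx)) (mem_sup_left hb1), hz⟩
  rw [h2, mem_bot] at h3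
  rw [h3, mul_one] at hxz
  rw [← h1]
  exact ⟨hb1, by rw [← hxz]; exact hx⟩

theorem abel_add {n : ℕ} : ∀ {B : Subgroup A}, PureS B → SepS B → 0 < n → ∀ {a : A},
    a ^ n ∈ B → ∃ H : Subgroup A, B ⊓ H = ⊥ ∧ a ∈ B ⊔ H ∧ PureS (B ⊔ H) ∧ SepS (B ⊔ H) := by
  induction n using Nat.strong_induction_on with
  | _ n ih =>
    intro B hpure hsep hn a han
    by_cases haB : a ∈ B
    · exact ⟨⊥, by simp, by simpa using haB, by simpa using hpure, by simpa using hsep⟩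
    obtain ⟨B', X, n', hlt, hpos, h1, h2, h3, h4, h5⟩ := abel_step hpure hsep hn han haB
    obtain ⟨H, h6, h7, h8, h9⟩ := ih n' hlt h3 h4 hpos h5
    subst h2
    refine ⟨X ⊔ H, inf_sup_bot h1 h6, ?_, ?_, ?_⟩
    · rw [← sup_assoc]; exact h7
    · rw [← sup_assoc]; exact h8
    · rw [← sup_assoc]; exact h9

theorem abel_complement [Countable A] (htor : ∀ a : A, IsOfFinOrder a) {B : Subgroup A}
    (hpure : PureS B) (hsep : SepS B) : ∃ H : Subgroup A, B ⊓ H = ⊥ ∧ B ⊔ H = ⊤ := by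
  classical
  obtain ⟨a, ha⟩ := exists_surjective_nat A
  let T := {H : Subgroup A // B ⊓ H = ⊥ ∧ PureS (B ⊔ H) ∧ SepS (B ⊔ H)}
  have hstep : ∀ (H : T) (x : A), ∃ H' : T, H.1 ≤ H'.1 ∧ x ∈ B ⊔ H'.1 := by
    rintro ⟨H, h1, h2, h3⟩ x
    obtain ⟨n, hn, hxn⟩ := isOfFinOrder_iff_pow_eq_one.mp (htor x)
    obtain ⟨K, h4, h5, h6, h7⟩ := abel_add h2 h3 hn (a := x) (by rw [hxn]; exact one_mem _)
    refine ⟨⟨H ⊔ K, inf_sup_bot h1 h4, ?_, ?_⟩, le_sup_left, ?_⟩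
    · rw [← sup_assoc]; exact h6
    · rw [← sup_assoc]; exact h7
    · rw [← sup_assoc]; exact h5
  choose nx hnx1 hnx2 using hstep
  let H0 : T := ⟨⊥, by simp, by simpa using hpure, by simpa using hsep⟩
  let Hs : ℕ → T := fun n => Nat.rec H0 (fun n H => nx H (a n)) n
  have hsucc : ∀ n, Hs (n + 1) = nx (Hs n) (a n) := fun n => rfl
  have hmono : Monotone (fun n => (Hs n).1) := by
    apply monotone_nat_of_le_succ
    intro n
    rw [hsucc]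
    exact hnx1 _ _
  have hdir : Directed (· ≤ ·) (fun n => (Hs n).1) := hmono.directed_le
  refine ⟨⨆ n, (Hs n).1, ?_, ?_⟩
  · rw [eq_bot_iff]
    rintro x ⟨hx1, hx2⟩
    obtain ⟨n, hn⟩ := (mem_iSup_of_directed hdir).mp hx2
    rw [← (Hs n).2.1]
    exact ⟨hx1, hn⟩
  · rw [eq_top_iff]
    intro x _
    obtain ⟨n, rfl⟩ := ha x
    have h1 : a n ∈ B ⊔ (Hs (n + 1)).1 := by rw [hsucc]; exact hnx2 _ _
    exact (sup_le_sup_left (le_iSup (fun n => (Hs n).1) (n + 1)) B) h1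

end A

end Pool.Agent.Hhelper87.FC
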