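import Mathlib
set_option autoImplicit false

namespace Pool.Agent.Hhelper87.FC
open Subgroup
open scoped commutatorElement

section general
variable {G : Type*} [Group G]

theorem finiteIndex_of_finite_range {T : Type*} (f : G → T) (hf : (Set.range f).Finite)
    (H : Subgroup G) (h : ∀ a b, f a = f b → a⁻¹ * b ∈ H) : H.FiniteIndex := by
  classical
  have : Finite (Set.range f) := hf.to_subtype
  have : Finite (G ⧸ H) := by
    refine Finite.of_surjective
      (fun t : Set.range f => (QuotientGroup.mk (Classical.choose t.2) : G ⧸ H)) ?_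
    intro q
    obtain ⟨a, rfl⟩ := QuotientGroup.mk_surjective q
    refine ⟨⟨f a, a, rfl⟩, ?_⟩
    apply QuotientGroup.eq.mpr
    apply h
    exact Classical.choose_spec (⟨a, rfl⟩ : ∃ y, f y = f a)
  exact Subgroup.finiteIndex_of_finite_quotient

theorem conj_mem_conjugatesOf (g x : G) : g * x * g⁻¹ ∈ conjugatesOf x :=
  isConj_iff.mpr ⟨g, rfl⟩

theorem finite_conj_range {x : G} (hx : (conjugatesOf x).Finite) :
    (Set.range fun g : G => g * x * g⁻¹).Finite := by
  refine hx.subset ?_
  rintro _ ⟨g, rfl⟩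
  exact conj_mem_conjugatesOf g x

theorem finiteIndex_centralizer {x : G} (hx : (conjugatesOf x).Finite) :
    (centralizer {x}).FiniteIndex := by
  refine finiteIndex_of_finite_range (fun g : G => g * x * g⁻¹) (finite_conj_range hx) _ ?_
  intro a b hab
  rw [mem_centralizer_singleton_iff]
  have h1 : a * x * a⁻¹ = b * x * b⁻¹ := hab
  have h2 : a * x = b * x * b⁻¹ * a := by rw [← h1]; group
  calc a⁻¹ * b * x = a⁻¹ * (b * x * b⁻¹ * a) * a⁻¹ * b := by group
    _ = a⁻¹ * (a * x) * a⁻¹ * b := by rw [h2]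
    _ = x * (a⁻¹ * b) := by group

theorem finite_commutatorSet_of_center (h : (center G).FiniteIndex) :
    (commutatorSet G).Finite := by
  have : Finite (G ⧸ center G) := inferInstance
  have hsub : commutatorSet G ⊆ Set.range
      (fun p : (G ⧸ center G) × (G ⧸ center G) => ⁅p.1.out, p.2.out⁆) := by
    rintro _ ⟨a, b, rfl⟩
    refine ⟨((a : G ⧸ center G), (b : G ⧸ center G)), ?_⟩
    obtain ⟨z, hz⟩ := QuotientGroup.mk_out_eq_mul (center G) a
    obtain ⟨w, hw⟩ := QuotientGroup.mk_out_eq_mul (center G) b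
    have hz1 := mem_center_iff.mp z.2
    have hw1 := mem_center_iff.mp w.2
    simp only
    rw [hz, hw]
    simp only [commutatorElement_def, mul_inv_rev]
    calc a * z * (b * w) * ((z : G)⁻¹ * a⁻¹) * ((w : G)⁻¹ * b⁻¹)
        = a * (z * b) * w * (z : G)⁻¹ * a⁻¹ * (w : G)⁻¹ * b⁻¹ := by group
      _ = a * (b * z) * w * (z : G)⁻¹ * a⁻¹ * (w : G)⁻¹ * b⁻¹ := by rw [hz1 b]
      _ = a * b * (z * w) * (z : G)⁻¹ * a⁻¹ * (w : G)⁻¹ * b⁻¹ := by group
      _ = a * b * (w * z) * (z : G)⁻¹ * a⁻¹ * (w : G)⁻¹ * b⁻¹ := by rw [← hz1 w]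
      _ = a * b * (w * a⁻¹) * (w : G)⁻¹ * b⁻¹ := by group
      _ = a * b * (a⁻¹ * w) * (w : G)⁻¹ * b⁻¹ := by rw [← hw1 a⁻¹]
      _ = a * b * a⁻¹ * b⁻¹ := by group
  exact (Set.finite_range _).subset hsub

theorem finite_commutator_closure {S : Set G} (hS : S.Finite)
    (hc : ∀ s ∈ S, (conjugatesOf s).Finite) : Finite (_root_.commutator (closure S)) := by
  classical
  set H := closure S with hH
  let S' : Set H := ((↑) : H → G) ⁻¹' S
  have hS' : S'.Finite := hS.preimage (Subtype.val_injective.injOn)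
  have hcl : closure S' = ⊤ := closure_closure_coe_preimage
  have hconj : ∀ s ∈ S', (conjugatesOf s).Finite := by
    intro s hs
    have h1 : (((↑) : H → G) ⁻¹' (conjugatesOf (s : G))).Finite :=
      (hc _ hs).preimage (Subtype.val_injective.injOn)
    refine h1.subset ?_
    intro y hy
    obtain ⟨c, hcc⟩ := isConj_iff.mp hy
    exact isConj_iff.mpr ⟨(c : G), by rw [← hcc]; simp⟩
  have hcen : (center H).FiniteIndex := by
    rw [center_eq_infi' hcl]
    have : Finite S' := hS'.to_subtype
    exact finiteIndex_iInf (fun s => finiteIndex_centralizer (hconj s.1 s.2))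
  have hcs : (commutatorSet H).Finite := finite_commutatorSet_of_center hcen
  have : Finite (commutatorSet H) := hcs.to_subtype
  infer_instance

theorem finite_closure_of_torsion {S : Set G} (hS : S.Finite)
    (hc : ∀ s ∈ S, (conjugatesOf s).Finite) (ht : ∀ s ∈ S, IsOfFinOrder s) :
    (closure S : Set G).Finite := by
  classical
  have hcomm := finite_commutator_closure hS hc
  set H := closure S with hH
  let S' : Set H := ((↑) : H → G) ⁻¹' S
  have hS' : S'.Finite := hS.preimage (Subtype.val_injective.injOn)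
  have hcl : closure S' = ⊤ := closure_closure_coe_preimage
  have hfgH : Group.FG H := Group.fg_iff.mpr ⟨S', hcl, hS'⟩
  have : Group.FG (Abelianization H) := by
    unfold Abelianization
    infer_instance
  have htor : CommGroup.torsion (Abelianization H) = ⊤ := by
    have h1 : (⊤ : Subgroup (Abelianization H)) = (closure S').map (Abelianization.of) := by
      rw [hcl]
      exact (Subgroup.map_top_of_surjective _ (QuotientGroup.mk_surjective)).symm
    rw [eq_top_iff, h1, MonoidHom.map_closure, closure_le]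
    rintro _ ⟨s, hs, rfl⟩
    have h2 : IsOfFinOrder (s : G) := ht _ hs
    have h3 : IsOfFinOrder s := by
      rw [← Submonoid.isOfFinOrder_coe (H := H.toSubmonoid)]
      exact h2
    exact MonoidHom.isOfFinOrder _ h3
  have : Finite (Abelianization H) :=
    CommGroup.finite_of_fg_isMulTorsion _ (CommGroup.torsion_eq_top_iff.mp htor)
  have hfin : Finite H := by
    rw [finite_iff_finite_and_finiteIndex (_root_.commutator H)]
    refine ⟨hcomm, ?_⟩
    rw [finiteIndex_iff_finite_quotient]
    exact (inferInstance : Finite (Abelianization H))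
  exact Set.toFinite _

/-- The group is an FC-group: every conjugacy class is finite. -/
def IsFC (G : Type*) [Group G] : Prop := ∀ x : G, (conjugatesOf x).Finite

theorem isOfFinOrder_commutator (hFC : IsFC G) (a b : G) : IsOfFinOrder (a * b * a⁻¹ * b⁻¹) := by
  have hS : ({a, b} : Set G).Finite := Set.toFinite _
  have hcomm := finite_commutator_closure hS (fun s _ => hFC s)
  set H := closure ({a, b} : Set G) with hH
  have ha : a ∈ H := subset_closure (by simp)
  have hb : b ∈ H := subset_closure (by simp)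
  have h1 : ⁅(⟨a, ha⟩ : H), (⟨b, hb⟩ : H)⁆ ∈ _root_.commutator H := by
    rw [commutator_def]
    exact commutator_mem_commutator (mem_top _) (mem_top _)
  have h2 : IsOfFinOrder (⟨_, h1⟩ : _root_.commutator H) := isOfFinOrder_of_finite _
  have h3 := MonoidHom.isOfFinOrder (H.subtype.comp (_root_.commutator H).subtype) h2
  exact h3

/-- Finite normal subgroups. -/
def FN (E : Subgroup G) : Prop := E.Normal ∧ (E : Set G).Finite

theorem FN.sup {E F : Subgroup G} (hE : FN E) (hF : FN F) : FN (E ⊔ F) := by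
  obtain ⟨h1, h2⟩ := hE
  obtain ⟨h3, h4⟩ := hF
  refine ⟨inferInstance, ?_⟩
  rw [mul_normal]
  exact h2.mul h4

theorem FN.bot : FN (⊥ : Subgroup G) := ⟨inferInstance, by simp⟩

/-- Dietzmann. -/
theorem FN_closure {S : Set G} (hS : S.Finite) (ht : ∀ s ∈ S, IsOfFinOrder s)
    (hinv : ∀ g : G, ∀ s ∈ S, g * s * g⁻¹ ∈ S) : FN (closure S) := by
  constructor
  · have h : normalClosure S = closure S := by
      change closure (Group.conjugatesOfSet S) = closure S
      congr 1
      ext y
      rw [Group.mem_conjugatesOfSet_iff]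
      constructor
      · rintro ⟨s, hs, hc⟩
        obtain ⟨c, rfl⟩ := isConj_iff.mp hc
        exact hinv c s hs
      · intro hy
        exact ⟨y, hy, IsConj.refl y⟩
    rw [← h]
    infer_instance
  · refine finite_closure_of_torsion hS ?_ ht
    intro s hs
    refine hS.subset ?_
    intro y hy
    obtain ⟨c, rfl⟩ := isConj_iff.mp hy
    exact hinv c s hs

theorem exists_FN_comm (hFC : IsFC G) (x : G) : ∃ E : Subgroup G, FN E ∧
    (∀ g, g * x * g⁻¹ * x⁻¹ ∈ E) ∧ (∀ g, x * g * x⁻¹ * g⁻¹ ∈ E) := by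
  let T : Set G := Set.range fun g : G => g * x * g⁻¹
  have hT : T.Finite := finite_conj_range (hFC x)
  let S : Set G := Set.image2 (fun a b => a * b⁻¹) T T
  have hS : S.Finite := hT.image2 _ hT
  have hFN : FN (closure S) := by
    refine FN_closure hS ?_ ?_
    · rintro _ ⟨_, ⟨a, rfl⟩, _, ⟨b, rfl⟩, rfl⟩
      have := isOfFinOrder_commutator hFC (a * b⁻¹) (b * x * b⁻¹)
      convert this using 1
      group
    · rintro g _ ⟨_, ⟨a, rfl⟩, _, ⟨b, rfl⟩, rfl⟩
      refine ⟨_, ⟨g * a, rfl⟩, _, ⟨g * b, rfl⟩, ?_⟩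
      group
  have h1 : ∀ g, g * x * g⁻¹ * x⁻¹ ∈ closure S := by
    intro g
    refine subset_closure ⟨_, ⟨g, rfl⟩, _, ⟨1, rfl⟩, ?_⟩
    group
  refine ⟨closure S, hFN, h1, ?_⟩
  intro g
  have h3 : x * g * x⁻¹ * g⁻¹ = (g * x * g⁻¹ * x⁻¹)⁻¹ := by group
  rw [h3]
  exact inv_mem (h1 g)

end general

end Pool.Agent.Hhelper87.FC
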