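import Mathlib
import Pool.Agent.Hhelper87.FC.Basic
set_option autoImplicit false

namespace Pool.Agent.Hhelper87.FC
open Subgroup

universe u

/-- A point-cofinite family of normal subgroups of finite index with intersection `Z`. -/
def Fam {H : Type u} [Group H] (Z : Subgroup H) : Prop :=
  ∃ (ι : Type u) (K : ι → Subgroup H), (∀ i, (K i).Normal) ∧ (∀ i, (K i).FiniteIndex) ∧
    (∀ h, {i | h ∉ K i}.Finite) ∧ (∀ h, h ∉ Z → ∃ i, h ∉ K i) ∧ (∀ h ∈ Z, ∀ i, h ∈ K i)

theorem exists_R {Q : Type u} [Group Q]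
    (hres : ∀ q : Q, q ≠ 1 → ∃ R : Subgroup Q, R.Normal ∧ R.FiniteIndex ∧ q ∉ R)
    {E : Subgroup Q} (hE : FN E) : ∃ R : Subgroup Q, R.Normal ∧ R.FiniteIndex ∧ R ⊓ E = ⊥ := by
  classical
  have hfin : Finite E := hE.2
  have hch : ∀ e : E, ∃ N : Subgroup Q, N.Normal ∧ N.FiniteIndex ∧ ((e : Q) ≠ 1 → (e : Q) ∉ N) := by
    intro e
    by_cases h : (e : Q) = 1
    · exact ⟨⊤, inferInstance, inferInstance, fun h' => absurd h h'⟩
    · obtain ⟨N, hN, h1, h2⟩ := hres e h
      exact ⟨N, hN, h1, fun _ => h2⟩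
  choose N hN1 hN2 hN3 using hch
  refine ⟨⨅ e, N e, normal_iInf_normal hN1, finiteIndex_iInf hN2, ?_⟩
  rw [eq_bot_iff]
  rintro x ⟨hx1, hx2⟩
  by_contra hx
  exact hN3 ⟨x, hx2⟩ hx (mem_iInf.mp hx1 ⟨x, hx2⟩)

theorem hall {Q : Type u} [Group Q] (hc : Countable Q) (hFC : IsFC Q)
    (htor : ∀ q : Q, IsOfFinOrder q)
    (hres : ∀ q : Q, q ≠ 1 → ∃ R : Subgroup Q, R.Normal ∧ R.FiniteIndex ∧ q ∉ R) :
    Fam (⊥ : Subgroup Q) := by
  classical
  have hFNx : ∀ x : Q, ∃ E : Subgroup Q, FN E ∧ x ∈ E := by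
    intro x
    refine ⟨closure (conjugatesOf x), FN_closure (hFC x) (fun s _ => htor s) ?_,
      subset_closure mem_conjugatesOf_self⟩
    intro g s hs
    have h1 : IsConj x s := hs
    exact h1.trans (isConj_iff.mpr ⟨g, rfl⟩)
  choose E hE1 hE2 using hFNx
  obtain ⟨q, hq⟩ := exists_surjective_nat Q
  obtain ⟨T, hT0, hTs⟩ : ∃ T : ℕ → Subgroup Q, T 0 = ⊥ ∧ ∀ n, T (n + 1) = T n ⊔ E (q n) :=
    ⟨fun n => Nat.rec (motive := fun _ => Subgroup Q) ⊥ (fun n T => T ⊔ E (q n)) n, rfl,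
      fun _ => rfl⟩
  have hTFN : ∀ n, FN (T n) := by
    intro n
    induction n with
    | zero => rw [hT0]; exact FN.bot
    | succ n ih => rw [hTs]; exact ih.sup (hE1 _)
  have hTmono : Monotone T := by
    apply monotone_nat_of_le_succ
    intro n
    rw [hTs]
    exact le_sup_left
  have hTmem : ∀ x : Q, ∃ n, x ∈ T n := by
    intro x
    obtain ⟨n, rfl⟩ := hq x
    exact ⟨n + 1, by rw [hTs]; exact mem_sup_right (hE2 _)⟩
  have hR : ∀ n, ∃ R : Subgroup Q, R.Normal ∧ R.FiniteIndex ∧ R ⊓ T n = ⊥ :=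
    fun n => exists_R hres (hTFN n)
  choose R hR1 hR2 hR3 using hR
  refine ⟨ULift.{u, 0} ℕ, fun n => T n.down ⊔ R (n.down + 1), ?_, ?_, ?_, ?_, ?_⟩
  · intro n
    have := (hTFN n.down).1
    have := hR1 (n.down + 1)
    change (T n.down ⊔ R (n.down + 1)).Normal
    infer_instance
  · intro n
    have := hR2 (n.down + 1)
    exact finiteIndex_of_le (H := R (n.down + 1)) le_sup_right
  · intro h
    obtain ⟨m, hm⟩ := hTmem h
    have h1 : (ULift.down ⁻¹' (Set.Iio m) : Set (ULift.{u, 0} ℕ)).Finite :=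
      (Set.finite_Iio m).preimage (ULift.down_injective.injOn)
    refine h1.subset ?_
    intro n hn
    by_contra hcon
    apply hn
    have h2 : m ≤ n.down := by
      simpa using hcon
    exact mem_sup_left (hTmono h2 hm)
  · intro h hh
    have hne : Nat.find (hTmem h) ≠ 0 := by
      intro h0
      have := Nat.find_spec (hTmem h)
      rw [h0, hT0] at this
      exact hh this
    obtain ⟨m, hm⟩ := Nat.exists_eq_succ_of_ne_zero hne
    have h1 : h ∉ T m := Nat.find_min (hTmem h) (by omega)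
    have h2 : h ∈ T (m + 1) := by
      have := Nat.find_spec (hTmem h)
      rwa [hm] at this
    refine ⟨⟨m⟩, ?_⟩
    intro hcon
    have hTn := (hTFN m).1
    obtain ⟨t, ht, r, hr, htr⟩ := mem_sup_of_normal_left.mp hcon
    have h3 : r = t⁻¹ * h := by rw [← htr]; group
    have h4 : r ∈ R (m + 1) ⊓ T (m + 1) := by
      refine ⟨hr, ?_⟩
      rw [h3]
      exact (T (m + 1)).mul_mem ((T (m + 1)).inv_mem (hTmono (Nat.le_succ m) ht)) h2
    rw [hR3, mem_bot] at h4
    rw [h4, mul_one] at htr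
    exact h1 (htr ▸ ht)
  · intro h hh i
    rw [mem_bot] at hh
    rw [hh]
    exact one_mem _

theorem mem_sup_of_comm {A : Type*} [Group A] {S T : Subgroup A}
    (hc : ∀ s ∈ S, ∀ t ∈ T, t * s = s * t) {x : A} (hx : x ∈ S ⊔ T) :
    ∃ s ∈ S, ∃ t ∈ T, x = s * t := by
  let K : Subgroup A :=
    { carrier := {x | ∃ s ∈ S, ∃ t ∈ T, x = s * t}
      one_mem' := ⟨1, one_mem _, 1, one_mem _, by simp⟩
      mul_mem' := by
        rintro _ _ ⟨s, hs, t, ht, rfl⟩ ⟨s', hs', t', ht', rfl⟩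
        refine ⟨s * s', mul_mem hs hs', t * t', mul_mem ht ht', ?_⟩
        have := hc s' hs' t ht
        calc s * t * (s' * t') = s * (t * s') * t' := by group
          _ = s * s' * (t * t') := by rw [this]; group
      inv_mem' := by
        rintro _ ⟨s, hs, t, ht, rfl⟩
        refine ⟨s⁻¹, inv_mem hs, t⁻¹, inv_mem ht, ?_⟩
        rw [mul_inv_rev]
        exact hc s⁻¹ (inv_mem hs) t⁻¹ (inv_mem ht) }
  have h1 : S ⊔ T ≤ K := by
    apply sup_le
    · exact fun s hs => ⟨s, hs, 1, one_mem _, by simp⟩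
    · exact fun t ht => ⟨1, one_mem _, t, ht, by simp⟩
  exact h1 hx

section assembly

variable {A : Type u} [Group A] {I : Type u} [LinearOrder I] [WellFoundedLT I]

/-- complement of `L i` -/
def WW (Pm L : I → Subgroup A) (i : I) : Subgroup A := Pm i ⊔ ⨆ j : {j // i < j}, L j.1

variable {Pp Pm L : I → Subgroup A}

omit [WellFoundedLT I] in
theorem assembly_key
    (hPm : ∀ i x, x ∈ Pm i ↔ x = 1 ∨ ∃ j, j < i ∧ x ∈ Pp j)
    (hL : ∀ i, L i ≤ Pp i)
    (disj : ∀ i, Pm i ⊓ L i = ⊥)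
    (comm : ∀ i, ∀ p ∈ Pm i, ∀ l ∈ L i, l * p = p * l) (i : I) (T : Finset I) :
    (∀ j ∈ T, i < j) → ∀ x ∈ Pm i ⊔ ⨆ j ∈ T, L j, x ∈ Pp i → x ∈ Pm i := by
  classical
  induction T using Finset.induction_on_max with
  | empty => intro _ x hx _; simpa using hx
  | insert k T hmax ih =>
    intro hT x hx hxi
    have hik : i < k := hT k (Finset.mem_insert_self _ _)
    have hPpPm : ∀ {a b : I}, a < b → Pp a ≤ Pm b := fun {a b} hab y hy =>
      (hPm b y).mpr (Or.inr ⟨a, hab, hy⟩)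
    rw [Finset.iSup_insert, sup_comm (L k), ← sup_assoc] at hx
    set S' := Pm i ⊔ ⨆ j ∈ T, L j with hS'
    have hS'k : S' ≤ Pm k := by
      apply sup_le
      · intro y hy
        rcases (hPm i y).mp hy with rfl | ⟨j, hj, hy⟩
        · exact one_mem _
        · exact hPpPm (hj.trans hik) hy
      · apply iSup₂_le
        intro j hj
        exact (hL j).trans (hPpPm (hmax j hj))
    obtain ⟨y, hy, z, hz, hyz⟩ := mem_sup_of_comm
      (fun s hs t ht => comm k s (hS'k hs) t ht) hx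
    have h1 : z = y⁻¹ * x := by rw [hyz]; group
    have h2 : z ∈ Pm k ⊓ L k := by
      refine ⟨?_, hz⟩
      rw [h1]
      exact (Pm k).mul_mem ((Pm k).inv_mem (hS'k hy)) (hPpPm hik hxi)
    rw [disj, mem_bot] at h2
    rw [h2, mul_one] at hyz
    rw [hyz] at hxi ⊢
    exact ih (fun j hj => hT j (Finset.mem_insert_of_mem hj)) y hy hxi

omit [WellFoundedLT I] in
theorem mem_WW {i : I} {x : A} (hx : x ∈ WW Pm L i) :
    ∃ T : Finset I, (∀ j ∈ T, i < j) ∧ x ∈ Pm i ⊔ ⨆ j ∈ T, L j := by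
  classical
  have hmono : ∀ {T T' : Finset I}, T ⊆ T' → (Pm i ⊔ ⨆ j ∈ T, L j) ≤ (Pm i ⊔ ⨆ j ∈ T', L j) := by
    intro T T' h
    exact sup_le_sup_left (biSup_mono (fun j hj => h hj)) _
  let K : Subgroup A :=
    { carrier := {x | ∃ T : Finset I, (∀ j ∈ T, i < j) ∧ x ∈ Pm i ⊔ ⨆ j ∈ T, L j}
      one_mem' := ⟨∅, by simp, one_mem _⟩
      mul_mem' := by
        rintro x y ⟨T, hT, hx⟩ ⟨T', hT', hy⟩
        refine ⟨T ∪ T', ?_, mul_mem (hmono Finset.subset_union_left hx)
          (hmono Finset.subset_union_right hy)⟩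
        intro j hj
        rcases Finset.mem_union.mp hj with h | h
        · exact hT j h
        · exact hT' j h
      inv_mem' := by
        rintro x ⟨T, hT, hx⟩
        exact ⟨T, hT, inv_mem hx⟩ }
  have h1 : WW Pm L i ≤ K := by
    apply sup_le
    · exact fun y hy => ⟨∅, by simp, mem_sup_left hy⟩
    · apply iSup_le
      rintro ⟨j, hj⟩ y hy
      refine ⟨{j}, by simpa using hj, mem_sup_right ?_⟩
      simpa using hy
  exact h1 hx

theorem assembly {H : Type u} [Group H] (f : H →* A)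
    (hPm : ∀ i x, x ∈ Pm i ↔ x = 1 ∨ ∃ j, j < i ∧ x ∈ Pp j)
    (hL : ∀ i, L i ≤ Pp i)
    (dec : ∀ i, ∀ x ∈ Pp i, ∃ p ∈ Pm i, ∃ l ∈ L i, x = p * l)
    (disj : ∀ i, Pm i ⊓ L i = ⊥)
    (comm : ∀ i, ∀ p ∈ Pm i, ∀ l ∈ L i, l * p = p * l)
    (hf : ∀ h, ∃ i, f h ∈ Pp i)
    (hfam : ∀ i, Fam (⊥ : Subgroup (L i))) : Fam f.ker := by
  classical
  have hPpPm : ∀ {a b : I}, a < b → Pp a ≤ Pm b := fun {a b} hab y hy =>
    (hPm b y).mpr (Or.inr ⟨a, hab, hy⟩)
  have hLW : ∀ {i k : I}, i ≠ k → L k ≤ WW Pm L i := by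
    intro i k hik
    rcases lt_or_gt_of_ne hik with h | h
    · exact le_sup_of_le_right (le_iSup (fun j : {j // i < j} => L j.1) ⟨k, h⟩)
    · exact le_sup_of_le_left ((hL k).trans (hPpPm h))
  have hPmW : ∀ i, Pm i ≤ WW Pm L i := fun i => le_sup_left
  have key : ∀ i x, x ∈ WW Pm L i → x ∈ Pp i → x ∈ Pm i := by
    intro i x hx hxi
    obtain ⟨T, hT, hx'⟩ := mem_WW hx
    exact assembly_key hPm hL disj comm i T hT x hx' hxi
  have disjW : ∀ i x, x ∈ WW Pm L i → x ∈ L i → x = 1 := by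
    intro i x hx hxL
    have h1 : x ∈ Pm i ⊓ L i := ⟨key i x hx (hL i hxL), hxL⟩
    rw [disj] at h1
    exact h1
  have commW : ∀ i, ∀ w ∈ WW Pm L i, ∀ l ∈ L i, l * w = w * l := by
    intro i w hw l hl
    have h1 : WW Pm L i ≤ centralizer (L i : Set A) := by
      apply sup_le
      · intro p hp
        rw [mem_centralizer_iff]
        intro l hl
        exact comm i p hp l hl
      · apply iSup_le
        rintro ⟨j, hj⟩ y hy
        rw [mem_centralizer_iff]
        intro l hl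
        exact (comm j l (hPpPm hj (hL i hl)) y hy).symm
    exact mem_centralizer_iff.mp (h1 hw) l hl
  have hex : ∀ i k, ∀ a ∈ Pp k, ∃ l ∈ L i, l⁻¹ * a ∈ WW Pm L i := by
    intro i k
    induction k using WellFoundedLT.induction with
    | ind k ih =>
      intro a ha
      rcases lt_trichotomy k i with h | h | h
      · exact ⟨1, one_mem _, by simpa using hPmW i (hPpPm h ha)⟩
      · subst h
        obtain ⟨p, hp, l, hl, rfl⟩ := dec k a ha
        refine ⟨l, hl, ?_⟩
        rw [← comm k p hp l hl, inv_mul_cancel_left]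
        exact hPmW k hp
      · obtain ⟨p, hp, l, hl, rfl⟩ := dec k a ha
        rcases (hPm k p).mp hp with rfl | ⟨j, hj, hpj⟩
        · exact ⟨1, one_mem _, by simpa using hLW h.ne hl⟩
        · obtain ⟨l', hl', h1⟩ := ih j hj p hpj
          refine ⟨l', hl', ?_⟩
          rw [← mul_assoc]
          exact mul_mem h1 (hLW h.ne hl)
  have hexH : ∀ i (h : H), ∃ l : L i, (l : A)⁻¹ * f h ∈ WW Pm L i := by
    intro i h
    obtain ⟨k, hk⟩ := hf h
    obtain ⟨l, hl, h1⟩ := hex i k _ hk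
    exact ⟨⟨l, hl⟩, h1⟩
  have huniq : ∀ i (a : A) (l l' : L i), (l : A)⁻¹ * a ∈ WW Pm L i →
      (l' : A)⁻¹ * a ∈ WW Pm L i → l = l' := by
    intro i a l l' h1 h2
    have h3 := mul_mem h1 (inv_mem h2)
    have h4 : (l : A)⁻¹ * a * ((l' : A)⁻¹ * a)⁻¹ = (l : A)⁻¹ * l' := by group
    rw [h4] at h3
    have h5 := disjW i _ h3 (mul_mem (inv_mem l.2) l'.2)
    apply Subtype.ext
    exact inv_mul_eq_one.mp h5
  choose π hπ using hexH
  have hπmul : ∀ i (h h' : H), π i (h * h') = π i h * π i h' := by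
    intro i h h'
    apply huniq i (f (h * h')) _ _ (hπ i (h * h'))
    rw [map_mul]
    have h1 := mul_mem (hπ i h) (hπ i h')
    have h2 := commW i _ (hπ i h) _ (inv_mem (π i h').2)
    have h3 : (((π i h * π i h' : L i)) : A)⁻¹ * (f h * f h')
        = ((π i h : A)⁻¹ * f h) * ((π i h' : A)⁻¹ * f h') := by
      rw [Subgroup.coe_mul, mul_inv_rev]
      calc (π i h' : A)⁻¹ * (π i h : A)⁻¹ * (f h * f h')
          = ((π i h' : A)⁻¹ * ((π i h : A)⁻¹ * f h)) * f h' := by group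
        _ = (((π i h : A)⁻¹ * f h) * (π i h' : A)⁻¹) * f h' := by rw [h2]
        _ = _ := by group
    rw [h3]
    exact h1
  let Pr : ∀ i, H →* L i := fun i => MonoidHom.mk' (π i) (hπmul i)
  have hPr : ∀ i h, ((Pr i h : L i) : A)⁻¹ * f h ∈ WW Pm L i := hπ
  have hPrW : ∀ i h, f h ∈ WW Pm L i ↔ Pr i h = 1 := by
    intro i h
    constructor
    · intro h1
      exact huniq i (f h) _ _ (hPr i h) (by simpa using h1)
    · intro h1
      have h2 := hPr i h
      rw [h1] at h2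
      simpa using h2
  have hfinA : ∀ k, ∀ a ∈ Pp k, {i | a ∉ WW Pm L i}.Finite := by
    intro k
    induction k using WellFoundedLT.induction with
    | ind k ih =>
      intro a ha
      obtain ⟨p, hp, l, hl, rfl⟩ := dec k a ha
      have hp' : {i | p ∉ WW Pm L i}.Finite := by
        rcases (hPm k p).mp hp with rfl | ⟨j, hj, hpj⟩
        · have : {i | (1 : A) ∉ WW Pm L i} = ∅ := by
            ext i
            simp [one_mem]
          rw [this]
          exact Set.finite_empty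
        · exact ih j hj p hpj
      refine (hp'.union (Set.finite_singleton k)).subset ?_
      intro i hi
      by_cases hik : i = k
      · exact Or.inr hik
      · refine Or.inl (fun h => hi ?_)
        exact mul_mem h (hLW hik hl)
  have hsepA : ∀ k, ∀ a ∈ Pp k, a ≠ 1 → ∃ i, a ∉ WW Pm L i := by
    intro k
    induction k using WellFoundedLT.induction with
    | ind k ih =>
      intro a ha ha1
      by_cases hcase : a ∈ Pm k
      · rcases (hPm k a).mp hcase with h | ⟨j, hj, haj⟩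
        · exact absurd h ha1
        · exact ih j hj a haj ha1
      · exact ⟨k, fun h => hcase (key k a h ha)⟩
  choose J KK hK1 hK2 hK3 hK4 hK5 using hfam
  refine ⟨Σ i, J i, fun s => (KK s.1 s.2).comap (Pr s.1), ?_, ?_, ?_, ?_, ?_⟩
  · intro s
    exact (hK1 s.1 s.2).comap _
  · intro s
    have := hK2 s.1 s.2
    change ((KK s.1 s.2).comap (Pr s.1)).FiniteIndex
    refine ⟨?_⟩
    rw [index_comap]
    have := isFiniteRelIndex_of_finiteIndex (H := KK s.1 s.2) (K := (Pr s.1).range)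
    exact relIndex_ne_zero
  · intro h
    obtain ⟨k, hk⟩ := hf h
    have h1 := hfinA k _ hk
    have h2 : (⋃ i ∈ {i | f h ∉ WW Pm L i}, Sigma.mk i '' {j | Pr i h ∉ KK i j}).Finite :=
      h1.biUnion (fun i _ => (hK3 i (Pr i h)).image _)
    refine h2.subset ?_
    rintro ⟨i, j⟩ hij
    have hij' : Pr i h ∉ KK i j := hij
    have h3 : f h ∉ WW Pm L i := by
      intro hcon
      rw [hPrW] at hcon
      rw [hcon] at hij'
      exact hij' (one_mem _)
    exact Set.mem_biUnion h3 ⟨j, hij', rfl⟩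
  · intro h hh
    obtain ⟨k, hk⟩ := hf h
    obtain ⟨i, hi⟩ := hsepA k _ hk hh
    have h1 : Pr i h ≠ 1 := fun h => hi ((hPrW i _).mpr h)
    obtain ⟨j, hj⟩ := hK4 i (Pr i h) h1
    exact ⟨⟨i, j⟩, hj⟩
  · rintro h hh ⟨i, j⟩
    have h1 : f h = 1 := hh
    have h2 : Pr i h = 1 := (hPrW i h).mp (by rw [h1]; exact one_mem _)
    change Pr i h ∈ KK i j
    rw [h2]
    exact one_mem _

end assembly

end Pool.Agent.Hhelper87.FC
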