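import Mathlib
set_option autoImplicit false

namespace Pool.Agent.Hhelper87.FC

variable {U : Type*}

/-- A closure requirement with countable witnesses. -/
structure Req (Sat : Finset U → Set U → Prop) : Prop where
  mono : ∀ F T T', T ⊆ T' → Sat F T → Sat F T'
  wit : ∀ F, ∃ T : Set U, T.Countable ∧ Sat F T

theorem Req.and {S1 S2 : Finset U → Set U → Prop} (h1 : Req S1) (h2 : Req S2) :
    Req (fun F T => S1 F T ∧ S2 F T) where
  mono F T T' hT h := ⟨h1.mono F T T' hT h.1, h2.mono F T T' hT h.2⟩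
  wit F := by
    obtain ⟨T1, hT1, hS1⟩ := h1.wit F
    obtain ⟨T2, hT2, hS2⟩ := h2.wit F
    exact ⟨T1 ∪ T2, hT1.union hT2, h1.mono F _ _ Set.subset_union_left hS1,
      h2.mono F _ _ Set.subset_union_right hS2⟩

/-- closed sets -/
def ClosedU (Sat : Finset U → Set U → Prop) (M : Set U) : Prop :=
  ∀ F : Finset U, (F : Set U) ⊆ M → Sat F M

/-- stages -/
def stage (t : Finset U → Set U) (S : Set U) : ℕ → Set U
  | 0 => S
  | n + 1 => stage t S n ∪ ⋃ F : {F : Finset U // (F : Set U) ⊆ stage t S n}, t F.1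

theorem stage_mono {t : Finset U → Set U} {S S' : Set U} (h : S ⊆ S') (n : ℕ) :
    stage t S n ⊆ stage t S' n := by
  induction n with
  | zero => exact h
  | succ n ih =>
    intro x hx
    rcases hx with hx | hx
    · exact Or.inl (ih hx)
    · obtain ⟨⟨F, hF⟩, hx⟩ := Set.mem_iUnion.mp hx
      exact Or.inr (Set.mem_iUnion.mpr ⟨⟨F, hF.trans ih⟩, hx⟩)

theorem stage_le_succ (t : Finset U → Set U) (S : Set U) (n : ℕ) :
    stage t S n ⊆ stage t S (n + 1) := Set.subset_union_left

theorem stage_monotone (t : Finset U → Set U) (S : Set U) : Monotone (stage t S) :=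
  monotone_nat_of_le_succ (fun n => stage_le_succ t S n)

theorem stage_countable {t : Finset U → Set U} (ht : ∀ F, (t F).Countable) {S : Set U}
    (hS : S.Countable) (n : ℕ) : (stage t S n).Countable := by
  induction n with
  | zero => exact hS
  | succ n ih =>
    refine ih.union ?_
    have h1 : {F : Finset U | (F : Set U) ⊆ stage t S n}.Countable := by
      have h2 := Set.Countable.preimage_of_injOn
        (Set.countable_ofPred_finite_subset ih) (f := fun F : Finset U => (F : Set U))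
        (Finset.coe_injective.injOn)
      refine h2.mono ?_
      intro F hF
      exact ⟨F.finite_toSet, hF⟩
    have : Countable {F : Finset U // (F : Set U) ⊆ stage t S n} := h1.to_subtype
    exact Set.countable_iUnion (fun F => ht _)

theorem stage_finitary {t : Finset U → Set U} (S : Set U) (n : ℕ) :
    ∀ x ∈ stage t S n, ∃ F : Finset U, (F : Set U) ⊆ S ∧ x ∈ stage t (F : Set U) n := by
  classical
  induction n with
  | zero =>
    intro x hx
    have hx' : x ∈ S := hx
    exact ⟨{x}, by simpa using hx', by simp [stage]⟩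
  | succ n ih =>
    intro x hx
    rcases hx with hx | hx
    · obtain ⟨F, hF, hx⟩ := ih x hx
      exact ⟨F, hF, Or.inl hx⟩
    · obtain ⟨⟨F, hF⟩, hx⟩ := Set.mem_iUnion.mp hx
      have h1 : ∀ y : U, y ∈ F → ∃ F' : Finset U, (F' : Set U) ⊆ S ∧ y ∈ stage t (F' : Set U) n :=
        fun y hy => ih y (hF hy)
      choose! Fy hFy1 hFy2 using h1
      refine ⟨F.biUnion Fy, ?_, Or.inr (Set.mem_iUnion.mpr ⟨⟨F, ?_⟩, hx⟩)⟩
      · intro z hz
        obtain ⟨y, hy, hz⟩ := Finset.mem_biUnion.mp (Finset.mem_coe.mp hz)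
        exact hFy1 y hy hz
      · intro y hy
        refine stage_mono ?_ n (hFy2 y hy)
        intro z hz
        exact Finset.mem_coe.mpr (Finset.mem_biUnion.mpr ⟨y, hy, hz⟩)

theorem exists_cl {Sat : Finset U → Set U → Prop} (h : Req Sat) :
    ∃ cl : Set U → Set U, (∀ S, S ⊆ cl S) ∧ (∀ S S', S ⊆ S' → cl S ⊆ cl S') ∧
      (∀ S, ClosedU Sat (cl S)) ∧ (∀ S, S.Countable → (cl S).Countable) ∧
      (∀ S x, x ∈ cl S → ∃ F : Finset U, (F : Set U) ⊆ S ∧ x ∈ cl (F : Set U)) := by
  classical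
  choose t ht1 ht2 using h.wit
  refine ⟨fun S => ⋃ n, stage t S n, ?_, ?_, ?_, ?_, ?_⟩
  · exact fun S x hx => Set.mem_iUnion.mpr ⟨0, hx⟩
  · exact fun S S' hS => Set.iUnion_mono (fun n => stage_mono hS n)
  · intro S F hF
    have h1 : ∃ n, (F : Set U) ⊆ stage t S n := by
      have h2 : ∀ y : U, y ∈ F → ∃ n, y ∈ stage t S n := fun y hy => Set.mem_iUnion.mp (hF hy)
      choose! ny hny using h2
      refine ⟨F.sup ny, fun y hy => ?_⟩
      exact stage_monotone t S (Finset.le_sup (f := ny) hy) (hny y hy)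
    obtain ⟨n, hn⟩ := h1
    refine h.mono F (t F) _ ?_ (ht2 F)
    intro x hx
    exact Set.mem_iUnion.mpr ⟨n + 1, Or.inr (Set.mem_iUnion.mpr ⟨⟨F, hn⟩, hx⟩)⟩
  · exact fun S hS => Set.countable_iUnion (fun n => stage_countable ht1 hS n)
  · intro S x hx
    obtain ⟨n, hn⟩ := Set.mem_iUnion.mp hx
    obtain ⟨F, hF, hx⟩ := stage_finitary S n x hn
    exact ⟨F, hF, Set.mem_iUnion.mpr ⟨n, hx⟩⟩

end Pool.Agent.Hhelper87.FC
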