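import Mathlib
import Pool.Agent.Hhelper87.FC.Basic
set_option autoImplicit false

namespace Pool.Agent.Hhelper87.FC
open Subgroup

variable {G : Type*} [Group G]

/-- Locally inner maps: agree with an inner automorphism on every finite set. -/
def LI (ψ : G → G) : Prop := ∀ F : Finset G, ∃ g : G, ∀ x ∈ F, ψ x = g * x * g⁻¹

theorem LI.map_mul' {ψ : G → G} (h : LI ψ) (x y : G) : ψ (x * y) = ψ x * ψ y := by
  classical
  obtain ⟨g, hg⟩ := h {x, y, x * y}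
  rw [hg x (by simp), hg y (by simp), hg (x * y) (by simp)]
  group

theorem LI.mem_normal {ψ : G → G} (h : LI ψ) {N : Subgroup G} (hN : N.Normal) {x : G}
    (hx : x ∈ N) : ψ x ∈ N := by
  classical
  obtain ⟨g, hg⟩ := h {x}
  rw [hg x (by simp)]
  exact hN.conj_mem x hx g

theorem LI.center {ψ : G → G} (h : LI ψ) {z : G} (hz : z ∈ Subgroup.center G) : ψ z = z := by
  classical
  obtain ⟨g, hg⟩ := h {z}
  rw [hg z (by simp), mem_center_iff.mp hz g]
  group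

theorem LI.conjugates {ψ : G → G} (h : LI ψ) (x : G) : ψ x ∈ conjugatesOf x := by
  classical
  obtain ⟨g, hg⟩ := h {x}
  rw [hg x (by simp)]
  exact conj_mem_conjugatesOf g x

theorem LI_conj (g : G) : LI (fun x => g * x * g⁻¹) := fun _ => ⟨g, fun _ _ => rfl⟩

theorem LI_id : LI (fun x : G => x) := fun _ => ⟨1, fun _ _ => by group⟩

theorem LI.comp {φ ψ : G → G} (hφ : LI φ) (hψ : LI ψ) : LI (fun x => φ (ψ x)) := by
  classical
  intro F
  obtain ⟨g, hg⟩ := hψ F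
  obtain ⟨k, hk⟩ := hφ (F.image ψ)
  refine ⟨k * g, fun x hx => ?_⟩
  change φ (ψ x) = _
  rw [hk (ψ x) (Finset.mem_image_of_mem _ hx), hg x hx]
  group

theorem LI.inj {ψ : G → G} (h : LI ψ) : Function.Injective ψ := by
  classical
  intro x y hxy
  obtain ⟨g, hg⟩ := h {x, y}
  rw [hg x (by simp), hg y (by simp)] at hxy
  simpa using hxy

theorem LI.surj (hFC : IsFC G) {ψ : G → G} (h : LI ψ) : Function.Surjective ψ := by
  intro y
  have hmaps : Set.MapsTo ψ (conjugatesOf y) (conjugatesOf y) := by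
    intro x hx
    have h1 : IsConj y x := hx
    have h2 : IsConj x (ψ x) := h.conjugates x
    exact h1.trans h2
  have hs : Set.SurjOn ψ (conjugatesOf y) (conjugatesOf y) :=
    ((hFC y).injOn_iff_bijOn_of_mapsTo hmaps).mp (h.inj.injOn) |>.surjOn
  obtain ⟨x, -, hx⟩ := hs (mem_conjugatesOf_self : y ∈ conjugatesOf y)
  exact ⟨x, hx⟩

theorem LI.exists_aut (hFC : IsFC G) {ψ : G → G} (h : LI ψ) :
    ∃ φ : MulAut G, (φ : G → G) = ψ := by
  let f : G →* G := MonoidHom.mk' ψ h.map_mul'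
  exact ⟨MulEquiv.ofBijective f ⟨h.inj, h.surj hFC⟩, rfl⟩

theorem LI_inv {φ : MulAut G} (h : LI φ) : LI (φ⁻¹ : MulAut G) := by
  classical
  intro F
  obtain ⟨g, hg⟩ := h (F.image (φ⁻¹ : MulAut G))
  refine ⟨g⁻¹, fun x hx => ?_⟩
  have h1 := hg _ (Finset.mem_image_of_mem _ hx)
  have h2 : φ ((φ⁻¹ : MulAut G) x) = x := MulAut.apply_inv_self G φ x
  rw [h2] at h1
  calc (φ⁻¹ : MulAut G) x = g⁻¹ * (g * (φ⁻¹ : MulAut G) x * g⁻¹) * g := by group
    _ = g⁻¹ * x * g⁻¹⁻¹ := by rw [← h1]; group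

/-- Locally inner automorphisms with displacement in `E`. -/
def D (E : Subgroup G) : Subgroup (MulAut G) where
  carrier := {φ | LI φ ∧ ∀ x, φ x * x⁻¹ ∈ E}
  one_mem' := ⟨LI_id, fun x => by simp⟩
  mul_mem' := by
    rintro φ ψ ⟨h1, h2⟩ ⟨h3, h4⟩
    refine ⟨h1.comp h3, fun x => ?_⟩
    have h5 := mul_mem (h2 (ψ x)) (h4 x)
    have h6 : (φ * ψ) x * x⁻¹ = φ (ψ x) * (ψ x)⁻¹ * (ψ x * x⁻¹) := by
      rw [MulAut.mul_apply]
      group
    rw [h6]
    exact h5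
  inv_mem' := by
    rintro φ ⟨h1, h2⟩
    refine ⟨LI_inv h1, fun x => ?_⟩
    have h3 := inv_mem (h2 ((φ⁻¹ : MulAut G) x))
    rw [MulAut.apply_inv_self] at h3
    convert h3 using 1
    group

theorem mem_D {E : Subgroup G} {φ : MulAut G} : φ ∈ D E ↔ LI φ ∧ ∀ x, φ x * x⁻¹ ∈ E := Iff.rfl

theorem D_mono {E F : Subgroup G} (h : E ≤ F) : D E ≤ D F := fun _ hφ =>
  ⟨hφ.1, fun x => h (hφ.2 x)⟩

/-- All locally inner automorphisms with displacement in some finite normal subgroup. -/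
def Qh (G : Type*) [Group G] : Subgroup (MulAut G) where
  carrier := {φ | ∃ E : Subgroup G, FN E ∧ φ ∈ D E}
  one_mem' := ⟨⊥, FN.bot, one_mem _⟩
  mul_mem' := by
    rintro φ ψ ⟨E, hE, h1⟩ ⟨F, hF, h2⟩
    exact ⟨E ⊔ F, hE.sup hF, mul_mem (D_mono le_sup_left h1) (D_mono le_sup_right h2)⟩
  inv_mem' := by
    rintro φ ⟨E, hE, h1⟩
    exact ⟨E, hE, inv_mem h1⟩

theorem mem_Qh {φ : MulAut G} : φ ∈ Qh G ↔ ∃ E : Subgroup G, FN E ∧ φ ∈ D E := Iff.rfl

theorem LI_of_mem_Qh {φ : MulAut G} (h : φ ∈ Qh G) : LI φ := by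
  obtain ⟨E, -, h1⟩ := h
  exact h1.1

theorem conj_mem_Qh (hFC : IsFC G) (g : G) : MulAut.conj g ∈ Qh G := by
  obtain ⟨E, hE, -, h2⟩ := exists_FN_comm hFC g
  refine ⟨E, hE, ?_, fun x => ?_⟩
  · exact LI_conj g
  · rw [MulAut.conj_apply]
    exact h2 x

theorem conj_eq_of_LI {E : Subgroup G} (hE : FN E) {φ ψ : MulAut G} (hφ : φ ∈ D E)
    (hψ : LI ψ) : ∃ a ∈ E, ψ * φ * ψ⁻¹ = MulAut.conj a * φ := by
  classical
  by_contra hcon
  push Not at hcon
  have hx : ∀ a : G, a ∈ E → ∃ x, (ψ * φ * ψ⁻¹) x ≠ (MulAut.conj a * φ) x := by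
    intro a ha
    by_contra h
    push Not at h
    exact hcon a ha (MulEquiv.ext h)
  choose! xf hxf using hx
  let F : Finset G := hE.2.toFinset.image xf
  obtain ⟨g, hg⟩ := hψ (F.image (ψ⁻¹ : MulAut G) ∪ F.image (fun x => φ ((ψ⁻¹ : MulAut G) x)))
  have ha : g * (φ g)⁻¹ ∈ E := by
    have := inv_mem (hφ.2 g)
    simpa using this
  have hF : xf (g * (φ g)⁻¹) ∈ F := Finset.mem_image_of_mem _ (hE.2.mem_toFinset.mpr ha)
  apply hxf _ ha
  set x := xf (g * (φ g)⁻¹) with hxdef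
  have h1 : ψ ((ψ⁻¹ : MulAut G) x) = g * (ψ⁻¹ : MulAut G) x * g⁻¹ :=
    hg _ (Finset.mem_union_left _ (Finset.mem_image_of_mem _ hF))
  have h2 : ψ (φ ((ψ⁻¹ : MulAut G) x)) = g * φ ((ψ⁻¹ : MulAut G) x) * g⁻¹ :=
    hg _ (Finset.mem_union_right _ (Finset.mem_image.mpr ⟨x, hF, rfl⟩))
  rw [MulAut.apply_inv_self] at h1
  have h3 : (ψ⁻¹ : MulAut G) x = g⁻¹ * x * g := by
    calc (ψ⁻¹ : MulAut G) x = g⁻¹ * (g * (ψ⁻¹ : MulAut G) x * g⁻¹) * g := by group
      _ = g⁻¹ * x * g := by rw [← h1]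
  simp only [MulAut.mul_apply, MulAut.conj_apply]
  rw [h2, h3]
  simp only [map_mul, map_inv]
  group

theorem finite_conj_set {φ : MulAut G} (hφ : φ ∈ Qh G) :
    {χ : MulAut G | ∃ ψ : MulAut G, LI ψ ∧ χ = ψ * φ * ψ⁻¹}.Finite := by
  obtain ⟨E, hE, h1⟩ := hφ
  refine (hE.2.image (fun a => MulAut.conj a * φ)).subset ?_
  rintro _ ⟨ψ, hψ, rfl⟩
  obtain ⟨a, ha, h⟩ := conj_eq_of_LI hE h1 hψ
  exact ⟨a, ha, h.symm⟩

theorem conj_mem_Qh' {φ ψ : MulAut G} (hφ : φ ∈ Qh G) (hψ : LI ψ) : ψ * φ * ψ⁻¹ ∈ Qh G := by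
  obtain ⟨E, hE, h1⟩ := hφ
  obtain ⟨a, ha, h⟩ := conj_eq_of_LI hE h1 hψ
  refine ⟨E, hE, ?_⟩
  rw [h]
  refine mul_mem ?_ h1
  refine ⟨LI_conj a, fun x => ?_⟩
  rw [MulAut.conj_apply]
  have h2 := hE.1.conj_mem _ (inv_mem ha) x
  have h3 := mul_mem ha h2
  convert h3 using 1
  group

theorem pow_apply_of_fix {E : Subgroup G} {χ : MulAut G} (hχ : χ ∈ D E)
    (hfix : ∀ e ∈ E, χ e = e) (x : G) (j : ℕ) : (χ ^ j) x = (χ x * x⁻¹) ^ j * x := by
  induction j with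
  | zero => simp
  | succ j ih =>
    rw [pow_succ', MulAut.mul_apply, ih, map_mul, map_pow, hfix _ (hχ.2 x), pow_succ]
    group

theorem isOfFinOrder_of_mem_Qh {φ : MulAut G} (hφ : φ ∈ Qh G) : IsOfFinOrder φ := by
  classical
  obtain ⟨E, hE, h1⟩ := hφ
  have hmem : ∀ x, φ x ∈ E ↔ x ∈ E := by
    intro x
    constructor
    · intro h
      have h2 := (LI_inv h1.1).mem_normal hE.1 h
      rwa [MulAut.inv_apply_self] at h2
    · exact fun h => h1.1.mem_normal hE.1 h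
  have : Finite E := hE.2
  let f : Equiv.Perm E := Equiv.Perm.subtypePerm (φ.toEquiv : Equiv.Perm G) hmem
  set k := Nat.card (Equiv.Perm E) with hk
  have hkpos : 0 < k := Nat.card_pos
  have hf : f ^ k = 1 := pow_card_eq_one'
  have hpow : ∀ (n : ℕ) (e : E), ((f ^ n) e : G) = (φ ^ n) (e : G) := by
    intro n
    induction n with
    | zero => intro e; simp
    | succ n ih =>
      intro e
      rw [pow_succ', pow_succ', Equiv.Perm.mul_apply, MulAut.mul_apply, ← ih e]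
      rfl
  have hfix : ∀ e ∈ E, (φ ^ k) e = e := by
    intro e he
    have := hpow k ⟨e, he⟩
    rw [hf] at this
    exact this.symm
  have hD : φ ^ k ∈ D E := pow_mem h1 k
  set m := Nat.card E with hm
  have hmpos : 0 < m := Nat.card_pos
  rw [isOfFinOrder_iff_pow_eq_one]
  refine ⟨k * m, Nat.mul_pos hkpos hmpos, ?_⟩
  rw [pow_mul]
  ext x
  rw [pow_apply_of_fix hD hfix]
  have h3 : ((⟨_, hD.2 x⟩ : E)) ^ m = 1 := pow_card_eq_one'
  have h4 : ((φ ^ k) x * x⁻¹) ^ m = 1 := by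
    have := congrArg (Subtype.val) h3
    simpa using this
  rw [h4]
  simp

/-- subgroups of `Qh`: FC. -/
theorem isFC_of_le_Qh {K : Subgroup (MulAut G)} (hK : K ≤ Qh G) : IsFC K := by
  intro k
  have h1 : (((↑) : K → MulAut G) ⁻¹'
      {χ : MulAut G | ∃ ψ : MulAut G, LI ψ ∧ χ = ψ * k * ψ⁻¹}).Finite :=
    (finite_conj_set (hK k.2)).preimage (Subtype.val_injective.injOn)
  refine h1.subset ?_
  intro y hy
  obtain ⟨c, rfl⟩ := isConj_iff.mp hy
  exact ⟨c, LI_of_mem_Qh (hK c.2), by simp⟩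

theorem torsion_of_le_Qh {K : Subgroup (MulAut G)} (hK : K ≤ Qh G) (k : K) : IsOfFinOrder k := by
  rw [← Submonoid.isOfFinOrder_coe (H := K.toSubmonoid)]
  exact isOfFinOrder_of_mem_Qh (hK k.2)

theorem residuallyFinite_of_le_Qh (hFC : IsFC G) {K : Subgroup (MulAut G)} (hK : K ≤ Qh G)
    (k : K) (hk : k ≠ 1) : ∃ R : Subgroup K, R.Normal ∧ R.FiniteIndex ∧ k ∉ R := by
  classical
  have hx : ∃ x : G, (k : MulAut G) x ≠ x := by
    by_contra h
    push Not at h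
    apply hk
    apply Subtype.ext
    exact MulEquiv.ext h
  obtain ⟨x, hx⟩ := hx
  have hmaps : ∀ (ψ : K) (y : G), y ∈ conjugatesOf x → (ψ : MulAut G) y ∈ conjugatesOf x := by
    intro ψ y hy
    have h1 : IsConj x y := hy
    exact h1.trans ((LI_of_mem_Qh (hK ψ.2)).conjugates y)
  let R : Subgroup K :=
    { carrier := {ψ | ∀ y ∈ conjugatesOf x, (ψ : MulAut G) y = y}
      one_mem' := fun y _ => rfl
      mul_mem' := by
        intro a b ha hb y hy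
        have := hb y hy
        rw [Subgroup.coe_mul, MulAut.mul_apply, hb y hy, ha y hy]
      inv_mem' := by
        intro a ha y hy
        rw [Subgroup.coe_inv]
        conv_lhs => rw [← ha y hy]
        rw [MulAut.inv_apply_self] }
  refine ⟨R, ⟨?_⟩, ?_, ?_⟩
  · intro ψ hψ c y hy
    have h1 : (((c * ψ * c⁻¹ : K)) : MulAut G) y
        = (c : MulAut G) ((ψ : MulAut G) (((c⁻¹ : K) : MulAut G) y)) := rfl
    rw [h1, hψ _ (hmaps c⁻¹ y hy)]
    rw [Subgroup.coe_inv, MulAut.apply_inv_self]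
  · have hfin : Finite (conjugatesOf x) := (hFC x).to_subtype
    refine finiteIndex_of_finite_range
      (fun (ψ : K) => fun (y : conjugatesOf x) =>
        (⟨(ψ : MulAut G) y, hmaps ψ y y.2⟩ : conjugatesOf x)) (Set.toFinite _) _ ?_
    intro a b hab y hy
    have h1 := congrArg Subtype.val (congrFun hab ⟨y, hy⟩)
    have h2 : (a : MulAut G) y = (b : MulAut G) y := h1
    rw [Subgroup.coe_mul, Subgroup.coe_inv, MulAut.mul_apply, ← h2, MulAut.inv_apply_self]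
  · intro hkR
    exact hx (hkR x mem_conjugatesOf_self)

end Pool.Agent.Hhelper87.FC
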