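import Mathlib
import Pool.Agent.Hhelper87.FC.LI
set_option autoImplicit false

namespace Pool.Agent.Hhelper87.FC
open Subgroup
open scoped commutatorElement

/-- A group with finite derived subgroup has a finite index subgroup contained in the second
centre. -/
theorem exists_second_center (H : Type*) [Group H] (hfin : Finite (_root_.commutator H)) :
    ∃ C : Subgroup H, C.FiniteIndex ∧ ∀ z ∈ C, ∀ h : H, z * h * z⁻¹ * h⁻¹ ∈ center H := by
  classical
  have hcm : ∀ a b : H, a * b * a⁻¹ * b⁻¹ ∈ _root_.commutator H := by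
    intro a b
    rw [commutator_def]
    exact commutator_mem_commutator (mem_top a) (mem_top b)
  have hFC : IsFC H := by
    intro x
    have h1 : (Set.range fun d : _root_.commutator H => (d : H) * x).Finite := Set.finite_range _
    refine h1.subset ?_
    intro y hy
    obtain ⟨c, rfl⟩ := isConj_iff.mp hy
    exact ⟨⟨_, hcm c x⟩, by simp⟩
  let C : Subgroup H := ⨅ d : _root_.commutator H, centralizer {(d : H)}
  have hC : C.FiniteIndex := finiteIndex_iInf (fun d => finiteIndex_centralizer (hFC _))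
  have hCmem : ∀ c ∈ C, ∀ d ∈ _root_.commutator H, c * d = d * c := by
    intro c hc d hd
    have := mem_iInf.mp hc ⟨d, hd⟩
    exact mem_centralizer_singleton_iff.mp this
  have hCfin : Finite (H ⧸ C) := inferInstance
  let C1 : Subgroup H := C ⊓ ⨅ q : H ⧸ C, centralizer {q.out}
  have hC1 : C1.FiniteIndex := by
    have : (⨅ q : H ⧸ C, centralizer {q.out}).FiniteIndex :=
      finiteIndex_iInf (fun q => finiteIndex_centralizer (hFC _))
    infer_instance
  refine ⟨C1, hC1, ?_⟩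
  intro z hz
  have hzC : z ∈ C := hz.1
  have hzq : ∀ q : H ⧸ C, z * q.out = q.out * z := by
    intro q
    exact mem_centralizer_singleton_iff.mp (mem_iInf.mp hz.2 q)
  -- key
  have hdec : ∀ h : H, ∃ q : H ⧸ C, ∃ c ∈ C, h = q.out * c := by
    intro h
    obtain ⟨c, hc⟩ := QuotientGroup.mk_out_eq_mul C h
    refine ⟨(h : H ⧸ C), (c : H)⁻¹, inv_mem c.2, ?_⟩
    rw [hc]
    group
  have hw : ∀ c ∈ C, z * c * z⁻¹ * c⁻¹ ∈ center H := by
    intro c hc
    set w := z * c * z⁻¹ * c⁻¹ with hwdef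
    have hw1 : w ∈ _root_.commutator H := hcm z c
    have hw2 : w ∈ C := mul_mem (mul_mem (mul_mem hzC hc) (inv_mem hzC)) (inv_mem hc)
    rw [mem_center_iff]
    intro k
    obtain ⟨q, c', hc', rfl⟩ := hdec k
    have h1 : c' * w = w * c' := hCmem c' hc' w hw1
    have h2 : q.out * w * (q.out)⁻¹ = w := by
      set a := q.out with ha
      have hza : z * a = a * z := hzq q
      have hza' : a * z * a⁻¹ = z := by rw [← hza]; group
      set d := a * c * a⁻¹ * c⁻¹ with hd
      have hdm : d ∈ _root_.commutator H := hcm a c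
      have h3 : a * w * a⁻¹ = z * (d * c) * z⁻¹ * (d * c)⁻¹ := by
        calc a * w * a⁻¹ = (a * z * a⁻¹) * (a * c * a⁻¹) * (a * z * a⁻¹)⁻¹ * (a * c * a⁻¹)⁻¹ := by
              rw [hwdef]; group
          _ = z * (d * c) * z⁻¹ * (d * c)⁻¹ := by
              rw [hza', hd]
              group
      have h4 : z * d = d * z := hCmem z hzC d hdm
      have h5 : w * d = d * w := hCmem w hw2 d hdm
      rw [h3]
      calc z * (d * c) * z⁻¹ * (d * c)⁻¹ = (z * d) * c * z⁻¹ * c⁻¹ * d⁻¹ := by group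
        _ = d * z * c * z⁻¹ * c⁻¹ * d⁻¹ := by rw [h4]
        _ = d * w * d⁻¹ := by rw [hwdef]; group
        _ = w := by rw [← h5]; group
    calc q.out * c' * w = q.out * (c' * w) := by group
      _ = q.out * (w * c') := by rw [h1]
      _ = (q.out * w * (q.out)⁻¹) * q.out * c' := by group
      _ = w * (q.out * c') := by rw [h2]; group
  intro h
  obtain ⟨q, c, hc, rfl⟩ := hdec h
  have h1 := hw c hc
  have h2 : z * (q.out * c) * z⁻¹ * (q.out * c)⁻¹ = z * c * z⁻¹ * c⁻¹ := by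
    have h3 := hzq q
    have h4 := mem_center_iff.mp h1 q.out
    calc z * (q.out * c) * z⁻¹ * (q.out * c)⁻¹
        = (z * q.out) * c * z⁻¹ * c⁻¹ * (q.out)⁻¹ := by group
      _ = (q.out * z) * c * z⁻¹ * c⁻¹ * (q.out)⁻¹ := by rw [h3]
      _ = (q.out * (z * c * z⁻¹ * c⁻¹)) * (q.out)⁻¹ := by group
      _ = ((z * c * z⁻¹ * c⁻¹) * q.out) * (q.out)⁻¹ := by rw [h4]
      _ = z * c * z⁻¹ * c⁻¹ := by group
  rw [h2]
  exact h1

variable {G : Type*} [Group G]

/-- Residually (finite derived subgroup). -/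
def ResX (G : Type*) [Group G] : Prop := ∀ g : G, g ≠ 1 →
  ∃ N : Subgroup G, ∃ _ : N.Normal, g ∉ N ∧ Finite (_root_.commutator (G ⧸ N))

theorem relIndex_comm_eq (N : Subgroup G) [N.Normal] :
    N.relIndex (_root_.commutator G) = Nat.card (_root_.commutator (G ⧸ N)) := by
  have h1 := relIndex_ker (_root_.commutator G) (QuotientGroup.mk' N)
  rw [QuotientGroup.ker_mk'] at h1
  rw [h1, commutator_def, commutator_def, map_commutator,
    map_top_of_surjective _ (QuotientGroup.mk'_surjective N)]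

theorem exists_NE (hX : ResX G) {E : Subgroup G} (hE : FN E) :
    ∃ N : Subgroup G, N.Normal ∧ N ⊓ E = ⊥ ∧ N.relIndex (_root_.commutator G) ≠ 0 := by
  classical
  have hfin : Finite E := hE.2
  have hch : ∀ e : E, ∃ N : Subgroup G, N.Normal ∧ ((e : G) ≠ 1 → (e : G) ∉ N) ∧
      N.relIndex (_root_.commutator G) ≠ 0 := by
    intro e
    by_cases h : (e : G) = 1
    · exact ⟨⊤, inferInstance, fun h' => absurd h h', by simp⟩
    · obtain ⟨N, hN, h1, h2⟩ := hX e h
      refine ⟨N, hN, fun _ => h1, ?_⟩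
      rw [relIndex_comm_eq]
      exact Nat.card_pos.ne'
  choose N hN1 hN2 hN3 using hch
  refine ⟨⨅ e, N e, normal_iInf_normal hN1, ?_, relIndex_iInf_ne_zero hN3⟩
  rw [eq_bot_iff]
  rintro x ⟨hx1, hx2⟩
  by_contra hx
  exact hN2 ⟨x, hx2⟩ hx (mem_iInf.mp hx1 ⟨x, hx2⟩)

/-- The preimage of the centre of `G/N`. -/
def ZN (N : Subgroup G) [N.Normal] : Subgroup G := (center (G ⧸ N)).comap (QuotientGroup.mk' N)

instance (N : Subgroup G) [N.Normal] : (ZN N).Normal := by unfold ZN; infer_instance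

theorem mem_ZN {N : Subgroup G} [N.Normal] {z : G} :
    z ∈ ZN N ↔ ∀ g, g * z * g⁻¹ * z⁻¹ ∈ N := by
  unfold ZN
  rw [mem_comap, mem_center_iff]
  constructor
  · intro h g
    have h1 := h (QuotientGroup.mk' N g)
    rw [← QuotientGroup.eq_one_iff (N := N)]
    have h2 : ((g * z * g⁻¹ * z⁻¹ : G) : G ⧸ N)
      = (QuotientGroup.mk' N g * QuotientGroup.mk' N z) * (QuotientGroup.mk' N g)⁻¹ *
        (QuotientGroup.mk' N z)⁻¹ := rfl
    rw [h2, h1]
    group
  · intro h q
    obtain ⟨g, rfl⟩ := QuotientGroup.mk'_surjective N q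
    have h1 := h g
    rw [← QuotientGroup.eq_one_iff (N := N)] at h1
    have h2 : ((g * z * g⁻¹ * z⁻¹ : G) : G ⧸ N)
      = (QuotientGroup.mk' N g * QuotientGroup.mk' N z) * (QuotientGroup.mk' N g)⁻¹ *
        (QuotientGroup.mk' N z)⁻¹ := rfl
    rw [h2] at h1
    calc QuotientGroup.mk' N g * QuotientGroup.mk' N z
        = (QuotientGroup.mk' N g * QuotientGroup.mk' N z * (QuotientGroup.mk' N g)⁻¹ *
        (QuotientGroup.mk' N z)⁻¹) * (QuotientGroup.mk' N z * QuotientGroup.mk' N g) := by group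
      _ = _ := by rw [h1, one_mul]

theorem exists_FE (N : Subgroup G) [N.Normal] (hN : N.relIndex (_root_.commutator G) ≠ 0) :
    ∃ F : Finset G, ∀ ψ : G → G, LI ψ → (∀ x ∈ F, ψ x * x⁻¹ ∈ ZN N) → ∀ x, ψ x * x⁻¹ ∈ ZN N := by
  classical
  have hfin : Finite (_root_.commutator (G ⧸ N)) := by
    rw [relIndex_comm_eq] at hN
    exact Nat.finite_of_card_ne_zero hN
  obtain ⟨C, hC, hC2⟩ := exists_second_center (G ⧸ N) hfin
  have hq : Finite ((G ⧸ N) ⧸ C) := inferInstance
  let r : (G ⧸ N) ⧸ C → G := fun q => (q.out).out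
  let F : Finset G := (Set.finite_range r).toFinset
  refine ⟨F, fun ψ hψ hF x => ?_⟩
  let q : (G ⧸ N) ⧸ C := (QuotientGroup.mk (QuotientGroup.mk' N x) : (G ⧸ N) ⧸ C)
  have hrF : r q ∈ F := by simp [F]
  have h1 : QuotientGroup.mk' N (r q) = q.out := by
    change ((Quotient.out (q.out) : G) : G ⧸ N) = _
    exact QuotientGroup.out_eq' _
  have h2 : (QuotientGroup.mk' N (r q))⁻¹ * QuotientGroup.mk' N x ∈ C := by
    rw [h1]
    apply QuotientGroup.eq.mp
    exact QuotientGroup.out_eq' _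
  set f := r q with hf
  set w := f⁻¹ * x with hwdef
  have h3 : ψ w * w⁻¹ ∈ ZN N := by
    obtain ⟨g, hg⟩ := hψ {w}
    rw [hg w (by simp)]
    unfold ZN
    rw [mem_comap]
    have h4 : QuotientGroup.mk' N w ∈ C := h2
    have h5 := hC2 _ h4 (QuotientGroup.mk' N g)
    have h6 := inv_mem h5
    convert h6 using 1
    simp only [map_mul, map_inv]
    group
  have h7 : ψ x * x⁻¹ = (ψ f * f⁻¹) * (f * (ψ w * w⁻¹) * f⁻¹) := by
    have h8 : x = f * w := by rw [hwdef]; group
    conv_lhs => rw [h8, hψ.map_mul']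
    group
  rw [h7]
  exact mul_mem (hF f hrF) ((inferInstance : (ZN N).Normal).conj_mem _ h3 f)

theorem inter_ZN_le_center {N E : Subgroup G} [N.Normal] (hE : E.Normal) (hNE : N ⊓ E = ⊥) {x : G}
    (hx : x ∈ E) (hz : x ∈ ZN N) : x ∈ center G := by
  rw [mem_center_iff]
  intro g
  have h1 := mem_ZN.mp hz g
  have h2 : g * x * g⁻¹ * x⁻¹ ∈ E := mul_mem (hE.conj_mem x hx g) (inv_mem hx)
  have h3 : g * x * g⁻¹ * x⁻¹ ∈ N ⊓ E := ⟨h1, h2⟩
  rw [hNE, mem_bot] at h3
  calc g * x = (g * x * g⁻¹ * x⁻¹) * (x * g) := by group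
    _ = x * g := by rw [h3, one_mul]

theorem pow_relIndex_mem {N K : Subgroup G} [N.Normal] {a : G} (ha : a ∈ K) :
    a ^ (N.relIndex K) ∈ N := by
  have h1 := pow_index_mem (N.subgroupOf K) (⟨a, ha⟩ : K)
  rw [mem_subgroupOf] at h1
  exact h1

end Pool.Agent.Hhelper87.FC
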