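import Mathlib
import Pool.Agent.Hhelper87.FC.NE
set_option autoImplicit false

namespace Pool.Agent.Hhelper87.FC
open Subgroup

variable {G : Type*} [Group G]

theorem compactness (hFC : IsFC G) (R : G → Set G)
    (h : ∀ F : Finset G, ∃ g : G, ∀ x ∈ F, g * x * g⁻¹ ∈ R x) :
    ∃ φ : MulAut G, LI φ ∧ ∀ x, φ x ∈ R x := by
  classical
  choose γ hγ using h
  let U : Ultrafilter (Finset G) := Ultrafilter.of Filter.atTop
  have hU : (U : Filter (Finset G)) ≤ Filter.atTop := Ultrafilter.of_le _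
  have hex : ∀ x : G, ∃ y : G, ∀ᶠ F in (U : Filter (Finset G)), γ F * x * (γ F)⁻¹ = y := by
    intro x
    have h1 : (⋃ y ∈ conjugatesOf x, {F : Finset G | γ F * x * (γ F)⁻¹ = y}) ∈ U := by
      have h2 : (⋃ y ∈ conjugatesOf x, {F : Finset G | γ F * x * (γ F)⁻¹ = y}) = Set.univ := by
        ext F
        simp only [Set.mem_iUnion, Set.mem_univ, iff_true]
        exact ⟨_, conj_mem_conjugatesOf (γ F) x, rfl⟩
      rw [h2]
      exact Filter.univ_mem
    obtain ⟨y, -, hy⟩ := (Ultrafilter.finite_biUnion_mem_iff (hFC x)).mp h1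
    exact ⟨y, hy⟩
  choose ψ hψ using hex
  have hLI : LI ψ := by
    intro F0
    have h1 : ∀ᶠ F in (U : Filter (Finset G)), ∀ x ∈ F0, γ F * x * (γ F)⁻¹ = ψ x := by
      rw [Filter.eventually_all_finset]
      exact fun x _ => hψ x
    obtain ⟨F, hF⟩ := h1.exists
    exact ⟨γ F, fun x hx => (hF x hx).symm⟩
  have hR : ∀ x, ψ x ∈ R x := by
    intro x
    have h1 : ∀ᶠ F in (U : Filter (Finset G)), ({x} : Finset G) ≤ F :=
      hU (Filter.eventually_ge_atTop _)
    obtain ⟨F, hF1, hF2⟩ := (h1.and (hψ x)).exists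
    rw [← hF2]
    exact hγ F x (hF1 (by simp))
  obtain ⟨φ, hφ⟩ := hLI.exists_aut hFC
  refine ⟨φ, ?_, fun x => ?_⟩
  · rw [hφ]; exact hLI
  · rw [hφ]; exact hR x

end Pool.Agent.Hhelper87.FC
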