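import Mathlib
import Pool.Agent.Hhelper87.FC.Abel
set_option autoImplicit false

namespace Pool.Agent.Hhelper87.FC
open Subgroup

section pure
variable {Y : Type*} [CommGroup Y]

/-- A subgroup which is maximal with trivial intersection with the `m`-th powers is pure. -/
theorem high_pure {m : ℕ} (hm : 0 < m) {X : Subgroup Y}
    (hdis : ∀ x ∈ X, ∀ c : Y, x = c ^ m → x = 1)
    (hmax : ∀ y : Y, y ∉ X → ∃ x ∈ X, ∃ i : ℤ, ∃ c : Y, x * y ^ i = c ^ m ∧ x * y ^ i ≠ 1) :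
    PureS X := by
  intro k
  induction k using Nat.strong_induction_on with
  | _ k ih =>
    rintro hk b hb ⟨a, hab⟩
    have hXm : ∀ x ∈ X, x ^ m = 1 := fun x hx => hdis _ (pow_mem hx m) x rfl
    by_cases hkm : k ∣ m
    · -- k divides m
      by_cases hk1 : k = 1
      · subst hk1
        exact ⟨b, hb, by simp⟩
      obtain ⟨p, hp, k', hk'⟩ := Nat.exists_prime_and_dvd hk1
      have hk'pos : 0 < k' := by
        rcases Nat.eq_zero_or_pos k' with h | h
        · rw [h] at hk'; omega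
        · exact h
      have hk'lt : k' < k := by
        rw [hk']
        calc k' = 1 * k' := (one_mul _).symm
          _ < p * k' := Nat.mul_lt_mul_of_pos_right hp.one_lt hk'pos
      set w := a ^ k' with hw
      have hwp : w ^ p = b := by rw [hw, ← pow_mul, mul_comm k' p, ← hk', hab]
      by_cases hwX : w ∈ X
      · obtain ⟨x, hx, hxk⟩ := ih k' hk'lt hk'pos w hwX ⟨a, rfl⟩
        refine ⟨x, hx, ?_⟩
        rw [hk', mul_comm, pow_mul, hxk, hwp]
      · obtain ⟨x, hx, i, c, hc, hne⟩ := hmax w hwX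
        have hpi : ¬ (p : ℤ) ∣ i := by
          rintro ⟨t, rfl⟩
          apply hne
          have h1 : x * w ^ ((p : ℤ) * t) ∈ X := by
            rw [zpow_mul, zpow_natCast, hwp]
            exact mul_mem hx (zpow_mem hb t)
          exact hdis _ h1 c hc
        have hcop : IsCoprime i (p : ℤ) := by
          rw [Int.isCoprime_iff_gcd_eq_one, Int.gcd_comm]
          have := (Nat.Prime.coprime_iff_not_dvd hp (n := i.natAbs)).mpr (by
            rwa [← Int.natCast_dvd])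
          simpa [Int.gcd] using this
        obtain ⟨u, v, huv⟩ := hcop
        have hwi : w ^ i = x⁻¹ * c ^ m := by rw [← hc]; group
        have hw2 : w = (x⁻¹ * c ^ m) ^ u * b ^ v := by
          calc w = w ^ (u * i + v * (p : ℤ)) := by rw [huv, zpow_one]
            _ = (w ^ i) ^ u * (w ^ p) ^ v := by
              rw [zpow_add, mul_comm u i, zpow_mul, mul_comm v (p : ℤ), zpow_mul, zpow_natCast]
            _ = _ := by rw [hwi, hwp]
        set x' := (x⁻¹) ^ u * b ^ v with hx'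
        have hx'X : x' ∈ X := mul_mem (zpow_mem (inv_mem hx) u) (zpow_mem hb v)
        have hw3 : w = x' * (c ^ u) ^ m := by
          rw [hw2, hx', mul_zpow, ← zpow_natCast (c ^ u), ← zpow_mul, mul_comm u, zpow_mul,
            zpow_natCast, mul_assoc, mul_comm _ (b ^ v), ← mul_assoc]
        obtain ⟨m1, hm1⟩ : k' ∣ m := (Dvd.intro_left p hk'.symm).trans hkm
        have hx'k : (a * ((c ^ u) ^ m1)⁻¹) ^ k' = x' := by
          rw [mul_pow, inv_pow, ← pow_mul, mul_comm m1, ← hm1, ← hw, hw3]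
          exact mul_inv_cancel_right _ _
        obtain ⟨x2, hx2, hx2k⟩ := ih k' hk'lt hk'pos x' hx'X ⟨_, hx'k⟩
        refine ⟨x2, hx2, ?_⟩
        have h1 : b = x2 ^ k * ((c ^ u) ^ p) ^ m := by
          rw [← hwp, hw3, mul_pow, ← hx2k, ← pow_mul, mul_comm k' p, ← hk', ← pow_mul, ← pow_mul,
            mul_comm m p]
        have h2 : ((c ^ u) ^ p) ^ m = (x2 ^ k)⁻¹ * b := by rw [h1]; group
        have h3 : ((c ^ u) ^ p) ^ m ∈ X := by
          rw [h2]
          exact mul_mem (inv_mem (pow_mem hx2 k)) hb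
        have h4 := hdis _ h3 _ rfl
        rw [h4, mul_one] at h1
        exact h1.symm
    · -- some prime power divides k but not m
      rw [Nat.dvd_iff_prime_pow_dvd_dvd] at hkm
      push Not at hkm
      obtain ⟨p, j, hp, hjk, hjm⟩ := hkm
      obtain ⟨J, k1, hk1, hkJ⟩ := Nat.exists_eq_pow_mul_and_not_dvd hk.ne' p hp.ne_one
      obtain ⟨v, m1, hm1, hmv⟩ := Nat.exists_eq_pow_mul_and_not_dvd hm.ne' p hp.ne_one
      have hjJ : j ≤ J := by
        by_contra hcon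
        apply hk1
        have : ∃ t, j = J + 1 + t := ⟨j - (J + 1), by omega⟩
        obtain ⟨t, rfl⟩ := this
        rw [hkJ, pow_add, pow_succ, mul_assoc] at hjk
        exact (Dvd.intro _ rfl).trans (Nat.dvd_of_mul_dvd_mul_left (Nat.pow_pos hp.pos) hjk)
      have hvj : v < j := by
        by_contra hcon
        apply hjm
        rw [hmv]
        exact (pow_dvd_pow p (by omega)).mul_right m1
      have hk1pos : 0 < k1 := by
        rcases Nat.eq_zero_or_pos k1 with h | h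
        · rw [h] at hk1; exact absurd (dvd_zero p) hk1
        · exact h
      have hJ0 : 0 < J := by omega
      have hk1lt : k1 < k := by
        rw [hkJ]
        calc k1 = 1 * k1 := (one_mul _).symm
          _ < p ^ J * k1 := Nat.mul_lt_mul_of_pos_right (Nat.one_lt_pow (by omega) hp.one_lt) hk1pos
      have hb1 : b ^ m1 = 1 := by
        apply hdis _ (pow_mem hb m1) (a ^ (p ^ (J - v) * k1))
        rw [← hab, ← pow_mul, ← pow_mul]
        congr 1
        have : p ^ J = p ^ (J - v) * p ^ v := by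
          rw [← pow_add]
          congr 1
          omega
        rw [hkJ, hmv, this]
        ring
      have hcop1 : IsCoprime ((p ^ J : ℕ) : ℤ) (m1 : ℤ) := by
        rw [Nat.isCoprime_iff_coprime]
        exact Nat.Coprime.pow_left _ ((Nat.Prime.coprime_iff_not_dvd hp).mpr hm1)
      obtain ⟨u, w, huw⟩ := hcop1
      set b1 := b ^ u with hb1def
      have hb1X : b1 ∈ X := zpow_mem hb u
      have hb1p : b1 ^ (p ^ J) = b := by
        calc b1 ^ (p ^ J) = b ^ (u * ((p ^ J : ℕ) : ℤ)) := by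
              rw [hb1def, zpow_mul, zpow_natCast]
          _ = b ^ (u * ((p ^ J : ℕ) : ℤ)) * (b ^ m1) ^ w := by rw [hb1]; simp
          _ = b ^ (u * ((p ^ J : ℕ) : ℤ) + w * (m1 : ℤ)) := by
              rw [zpow_add, mul_comm w, zpow_mul b (m1 : ℤ) w, zpow_natCast]
          _ = b := by rw [huw, zpow_one]
      set t := b1 * (a ^ k1)⁻¹ with ht
      have htp : t ^ (p ^ J) = 1 := by
        rw [ht, mul_pow, hb1p, inv_pow, ← pow_mul, mul_comm k1, ← hkJ, hab, mul_inv_cancel]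
      have hcop2 : IsCoprime (k1 : ℤ) ((p ^ J : ℕ) : ℤ) := by
        rw [Nat.isCoprime_iff_coprime]
        exact Nat.Coprime.pow_right _ ((Nat.Prime.coprime_iff_not_dvd hp).mpr hk1).symm
      obtain ⟨u', w', huw'⟩ := hcop2
      have htk : t = (t ^ u') ^ k1 := by
        calc t = t ^ (u' * (k1 : ℤ) + w' * ((p ^ J : ℕ) : ℤ)) := by rw [huw', zpow_one]
          _ = (t ^ u') ^ k1 * (t ^ (p ^ J)) ^ w' := by
              rw [zpow_add, zpow_mul, zpow_natCast, mul_comm w', zpow_mul t, zpow_natCast]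
          _ = (t ^ u') ^ k1 := by rw [htp]; simp
      have hb1k : (a * t ^ u') ^ k1 = b1 := by
        rw [mul_pow, ← htk, ht, mul_comm b1, mul_inv_cancel_left]
      obtain ⟨x, hx, hxk⟩ := ih k1 hk1lt hk1pos b1 hb1X ⟨_, hb1k⟩
      refine ⟨x, hx, ?_⟩
      rw [hkJ, mul_comm, pow_mul, hxk, hb1p]

end pure

section chain
variable {Y : Type*} [CommGroup Y]

theorem exists_max_chain (e : ℕ → ℕ) (hdvd : ∀ n, e n ∣ e (n + 1))
    (Yn : ℕ → Subgroup Y) (hmono : Monotone Yn) (hcov : ∀ y, ∃ n, y ∈ Yn n)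
    (hdis : ∀ n, ∀ x ∈ Yn n, ∀ c : Y, x = c ^ e n → x = 1) :
    ∃ X : ℕ → Subgroup Y, Monotone X ∧ (∀ n, Yn n ≤ X n) ∧
      (∀ n, ∀ x ∈ X n, ∀ c : Y, x = c ^ e n → x = 1) ∧
      (∀ n, ∀ y : Y, y ∉ X n → ∃ x ∈ X n, ∃ i : ℤ, ∃ c : Y,
        x * y ^ i = c ^ e n ∧ x * y ^ i ≠ 1) := by
  classical
  let 𝒞 : Set (ℕ → Subgroup Y) :=
    {X | Monotone X ∧ ∀ n, ∀ x ∈ X n, ∀ c : Y, x = c ^ e n → x = 1}
  obtain ⟨X, hYX, hXmax⟩ := zorn_le_nonempty₀ 𝒞 (by
    intro c hc hchain y hy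
    have hmem : ∀ (n : ℕ) (x : Y), x ∈ (⨆ Z : c, Z.1 n) ↔ ∃ Z ∈ c, x ∈ Z n := by
      intro n x
      have : Nonempty c := ⟨⟨y, hy⟩⟩
      have hdir : Directed (· ≤ ·) (fun Z : c => Z.1 n) := by
        intro Z Z'
        rcases hchain.total Z.2 Z'.2 with h | h
        · exact ⟨Z', h n, le_rfl⟩
        · exact ⟨Z, le_rfl, h n⟩
      rw [mem_iSup_of_directed hdir]
      simp
    refine ⟨fun n => ⨆ Z : c, Z.1 n, ⟨?_, ?_⟩, ?_⟩
    · intro n n' hn
      exact iSup_mono (fun Z => (hc Z.2).1 hn)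
    · intro n x hx c' hxc
      obtain ⟨Z, hZ, hxZ⟩ := (hmem n x).mp hx
      exact (hc hZ).2 n x hxZ c' hxc
    · intro Z hZ n
      exact le_iSup (fun Z : c => Z.1 n) ⟨Z, hZ⟩) Yn ⟨hmono, hdis⟩
  have hX1 : Monotone X := hXmax.prop.1
  have hX2 := hXmax.prop.2
  refine ⟨X, hX1, hYX, hX2, ?_⟩
  by_contra hcon
  push Not at hcon
  obtain ⟨n0, y, hy, hbad⟩ := hcon
  let Bad : ℕ → Prop := fun m => y ∉ X m ∧
    ∀ x ∈ X m, ∀ i : ℤ, ∀ c : Y, x * y ^ i = c ^ e m → x * y ^ i = 1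
  have hBad0 : Bad n0 := ⟨hy, hbad⟩
  have hexm : ∃ m, Bad m ∧ ¬ Bad (m + 1) := by
    by_contra hno
    push Not at hno
    have hall : ∀ t, Bad (n0 + t) := by
      intro t
      induction t with
      | zero => exact hBad0
      | succ t ih => exact hno _ ih
    obtain ⟨M, hM⟩ := hcov y
    exact (hall M).1 (hYX _ (hmono (Nat.le_add_left M n0) hM))
  obtain ⟨m, ⟨hm1, hm2⟩, hm3⟩ := hexm
  -- find y'
  have hy' : ∃ y' : Y, y' ∉ X m ∧ y' ∈ X (m + 1) ∧
      ∀ x ∈ X m, ∀ j : ℤ, ∀ c : Y, x * y' ^ j = c ^ e m → x * y' ^ j = 1 := by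
    by_cases hyX : y ∈ X (m + 1)
    · exact ⟨y, hm1, hyX, hm2⟩
    · have h1 : ∃ x1 ∈ X (m + 1), ∃ i : ℤ, ∃ c : Y, x1 * y ^ i = c ^ e (m + 1) ∧
          x1 * y ^ i ≠ 1 := by
        by_contra h
        push Not at h
        exact hm3 ⟨hyX, h⟩
      obtain ⟨x1, hx1, i, c, hc, hne⟩ := h1
      obtain ⟨q, hq⟩ := hdvd m
      have hy'eq : x1⁻¹ = y ^ i * (c ^ e (m + 1))⁻¹ := by rw [← hc]; group
      have hce : c ^ e (m + 1) = (c ^ q) ^ e m := by rw [hq, ← pow_mul, mul_comm q]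
      refine ⟨x1⁻¹, ?_, inv_mem hx1, ?_⟩
      · intro hin
        apply hne
        have h2 : (x1⁻¹)⁻¹ * y ^ i = (c ^ q) ^ e m := by rw [inv_inv, hc, hce]
        have h3 := hm2 _ (inv_mem hin) i _ h2
        rwa [inv_inv] at h3
      · intro x hx j c' hxc
        have h2 : x * y ^ (i * j) = (c' * (c ^ q) ^ j) ^ e m := by
          have h4 : x * y ^ (i * j) = x * (x1⁻¹) ^ j * (c ^ e (m + 1)) ^ j := by
            rw [hy'eq, mul_zpow, zpow_mul, inv_zpow]
            group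
          have h5 : ((c ^ q) ^ j) ^ e m = (c ^ e (m + 1)) ^ j := by
            rw [hce, ← zpow_natCast, ← zpow_mul, mul_comm j, zpow_mul, zpow_natCast]
          rw [h4, hxc, mul_pow, h5]
        have h3 := hm2 x hx (i * j) _ h2
        have h6 : (c ^ e (m + 1)) ^ j = (x1 ^ j) * x⁻¹ := by
          have h7 : (c ^ e (m + 1)) ^ j = x1 ^ j * y ^ (i * j) := by
            rw [← hc, mul_zpow, zpow_mul]
          have h8 : y ^ (i * j) = x⁻¹ := by
            rw [eq_inv_iff_mul_eq_one, mul_comm]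
            exact h3
          rw [h7, h8]
        have h9 : (c ^ e (m + 1)) ^ j ∈ X (m + 1) := by
          rw [h6]
          exact mul_mem (zpow_mem hx1 j) (inv_mem (hX1 (Nat.le_succ m) hx))
        have h10 : (c ^ e (m + 1)) ^ j = (c ^ j) ^ e (m + 1) := by
          rw [← zpow_natCast, ← zpow_mul, mul_comm, zpow_mul, zpow_natCast]
        have h11 : (c ^ e (m + 1)) ^ j = 1 := hX2 _ _ h9 _ h10
        rw [h6] at h11
        rw [inv_zpow]
        rw [mul_inv_eq_one] at h11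
        rw [h11, mul_inv_cancel]
  obtain ⟨y', hy1, hy2, hy3⟩ := hy'
  let X' : ℕ → Subgroup Y := fun n => if n = m then X m ⊔ zpowers y' else X n
  have hX'm : X' m = X m ⊔ zpowers y' := if_pos rfl
  have hX'n : ∀ n, n ≠ m → X' n = X n := fun n hn => if_neg hn
  have hXX' : X ≤ X' := by
    intro n
    by_cases hn : n = m
    · subst hn; rw [hX'm]; exact le_sup_left
    · rw [hX'n n hn]
  have hX'C : X' ∈ 𝒞 := by
    constructor
    · apply monotone_nat_of_le_succ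
      intro n
      by_cases hn : n = m
      · subst hn
        rw [hX'm, hX'n (n + 1) (by omega)]
        exact sup_le (hX1 (Nat.le_succ n)) (by rw [zpowers_le]; exact hy2)
      · rw [hX'n n hn]
        exact (hX1 (Nat.le_succ n)).trans (hXX' (n + 1))
    · intro n x hx c hxc
      by_cases hn : n = m
      · subst hn
        rw [hX'm] at hx
        obtain ⟨x0, hx0, z, hz, rfl⟩ := mem_sup.mp hx
        obtain ⟨j, rfl⟩ := mem_zpowers_iff.mp hz
        exact hy3 x0 hx0 j c hxc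
      · rw [hX'n n hn] at hx
        exact hX2 n x hx c hxc
  have h1 := hXmax.le_of_ge hX'C hXX'
  have h2 : y' ∈ X m := by
    apply h1 m
    rw [hX'm]
    exact mem_sup_right (mem_zpowers y')
  exact hy1 h2

end chain

section compl
variable {A : Type*} [CommGroup A]

/-- Pure subgroups with bounded quotient have complements. -/
theorem bounded_complement (htor : ∀ a : A, IsOfFinOrder a) {B : Subgroup A} (hpure : PureS B)
    {m : ℕ} (hm : 0 < m) (hB : ∀ a : A, a ^ m ∈ B) : ∃ H : Subgroup A, B ⊓ H = ⊥ ∧ B ⊔ H = ⊤ := by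
  classical
  have hsep : ∀ B' : Subgroup A, B ≤ B' → SepS B' := by
    intro B' hBB' z hz
    refine ⟨m, hm, ?_⟩
    intro c hc y hzc
    apply hz
    rw [hzc]
    exact mul_mem hc (hBB' (hB y))
  let 𝒞 : Set (Subgroup A) := {H | B ⊓ H = ⊥ ∧ PureS (B ⊔ H)}
  have h0 : (⊥ : Subgroup A) ∈ 𝒞 := ⟨by simp, by simpa using hpure⟩
  obtain ⟨H, -, hHmax⟩ := zorn_le_nonempty₀ 𝒞 (by
    intro c hc hchain y hy
    have hne : c.Nonempty := ⟨y, hy⟩
    have hdir : DirectedOn (· ≤ ·) c := hchain.directedOn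
    refine ⟨sSup c, ⟨?_, ?_⟩, fun Z hZ => le_sSup hZ⟩
    · rw [eq_bot_iff]
      rintro x ⟨hx1, hx2⟩
      obtain ⟨Z, hZ, hxZ⟩ := (mem_sSup_of_directedOn hne hdir).mp hx2
      rw [← (hc hZ).1]
      exact ⟨hx1, hxZ⟩
    · intro k hk b hb hy
      obtain ⟨b0, hb0, z, hz, rfl⟩ := mem_sup.mp hb
      obtain ⟨Z, hZ, hzZ⟩ := (mem_sSup_of_directedOn hne hdir).mp hz
      obtain ⟨b', hb', hb'k⟩ := (hc hZ).2 k hk (b0 * z) (mul_mem_sup hb0 hzZ) hy
      exact ⟨b', sup_le_sup_left (le_sSup hZ) B hb', hb'k⟩) ⊥ h0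
  have hH1 := hHmax.prop.1
  have hH2 := hHmax.prop.2
  refine ⟨H, hH1, ?_⟩
  rw [eq_top_iff]
  intro a _
  by_contra ha
  obtain ⟨n, hn, han⟩ := isOfFinOrder_iff_pow_eq_one.mp (htor a)
  obtain ⟨K, hK1, hK2, hK3, -⟩ := abel_add hH2 (hsep _ le_sup_left) hn (a := a)
    (by rw [han]; exact one_mem _)
  have hHK : H ⊔ K ∈ 𝒞 := ⟨inf_sup_bot hH1 hK1, by rw [← sup_assoc]; exact hK3⟩
  have h1 := hHmax.le_of_ge hHK le_sup_left
  apply ha
  have h2 : B ⊔ (H ⊔ K) ≤ B ⊔ H := sup_le_sup_left h1 B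
  apply h2
  rw [← sup_assoc]
  exact hK2

theorem bounded_complement_rel (htor : ∀ a : A, IsOfFinOrder a) {B B' : Subgroup A}
    (hBB' : B ≤ B') (hpure : PureS B) {m : ℕ} (hm : 0 < m) (hB : ∀ a ∈ B', a ^ m ∈ B) :
    ∃ K : Subgroup A, B ⊓ K = ⊥ ∧ B ⊔ K = B' := by
  have hpure' : PureS (B.subgroupOf B') := by
    rintro k hk b hb ⟨y, hy⟩
    obtain ⟨b', hb', hb'k⟩ := hpure k hk (b : A) hb ⟨(y : A), by rw [← hy]; rfl⟩
    exact ⟨⟨b', hBB' hb'⟩, hb', Subtype.ext hb'k⟩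
  have htor' : ∀ a : B', IsOfFinOrder a := by
    intro a
    rw [← Submonoid.isOfFinOrder_coe (H := B'.toSubmonoid)]
    exact htor _
  obtain ⟨H, hH1, hH2⟩ := bounded_complement htor' hpure' hm (fun a => hB a a.2)
  refine ⟨H.map B'.subtype, ?_, ?_⟩
  · rw [eq_bot_iff]
    rintro _ ⟨hx1, x, hx, rfl⟩
    have h1 : x ∈ B.subgroupOf B' ⊓ H := ⟨hx1, hx⟩
    rw [hH1, mem_bot] at h1
    rw [h1]
    exact one_mem _
  · apply le_antisymm
    · apply sup_le hBB'
      rintro _ ⟨x, hx, rfl⟩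
      exact x.2
    · intro x hx
      have h1 : (⟨x, hx⟩ : B') ∈ B.subgroupOf B' ⊔ H := by rw [hH2]; exact mem_top _
      obtain ⟨b, hb, h, hh, hbh⟩ := mem_sup.mp h1
      have h2 : x = (b : A) * (h : A) := by
        have := congrArg Subtype.val hbh
        exact this.symm
      rw [h2]
      exact mul_mem_sup hb ⟨h, hh, rfl⟩

theorem kulikov_complement (htor : ∀ a : A, IsOfFinOrder a) {B : Subgroup A} (hpure : PureS B)
    (An : ℕ → Subgroup A) (hmono : Monotone An) (hcov : ∀ a, ∃ n, a ∈ An n)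
    (e : ℕ → ℕ) (he : ∀ n, 0 < e n)
    (hsep : ∀ n, ∀ z ∈ An n, ∀ c ∈ B, ∀ y : A, z = c * y ^ e n → z ∈ B) :
    ∃ H : Subgroup A, B ⊓ H = ⊥ ∧ B ⊔ H = ⊤ := by
  classical
  -- make the exponents divide each other
  let e' : ℕ → ℕ := fun n => ∏ i ∈ Finset.range (n + 1), e i
  have he' : ∀ n, 0 < e' n := fun n => Finset.prod_pos (fun i _ => he i)
  have hdvd : ∀ n, e' n ∣ e' (n + 1) := by
    intro n
    change _ ∣ ∏ i ∈ Finset.range (n + 1 + 1), e i
    rw [Finset.prod_range_succ]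
    exact Dvd.intro _ rfl
  have hee' : ∀ n, e n ∣ e' n := fun n =>
    Finset.dvd_prod_of_mem _ (Finset.mem_range.mpr (Nat.lt_succ_self n))
  let Yn : ℕ → Subgroup (A ⧸ B) := fun n => (An n).map (QuotientGroup.mk' B)
  have hYmono : Monotone Yn := fun n n' hn => map_mono (hmono hn)
  have hYcov : ∀ y : A ⧸ B, ∃ n, y ∈ Yn n := by
    intro y
    obtain ⟨a, rfl⟩ := QuotientGroup.mk_surjective y
    obtain ⟨n, hn⟩ := hcov a
    exact ⟨n, a, hn, rfl⟩
  have hYdis : ∀ n, ∀ x ∈ Yn n, ∀ c : A ⧸ B, x = c ^ e' n → x = 1 := by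
    rintro n _ ⟨z, hz, rfl⟩ c hc
    obtain ⟨q, hq⟩ := hee' n
    obtain ⟨y, rfl⟩ := QuotientGroup.mk_surjective c
    have h1 : ((z : A) : A ⧸ B) = (((y ^ q) ^ e n : A) : A ⧸ B) := by
      rw [← pow_mul, mul_comm q, ← hq]
      exact hc
    have h2 := QuotientGroup.eq.mp h1.symm
    have h3 : z ∈ B := hsep n z hz _ h2 (y ^ q) (by
      rw [mul_comm ((y ^ q) ^ e n)⁻¹, mul_assoc, inv_mul_cancel, mul_one])
    exact (QuotientGroup.eq_one_iff _).mpr h3
  obtain ⟨X, hX1, hX2, hX3, hX4⟩ := exists_max_chain e' hdvd Yn hYmono hYcov hYdis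
  have hXpure : ∀ n, PureS (X n) := fun n => high_pure (he' n) (hX3 n) (hX4 n)
  let Bn : ℕ → Subgroup A := fun n => (X n).comap (QuotientGroup.mk' B)
  have hBn : ∀ n z, z ∈ Bn n ↔ ((z : A) : A ⧸ B) ∈ X n := fun n z => Iff.rfl
  have hBBn : ∀ n, B ≤ Bn n := by
    intro n z hz
    rw [hBn, (QuotientGroup.eq_one_iff _).mpr hz]
    exact one_mem _
  have hBnmono : Monotone Bn := fun n n' hn => comap_mono (hX1 hn)
  have hBncov : ∀ a, ∃ n, a ∈ Bn n := by
    intro a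
    obtain ⟨n, hn⟩ := hYcov (a : A ⧸ B)
    exact ⟨n, hX2 n hn⟩
  have hBnpure : ∀ n, PureS (Bn n) := by
    rintro n k hk b hb ⟨y, hy⟩
    obtain ⟨x, hx, hxk⟩ := hXpure n k hk _ ((hBn n b).mp hb) ⟨(y : A ⧸ B), by rw [← hy]; rfl⟩
    obtain ⟨x, rfl⟩ := QuotientGroup.mk_surjective x
    have h1 : (y * x⁻¹) ^ k ∈ B := by
      rw [← QuotientGroup.eq_one_iff]
      have h2 : (((y * x⁻¹) ^ k : A) : A ⧸ B) = (y : A ⧸ B) ^ k * ((x : A ⧸ B) ^ k)⁻¹ := by
        rw [mul_pow, inv_pow]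
        rfl
      rw [h2, hxk, ← hy]
      exact mul_inv_cancel _
    obtain ⟨b0, hb0, hb0k⟩ := hpure k hk _ h1 ⟨_, rfl⟩
    refine ⟨b0 * x, mul_mem (hBBn n hb0) hx, ?_⟩
    rw [mul_pow, hb0k, ← mul_pow, inv_mul_cancel_right, hy]
  have hBnexp : ∀ n, ∀ a ∈ Bn n, a ^ e' n ∈ B := by
    intro n a ha
    rw [← QuotientGroup.eq_one_iff]
    exact hX3 n _ (pow_mem ha (e' n)) (a : A ⧸ B) rfl
  obtain ⟨K0, hK01, hK02⟩ := bounded_complement_rel htor (hBBn 0) hpure (he' 0) (hBnexp 0)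
  have hK : ∀ n, ∃ K : Subgroup A, Bn n ⊓ K = ⊥ ∧ Bn n ⊔ K = Bn (n + 1) := fun n =>
    bounded_complement_rel htor (hBnmono (Nat.le_succ n)) (hBnpure n) (he' (n + 1))
      (fun a ha => hBBn n (hBnexp (n + 1) a ha))
  choose K hK1 hK2 using hK
  obtain ⟨Hn, hH0, hHs⟩ : ∃ Hn : ℕ → Subgroup A, Hn 0 = K0 ∧ ∀ n, Hn (n + 1) = Hn n ⊔ K n :=
    ⟨fun n => Nat.rec (motive := fun _ => Subgroup A) K0 (fun n H => H ⊔ K n) n, rfl,
      fun _ => rfl⟩
  have hHn : ∀ n, B ⊓ Hn n = ⊥ ∧ B ⊔ Hn n = Bn n := by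
    intro n
    induction n with
    | zero => rw [hH0]; exact ⟨hK01, hK02⟩
    | succ n ih =>
      rw [hHs]
      refine ⟨inf_sup_bot ih.1 (by rw [ih.2]; exact hK1 n), ?_⟩
      rw [← sup_assoc, ih.2, hK2]
  have hHmono : Monotone Hn := by
    apply monotone_nat_of_le_succ
    intro n
    rw [hHs]
    exact le_sup_left
  have hdir : Directed (· ≤ ·) Hn := hHmono.directed_le
  refine ⟨⨆ n, Hn n, ?_, ?_⟩
  · rw [eq_bot_iff]
    rintro x ⟨hx1, hx2⟩
    obtain ⟨n, hn⟩ := (mem_iSup_of_directed hdir).mp hx2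
    rw [← (hHn n).1]
    exact ⟨hx1, hn⟩
  · rw [eq_top_iff]
    intro x _
    obtain ⟨n, hn⟩ := hBncov x
    rw [← (hHn n).2] at hn
    exact (sup_le_sup_left (le_iSup Hn n) B) hn

end compl

end Pool.Agent.Hhelper87.FC
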