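import Mathlib
import Pool.Agent.Hhelper87.FC.NE
import Pool.Agent.Hhelper87.FC.Abel
import Pool.Agent.Hhelper87.FC.Kulikov
set_option autoImplicit false

namespace Pool.Agent.Hhelper87.FC
open Subgroup
open scoped IsMulCommutative

variable {G : Type*} [Group G]

/-- Choice of separating normal subgroups and of test sets. -/
structure Dat (G : Type*) [Group G] where
  NE : Subgroup G → Subgroup G
  FE : Subgroup G → Finset G
  normal : ∀ E, FN E → (NE E).Normal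
  inf : ∀ E, FN E → NE E ⊓ E = ⊥
  rel : ∀ E, FN E → (NE E).relIndex (_root_.commutator G) ≠ 0
  fe : ∀ E, FN E → ∀ ψ : G → G, LI ψ →
    (∀ x ∈ FE E, ∀ g, g * (ψ x * x⁻¹) * g⁻¹ * (ψ x * x⁻¹)⁻¹ ∈ NE E) →
    ∀ x g, g * (ψ x * x⁻¹) * g⁻¹ * (ψ x * x⁻¹)⁻¹ ∈ NE E

theorem exists_dat (hX : ResX G) : Nonempty (Dat G) := by
  classical
  have h1 : ∀ E : Subgroup G, ∃ N : Subgroup G, FN E → N.Normal ∧ N ⊓ E = ⊥ ∧
      N.relIndex (_root_.commutator G) ≠ 0 := by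
    intro E
    by_cases hE : FN E
    · obtain ⟨N, hN⟩ := exists_NE hX hE
      exact ⟨N, fun _ => hN⟩
    · exact ⟨⊥, fun h => absurd h hE⟩
  choose NE hNE using h1
  have h2 : ∀ E : Subgroup G, ∃ F : Finset G, FN E → ∀ ψ : G → G, LI ψ →
      (∀ x ∈ F, ∀ g, g * (ψ x * x⁻¹) * g⁻¹ * (ψ x * x⁻¹)⁻¹ ∈ NE E) →
      ∀ x g, g * (ψ x * x⁻¹) * g⁻¹ * (ψ x * x⁻¹)⁻¹ ∈ NE E := by
    intro E
    by_cases hE : FN E
    · obtain ⟨hn, -, hr⟩ := hNE E hE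
      obtain ⟨F, hF⟩ := exists_FE (NE E) hr
      refine ⟨F, fun _ ψ hψ h x => ?_⟩
      have := hF ψ hψ (fun x hx => mem_ZN.mpr (h x hx)) x
      exact mem_ZN.mp this
    · exact ⟨∅, fun h => absurd h hE⟩
  choose FE hFE using h2
  exact ⟨⟨NE, FE, fun E hE => (hNE E hE).1, fun E hE => (hNE E hE).2.1,
    fun E hE => (hNE E hE).2.2, hFE⟩⟩

/-- Local-global alternative relative to a pair. -/
def Good (GM : Set G) (QM : Set (MulAut G)) (R : G → Set G) : Prop :=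
  (∃ φ ∈ QM, ∀ x, φ x ∈ R x) ∨
    (∃ F : Finset G, (F : Set G) ⊆ GM ∧ ¬ ∃ g : G, ∀ x ∈ F, g * x * g⁻¹ ∈ R x)

/-- first type of demand -/
def R1 (E : Subgroup G) (F0 : Finset G) (g' : G) (x : G) : Set G :=
  {y | y * x⁻¹ ∈ E ∧ (x ∈ F0 → y = g' * x * g'⁻¹)}

/-- second type of demand -/
def R2 (Dt : Dat G) (E : Subgroup G) (m : MulAut G) (x : G) : Set G :=
  {y | y * x⁻¹ ∈ E ∧ y * (m x)⁻¹ ∈ Dt.NE E}

/-- third type of demand -/
def R3 (E : Subgroup G) (m : MulAut G) (k : ℕ) (x : G) : Set G :=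
  {y | y * x⁻¹ ∈ E ∧ y * x⁻¹ ∈ center G ∧ (y * x⁻¹) ^ k = m x * x⁻¹}

/-- The subgroup generated by the `e`-th powers of the elements of the derived subgroup. -/
def PW (G : Type*) [Group G] (e : ℕ) : Subgroup G :=
  closure {b | ∃ a ∈ _root_.commutator G, a ^ e = b}

/-- fourth type of demand -/
def R4 (E : Subgroup G) (m : MulAut G) (e : ℕ) (x : G) : Set G :=
  {y | y * x⁻¹ ∈ E ∧ y * (m x)⁻¹ ∈ PW G e}

/-- A closed pair. -/
structure ClosedPair (Dt : Dat G) (GM : Subgroup G) (QM : Subgroup (MulAut G)) : Prop where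
  QM_le : QM ≤ Qh G
  bstar : ∀ F0 : Finset G, (F0 : Set G) ⊆ GM → ∀ g : G, ∃ g' ∈ GM, ∀ x ∈ F0,
    g * x * g⁻¹ = g' * x * g'⁻¹
  conj : ∀ x ∈ GM, MulAut.conj x ∈ QM
  cfn : ∀ F : Finset G, (F : Set G) ⊆ GM → (∃ E0 : Subgroup G, FN E0 ∧ (F : Set G) ⊆ E0) →
    ∃ E : Subgroup G, FN E ∧ (F : Set G) ⊆ E ∧ E ≤ GM
  dsep : ∀ φ ∈ QM, (∀ x ∈ GM, φ x = x) → φ = 1
  enorm : ∀ φ ∈ QM, ∀ ψ ∈ Qh G, ψ * φ * ψ⁻¹ ∈ QM
  ffe : ∀ E, FN E → E ≤ GM → (Dt.FE E : Set G) ⊆ GM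
  g1 : ∀ E, FN E → E ≤ GM → ∀ F0 : Finset G, (F0 : Set G) ⊆ GM → ∀ g' ∈ GM,
    Good (GM : Set G) QM (R1 E F0 g')
  g2 : ∀ E, FN E → E ≤ GM → ∀ m ∈ QM, Good (GM : Set G) QM (R2 Dt E m)
  g3 : ∀ E, FN E → E ≤ GM → ∀ m ∈ QM, ∀ k : ℕ, Good (GM : Set G) QM (R3 E m k)
  g4 : ∀ E, FN E → E ≤ GM → ∀ m ∈ QM, ∀ e : ℕ, Good (GM : Set G) QM (R4 E m e)

theorem Good.use {GM : Set G} {QM : Set (MulAut G)} {R : G → Set G} (h : Good GM QM R)
    {ψ : G → G} (hψ : LI ψ) (hR : ∀ x ∈ GM, ψ x ∈ R x) : ∃ φ ∈ QM, ∀ x, φ x ∈ R x := by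
  rcases h with h | ⟨F, hF, hno⟩
  · exact h
  · exfalso
    apply hno
    obtain ⟨g, hg⟩ := hψ F
    refine ⟨g, fun x hx => ?_⟩
    rw [← hg x hx]
    exact hR x (hF hx)

/-- elements of `P'` with central displacement on `GM`. -/
def Cp (GM : Subgroup G) (P' : Subgroup (MulAut G)) (hP' : P' ≤ Qh G) :
    Subgroup (MulAut G) where
  carrier := {φ | φ ∈ P' ∧ ∀ x ∈ GM, φ x * x⁻¹ ∈ center G}
  one_mem' := ⟨one_mem _, fun x _ => by simp [one_mem]⟩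
  mul_mem' := by
    rintro φ ψ ⟨h1, h2⟩ ⟨h3, h4⟩
    refine ⟨mul_mem h1 h3, fun x hx => ?_⟩
    have h5 : φ (ψ x * x⁻¹) = ψ x * x⁻¹ := (LI_of_mem_Qh (hP' h1)).center (h4 x hx)
    have h6 : (φ * ψ) x * x⁻¹ = φ (ψ x * x⁻¹) * (φ x * x⁻¹) := by
      rw [MulAut.mul_apply, map_mul, map_inv]
      group
    rw [h6, h5]
    exact mul_mem (h4 x hx) (h2 x hx)
  inv_mem' := by
    rintro φ ⟨h1, h2⟩
    refine ⟨inv_mem h1, fun x hx => ?_⟩
    have h3 := (LI_inv (LI_of_mem_Qh (hP' h1))).center (h2 x hx)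
    rw [map_mul, map_inv, MulAut.inv_apply_self] at h3
    have h4 : (φ⁻¹ : MulAut G) x * x⁻¹ = (φ x * x⁻¹)⁻¹ := by
      rw [← h3]
      group
    rw [h4]
    exact inv_mem (h2 x hx)

/-- The displacement homomorphism. -/
noncomputable def theta (GM : Subgroup G) (P' : Subgroup (MulAut G)) (hP' : P' ≤ Qh G) :
    Cp GM P' hP' →* (GM → center G) :=
  MonoidHom.mk' (fun φ x => ⟨(φ : MulAut G) (x : G) * (x : G)⁻¹, φ.2.2 x x.2⟩) (by
    intro φ ψ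
    ext x
    have h5 : (φ : MulAut G) ((ψ : MulAut G) x * (x : G)⁻¹) = (ψ : MulAut G) x * (x : G)⁻¹ :=
      (LI_of_mem_Qh (hP' φ.2.1)).center (ψ.2.2 x x.2)
    have h6 : ((φ : MulAut G) * (ψ : MulAut G)) (x : G) * (x : G)⁻¹
        = (φ : MulAut G) ((ψ : MulAut G) (x : G) * (x : G)⁻¹) *
          ((φ : MulAut G) (x : G) * (x : G)⁻¹) := by
      rw [MulAut.mul_apply, map_mul, map_inv]
      group
    have h7 := mem_center_iff.mp (ψ.2.2 x x.2) ((φ : MulAut G) (x : G) * (x : G)⁻¹)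
    change ((φ : MulAut G) * (ψ : MulAut G)) (x : G) * (x : G)⁻¹
      = ((φ : MulAut G) (x : G) * (x : G)⁻¹) * ((ψ : MulAut G) (x : G) * (x : G)⁻¹)
    rw [h6, h5, h7])

theorem theta_apply {GM : Subgroup G} {P' : Subgroup (MulAut G)} {hP' : P' ≤ Qh G}
    (φ : Cp GM P' hP') (x : GM) :
    ((theta GM P' hP' φ x : center G) : G) = (φ : MulAut G) (x : G) * (x : G)⁻¹ := rfl

variable {Dt : Dat G} {GM : Subgroup G} {QM : Subgroup (MulAut G)}

theorem ClosedPair.LI_mem (M : ClosedPair Dt GM QM) {ψ : G → G} (hψ : LI ψ) {x : G}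
    (hx : x ∈ GM) : ψ x ∈ GM := by
  classical
  obtain ⟨g, hg⟩ := hψ {x}
  obtain ⟨g', hg', h⟩ := M.bstar {x} (by simpa using hx) g
  rw [hg x (by simp), h x (by simp)]
  exact mul_mem (mul_mem hg' hx) (inv_mem hg')

/-- The displacement of an element of `Qh` on `GM` lies in a finite normal subgroup inside `GM`. -/
theorem ClosedPair.exists_E (M : ClosedPair Dt GM QM) {ψ : MulAut G} (hψ : ψ ∈ Qh G) :
    ∃ E : Subgroup G, FN E ∧ E ≤ GM ∧ ∀ x ∈ GM, ψ x * x⁻¹ ∈ E := by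
  classical
  obtain ⟨E0, hE0, h1⟩ := hψ
  have hfin : ((E0 : Set G) ∩ GM).Finite := hE0.2.subset Set.inter_subset_left
  obtain ⟨E, hE, h2, h3⟩ := M.cfn hfin.toFinset (by simp) ⟨E0, hE0, by simp⟩
  refine ⟨E, hE, h3, fun x hx => ?_⟩
  apply h2
  simp only [Set.Finite.coe_toFinset]
  exact ⟨h1.2 x, mul_mem (M.LI_mem h1.1 hx) (inv_mem hx)⟩

theorem ClosedPair.factor (M : ClosedPair Dt GM QM) {P' : Subgroup (MulAut G)}
    (hP' : P' ≤ Qh G) (hQP : QM ≤ P') {ψ : MulAut G} (hψ : ψ ∈ P') :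
    ∃ φ ∈ QM, φ⁻¹ * ψ ∈ Cp GM P' hP' := by
  classical
  obtain ⟨E, hE, hEM, h1⟩ := M.exists_E (hP' hψ)
  have hψLI := LI_of_mem_Qh (hP' hψ)
  obtain ⟨g, hg⟩ := hψLI (Dt.FE E)
  have hFM := M.ffe E hE hEM
  obtain ⟨g', hg'M, hg'⟩ := M.bstar (Dt.FE E) hFM g
  obtain ⟨φ, hφ, h2⟩ := (M.g1 E hE hEM (Dt.FE E) hFM g' hg'M).use hψLI (by
    intro x hx
    refine ⟨h1 x hx, fun hxF => ?_⟩
    rw [hg x hxF, hg' x hxF])
  refine ⟨φ, hφ, mul_mem (inv_mem (hQP hφ)) hψ, fun x hx => ?_⟩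
  have hφLI : LI (φ⁻¹ : MulAut G) := LI_inv (LI_of_mem_Qh (hP' (hQP hφ)))
  have hφD : φ ∈ D E := ⟨LI_of_mem_Qh (hP' (hQP hφ)), fun x => (h2 x).1⟩
  have hφD' := inv_mem hφD
  have hχE : (φ⁻¹ * ψ) x * x⁻¹ ∈ E := by
    have h3 : (φ⁻¹ * ψ) x * x⁻¹ = ((φ⁻¹ : MulAut G) (ψ x * x⁻¹)) *
        ((φ⁻¹ : MulAut G) x * x⁻¹) := by
      rw [MulAut.mul_apply, map_mul, map_inv]
      group
    rw [h3]
    exact mul_mem (hφLI.mem_normal hE.1 (h1 x hx)) (hφD'.2 x)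
  have hχLI : LI (φ⁻¹ * ψ : MulAut G) := hφLI.comp hψLI
  have h4 : ∀ x ∈ Dt.FE E, (φ⁻¹ * ψ) x * x⁻¹ = 1 := by
    intro x hxF
    have h5 := (h2 x).2 hxF
    have h6 : ψ x = φ x := by rw [h5, hg x hxF, hg' x hxF]
    rw [MulAut.mul_apply, h6, MulAut.inv_apply_self, mul_inv_cancel]
  have h7 := Dt.fe E hE _ hχLI (by
    intro x hxF g
    rw [h4 x hxF]
    simp [one_mem]) x
  have hn := Dt.normal E hE
  exact inter_ZN_le_center hE.1 (Dt.inf E hE) hχE (mem_ZN.mpr h7)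

theorem PW_normal (e : ℕ) : (PW G e).Normal := by
  have h : normalClosure {b : G | ∃ a ∈ _root_.commutator G, a ^ e = b} = PW G e := by
    change Subgroup.closure (Group.conjugatesOfSet _) = Subgroup.closure _
    congr 1
    ext y
    rw [Group.mem_conjugatesOfSet_iff]
    constructor
    · rintro ⟨s, ⟨a, ha, rfl⟩, hc⟩
      obtain ⟨c, rfl⟩ := isConj_iff.mp hc
      refine ⟨c * a * c⁻¹, (inferInstance : (_root_.commutator G).Normal).conj_mem a ha c, ?_⟩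
      rw [conj_pow]
    · intro hy
      exact ⟨y, hy, IsConj.refl y⟩
  rw [← h]
  infer_instance

theorem pow_mem_PW {a : G} (ha : a ∈ _root_.commutator G) (e : ℕ) : a ^ e ∈ PW G e :=
  subset_closure ⟨a, ha, rfl⟩

theorem displacement_mem_commutator {ψ : G → G} (hψ : LI ψ) (x : G) :
    ψ x * x⁻¹ ∈ _root_.commutator G := by
  classical
  obtain ⟨g, hg⟩ := hψ {x}
  rw [hg x (by simp), commutator_def]
  exact commutator_mem_commutator (mem_top g) (mem_top x)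

/-- The part of the displacement range coming from `QM`. -/
noncomputable def BB (GM : Subgroup G) (QM P' : Subgroup (MulAut G)) (hP' : P' ≤ Qh G) :
    Subgroup (theta GM P' hP').range :=
  (QM.subgroupOf (Cp GM P' hP')).map (theta GM P' hP').rangeRestrict

theorem mem_BB {GM : Subgroup G} {QM P' : Subgroup (MulAut G)} {hP' : P' ≤ Qh G}
    {z : (theta GM P' hP').range} : z ∈ BB GM QM P' hP' ↔
      ∃ φ : Cp GM P' hP', (φ : MulAut G) ∈ QM ∧ (theta GM P' hP').rangeRestrict φ = z := by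
  constructor
  · rintro ⟨φ, hφ, h⟩
    exact ⟨φ, hφ, h⟩
  · rintro ⟨φ, hφ, h⟩
    exact ⟨φ, hφ, h⟩

theorem torsion_range {GM : Subgroup G} {P' : Subgroup (MulAut G)} {hP' : P' ≤ Qh G}
    (a : (theta GM P' hP').range) : IsOfFinOrder a := by
  obtain ⟨φ, rfl⟩ := MonoidHom.rangeRestrict_surjective _ a
  apply MonoidHom.isOfFinOrder
  exact torsion_of_le_Qh (K := Cp GM P' hP') (fun φ hφ => hP' hφ.1) φ

theorem theta_ext {GM : Subgroup G} {P' : Subgroup (MulAut G)} {hP' : P' ≤ Qh G}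
    (φ χ : Cp GM P' hP') (h : ∀ x ∈ GM, (φ : MulAut G) x = (χ : MulAut G) x) :
    (theta GM P' hP').rangeRestrict φ = (theta GM P' hP').rangeRestrict χ := by
  apply Subtype.ext
  funext x
  apply Subtype.ext
  have h1 := theta_apply φ x
  have h2 := theta_apply χ x
  rw [h x x.2] at h1
  exact h1.trans h2.symm

theorem ClosedPair.pureBB (M : ClosedPair Dt GM QM) {P' : Subgroup (MulAut G)}
    (hP' : P' ≤ Qh G) (hQP : QM ≤ P') : PureS (BB GM QM P' hP') := by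
  rintro k hk b hb ⟨y, hy⟩
  obtain ⟨φ, hφ, rfl⟩ := mem_BB.mp hb
  obtain ⟨χ, rfl⟩ := MonoidHom.rangeRestrict_surjective _ y
  obtain ⟨E, hE, hEM, h1⟩ := M.exists_E (hP' χ.2.1)
  obtain ⟨ρ, hρ, h2⟩ := (M.g3 E hE hEM φ hφ k).use (LI_of_mem_Qh (hP' χ.2.1)) (by
    intro x hx
    refine ⟨h1 x hx, χ.2.2 x hx, ?_⟩
    have h3 := congrArg (fun t : (theta GM P' hP').range => ((t.1 ⟨x, hx⟩ : center G) : G)) hy
    exact h3)
  have hρC : ρ ∈ Cp GM P' hP' := ⟨hQP hρ, fun x _ => (h2 x).2.1⟩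
  refine ⟨(theta GM P' hP').rangeRestrict ⟨ρ, hρC⟩, mem_BB.mpr ⟨⟨ρ, hρC⟩, hρ, rfl⟩, ?_⟩
  apply Subtype.ext
  funext x
  apply Subtype.ext
  exact (h2 x).2.2

theorem decomp_core (M : ClosedPair Dt GM QM) {P' : Subgroup (MulAut G)}
    (hP' : P' ≤ Qh G) (hQP : QM ≤ P') {H : Subgroup (theta GM P' hP').range}
    (hH1 : BB GM QM P' hP' ⊓ H = ⊥) (hH2 : BB GM QM P' hP' ⊔ H = ⊤) :
    ∃ L : Subgroup (MulAut G), L ≤ P' ∧ QM ⊓ L = ⊥ ∧ (∀ ψ ∈ P', ∃ φ ∈ QM, ∃ l ∈ L, ψ = φ * l) ∧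
      ∀ p ∈ QM, ∀ l ∈ L, l * p = p * l := by
  classical
  set C := Cp GM P' hP' with hC
  let θ : C →* (theta GM P' hP').range := (theta GM P' hP').rangeRestrict
  have hB : ∀ z, z ∈ BB GM QM P' hP' ↔ ∃ φ : C, (φ : MulAut G) ∈ QM ∧ θ φ = z :=
    fun z => mem_BB
  let L : Subgroup (MulAut G) := (H.comap θ).map C.subtype
  have hL : ∀ l, l ∈ L ↔ ∃ φ : C, θ φ ∈ H ∧ (φ : MulAut G) = l := by
    intro l
    constructor
    · rintro ⟨φ, hφ, h⟩
      exact ⟨φ, hφ, h⟩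
    · rintro ⟨φ, hφ, h⟩
      exact ⟨φ, hφ, h⟩
  have hLP : L ≤ P' := by
    intro l hl
    obtain ⟨φ, -, rfl⟩ := (hL l).mp hl
    exact φ.2.1
  refine ⟨L, hLP, ?_, ?_, ?_⟩
  · rw [eq_bot_iff]
    rintro φ ⟨hφ1, hφ2⟩
    obtain ⟨χ, hχ, rfl⟩ := (hL φ).mp hφ2
    have h1 : θ χ ∈ BB GM QM P' hP' ⊓ H := ⟨(hB _).mpr ⟨χ, hφ1, rfl⟩, hχ⟩
    rw [hH1, mem_bot] at h1
    rw [mem_bot]
    apply M.dsep _ hφ1
    intro x hx
    have h2 := congrArg (fun t : (theta GM P' hP').range => ((t.1 ⟨x, hx⟩ : center G) : G)) h1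
    have h3 : (χ : MulAut G) x * x⁻¹ = 1 := h2
    exact mul_inv_eq_one.mp h3
  · intro ψ hψ
    obtain ⟨φ, hφ, h1⟩ := M.factor hP' hQP hψ
    have h2 : θ ⟨φ⁻¹ * ψ, h1⟩ ∈ BB GM QM P' hP' ⊔ H := by rw [hH2]; exact mem_top _
    obtain ⟨b, hb, h, hh, hbh⟩ := mem_sup.mp h2
    obtain ⟨φ0, hφ0, rfl⟩ := (hB b).mp hb
    refine ⟨φ * φ0, mul_mem hφ hφ0, (φ0 : MulAut G)⁻¹ * (φ⁻¹ * ψ), ?_, by group⟩
    rw [hL]
    refine ⟨φ0⁻¹ * ⟨φ⁻¹ * ψ, h1⟩, ?_, rfl⟩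
    rw [map_mul, map_inv, ← hbh]
    simpa using hh
  · intro p hp l hl
    obtain ⟨χ, -, rfl⟩ := (hL l).mp hl
    have hχQ : (χ : MulAut G) ∈ Qh G := hP' χ.2.1
    have hpLI := LI_of_mem_Qh (M.QM_le hp)
    have hχLI := LI_of_mem_Qh hχQ
    -- commutation on GM
    have h1 : ∀ x ∈ GM, (χ : MulAut G) (p x) = p ((χ : MulAut G) x) := by
      intro x hx
      have h2 : p ((χ : MulAut G) x) = ((χ : MulAut G) x * x⁻¹) * p x := by
        have h3 : (χ : MulAut G) x = ((χ : MulAut G) x * x⁻¹) * x := by group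
        conv_lhs => rw [h3, map_mul, hpLI.center (χ.2.2 x hx)]
      obtain ⟨g, hg⟩ := hpLI {x}
      obtain ⟨g', hg'M, hg'⟩ := M.bstar {x} (by simpa using hx) g
      have h4 : p x = g' * x * g'⁻¹ := by rw [hg x (by simp), hg' x (by simp)]
      have h5 := mem_center_iff.mp (χ.2.2 g' hg'M)
      have h6 := mem_center_iff.mp (χ.2.2 x hx)
      rw [h2, h4, map_mul, map_mul, map_inv]
      have e1 : (χ : MulAut G) g' = ((χ : MulAut G) g' * g'⁻¹) * g' := by group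
      have e2 : (χ : MulAut G) x = ((χ : MulAut G) x * x⁻¹) * x := by group
      set u := (χ : MulAut G) g' * g'⁻¹ with hu
      set v := (χ : MulAut G) x * x⁻¹ with hv
      rw [e1, e2]
      calc u * g' * (v * x) * (u * g')⁻¹ = u * (g' * v * x * g'⁻¹) * u⁻¹ := by group
        _ = (g' * v * x * g'⁻¹) * u * u⁻¹ := by rw [h5]
        _ = (g' * v) * x * g'⁻¹ := by group
        _ = (v * g') * x * g'⁻¹ := by rw [h6]
        _ = v * (g' * x * g'⁻¹) := by group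
    have h2 : (χ : MulAut G) * p * (χ : MulAut G)⁻¹ * p⁻¹ = 1 := by
      apply M.dsep
      · exact mul_mem (M.enorm p hp χ hχQ) (inv_mem hp)
      · intro x hx
        have hx1 : (p⁻¹ : MulAut G) x ∈ GM := M.LI_mem (LI_inv hpLI) hx
        have hx2 : ((χ : MulAut G)⁻¹ : MulAut G) ((p⁻¹ : MulAut G) x) ∈ GM :=
          M.LI_mem (LI_inv hχLI) hx1
        change (χ : MulAut G) (p (((χ : MulAut G)⁻¹ : MulAut G) ((p⁻¹ : MulAut G) x))) = x
        rw [h1 _ hx2, MulAut.apply_inv_self, MulAut.apply_inv_self]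
    calc (χ : MulAut G) * p = ((χ : MulAut G) * p * (χ : MulAut G)⁻¹ * p⁻¹) *
          (p * (χ : MulAut G)) := by group
      _ = p * χ := by rw [h2, one_mul]

theorem decomp (M : ClosedPair Dt GM QM) {P' : Subgroup (MulAut G)}
    (hP' : P' ≤ Qh G) (hQP : QM ≤ P') (hcount : Countable P') :
    ∃ L : Subgroup (MulAut G), L ≤ P' ∧ QM ⊓ L = ⊥ ∧ (∀ ψ ∈ P', ∃ φ ∈ QM, ∃ l ∈ L, ψ = φ * l) ∧
      ∀ p ∈ QM, ∀ l ∈ L, l * p = p * l := by
  classical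
  have hCP : Cp GM P' hP' ≤ P' := fun φ hφ => hφ.1
  have hCcount : Countable (Cp GM P' hP') := by
    have : Function.Injective (Subgroup.inclusion hCP) := Subgroup.inclusion_injective hCP
    exact this.countable
  have hA : Countable (theta GM P' hP').range :=
    (MonoidHom.rangeRestrict_surjective (theta GM P' hP')).countable
  have hpure := M.pureBB hP' hQP
  have hsep : SepS (BB GM QM P' hP') := by
    intro z hz
    obtain ⟨χ, rfl⟩ := MonoidHom.rangeRestrict_surjective _ z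
    obtain ⟨E, hE, hEM, h1⟩ := M.exists_E (hP' χ.2.1)
    have hNn := Dt.normal E hE
    refine ⟨(Dt.NE E).relIndex (_root_.commutator G), Nat.pos_of_ne_zero (Dt.rel E hE), ?_⟩
    intro c hc y hzc
    apply hz
    obtain ⟨φ, hφ, rfl⟩ := mem_BB.mp hc
    obtain ⟨ρ, rfl⟩ := MonoidHom.rangeRestrict_surjective _ y
    have h2 : ∀ x ∈ GM, (χ : MulAut G) x * ((φ : MulAut G) x)⁻¹ ∈ Dt.NE E := by
      intro x hx
      have h3 := congrArg (fun t : (theta GM P' hP').range => ((t.1 ⟨x, hx⟩ : center G) : G)) hzc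
      have h4 : (χ : MulAut G) x * x⁻¹ = ((φ : MulAut G) x * x⁻¹) *
          ((ρ : MulAut G) x * x⁻¹) ^ ((Dt.NE E).relIndex (_root_.commutator G)) := h3
      have h5 := displacement_mem_commutator (LI_of_mem_Qh (hP' ρ.2.1)) x
      have h6 := pow_relIndex_mem (N := Dt.NE E) h5
      have h7 : (χ : MulAut G) x * ((φ : MulAut G) x)⁻¹
          = ((φ : MulAut G) x * x⁻¹) *
          ((ρ : MulAut G) x * x⁻¹) ^ ((Dt.NE E).relIndex (_root_.commutator G)) *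
          ((φ : MulAut G) x * x⁻¹)⁻¹ := by
        rw [← h4]
        group
      rw [h7]
      exact hNn.conj_mem _ h6 _
    obtain ⟨τ, hτ, h3⟩ := (M.g2 E hE hEM φ hφ).use (LI_of_mem_Qh (hP' χ.2.1)) (by
      intro x hx
      exact ⟨h1 x hx, h2 x hx⟩)
    have h4 : ∀ x ∈ GM, τ x = (χ : MulAut G) x := by
      intro x hx
      have h5 : τ x * ((χ : MulAut G) x)⁻¹ ∈ E := by
        have := mul_mem (h3 x).1 (inv_mem (h1 x hx))
        convert this using 1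
        group
      have h6 : τ x * ((χ : MulAut G) x)⁻¹ ∈ Dt.NE E := by
        have := mul_mem (h3 x).2 (inv_mem (h2 x hx))
        convert this using 1
        group
      have h7 : τ x * ((χ : MulAut G) x)⁻¹ ∈ Dt.NE E ⊓ E := ⟨h6, h5⟩
      rw [Dt.inf E hE, mem_bot] at h7
      exact mul_inv_eq_one.mp h7
    have hτC : τ ∈ Cp GM P' hP' := by
      refine ⟨hQP hτ, fun x hx => ?_⟩
      rw [h4 x hx]
      exact χ.2.2 x hx
    exact mem_BB.mpr ⟨⟨τ, hτC⟩, hτ, theta_ext _ _ h4⟩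
  obtain ⟨H, hH1, hH2⟩ := abel_complement torsion_range hpure hsep
  exact decomp_core M hP' hQP hH1 hH2

/-- Decomposition under a Kulikov type condition, without cardinality restrictions. -/
theorem decomp_kulikov (M : ClosedPair Dt GM QM) {P' : Subgroup (MulAut G)}
    (hP' : P' ≤ Qh G) (hQP : QM ≤ P') (T : ℕ → Subgroup G) (hTn : ∀ n, (T n).Normal)
    (hTmono : Monotone T) (hTcov : ∀ g ∈ _root_.commutator G, ∃ n, g ∈ T n) (e : ℕ → ℕ)
    (he : ∀ n, 0 < e n) (hTe : ∀ n, T n ⊓ PW G (e n) = ⊥) :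
    ∃ L : Subgroup (MulAut G), L ≤ P' ∧ QM ⊓ L = ⊥ ∧ (∀ ψ ∈ P', ∃ φ ∈ QM, ∃ l ∈ L, ψ = φ * l) ∧
      ∀ p ∈ QM, ∀ l ∈ L, l * p = p * l := by
  classical
  have hpure := M.pureBB hP' hQP
  let An : ℕ → Subgroup (theta GM P' hP').range := fun n =>
    { carrier := {z | ∀ x : GM, ((z.1 x : center G) : G) ∈ T n}
      one_mem' := fun x => one_mem _
      mul_mem' := fun {a b} ha hb x => mul_mem (ha x) (hb x)
      inv_mem' := fun {a} ha x => inv_mem (ha x) }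
  have hAn : ∀ n z, z ∈ An n ↔ ∀ x : GM, ((z.1 x : center G) : G) ∈ T n := fun n z => Iff.rfl
  have hAmono : Monotone An := fun n n' hn z hz x => hTmono hn (hz x)
  have hAcov : ∀ z, ∃ n, z ∈ An n := by
    intro z
    obtain ⟨χ, rfl⟩ := MonoidHom.rangeRestrict_surjective _ z
    obtain ⟨E, hE, hχE⟩ := hP' χ.2.1
    have h1 : ∀ g : G, g ∈ hE.2.toFinset → ∃ n, g ∈ _root_.commutator G → g ∈ T n := by
      intro g _
      by_cases hg : g ∈ _root_.commutator G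
      · obtain ⟨n, hn⟩ := hTcov g hg
        exact ⟨n, fun _ => hn⟩
      · exact ⟨0, fun h => absurd h hg⟩
    choose! f hf using h1
    refine ⟨hE.2.toFinset.sup f, fun x => ?_⟩
    have h2 : (χ : MulAut G) (x : G) * (x : G)⁻¹ ∈ E := hχE.2 _
    have h3 : (χ : MulAut G) (x : G) * (x : G)⁻¹ ∈ hE.2.toFinset := hE.2.mem_toFinset.mpr h2
    have h4 := hf _ h3 (displacement_mem_commutator hχE.1 _)
    exact hTmono (Finset.le_sup h3) h4
  have hsep : ∀ n, ∀ z ∈ An n, ∀ c ∈ BB GM QM P' hP', ∀ y, z = c * y ^ e n →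
      z ∈ BB GM QM P' hP' := by
    intro n z hz c hc y hzc
    obtain ⟨χ, rfl⟩ := MonoidHom.rangeRestrict_surjective _ z
    obtain ⟨E0, hE0, hE0M, h10⟩ := M.exists_E (hP' χ.2.1)
    have hPWn := PW_normal (G := G) (e n)
    have hTnn := hTn n
    have hE0n := hE0.1
    let E : Subgroup G := E0 ⊓ T n
    have hE : FN E := ⟨inferInstance, hE0.2.subset Set.inter_subset_left⟩
    have hEM : E ≤ GM := inf_le_left.trans hE0M
    have h1 : ∀ x ∈ GM, (χ : MulAut G) x * x⁻¹ ∈ E := fun x hx => ⟨h10 x hx, hz ⟨x, hx⟩⟩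
    obtain ⟨φ, hφ, rfl⟩ := mem_BB.mp hc
    obtain ⟨ρ, rfl⟩ := MonoidHom.rangeRestrict_surjective _ y
    have h2 : ∀ x ∈ GM, (χ : MulAut G) x * ((φ : MulAut G) x)⁻¹ ∈ PW G (e n) := by
      intro x hx
      have h3 := congrArg (fun t : (theta GM P' hP').range => ((t.1 ⟨x, hx⟩ : center G) : G)) hzc
      have h4 : (χ : MulAut G) x * x⁻¹ = ((φ : MulAut G) x * x⁻¹) *
          ((ρ : MulAut G) x * x⁻¹) ^ (e n) := h3
      have h5 := displacement_mem_commutator (LI_of_mem_Qh (hP' ρ.2.1)) x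
      have h6 := pow_mem_PW h5 (e n)
      have h7 : (χ : MulAut G) x * ((φ : MulAut G) x)⁻¹
          = ((φ : MulAut G) x * x⁻¹) *
          ((ρ : MulAut G) x * x⁻¹) ^ (e n) * ((φ : MulAut G) x * x⁻¹)⁻¹ := by
        rw [← h4]
        group
      rw [h7]
      exact hPWn.conj_mem _ h6 _
    obtain ⟨τ, hτ, h3⟩ := (M.g4 E hE hEM φ hφ (e n)).use (LI_of_mem_Qh (hP' χ.2.1)) (by
      intro x hx
      exact ⟨h1 x hx, h2 x hx⟩)
    have h4 : ∀ x ∈ GM, τ x = (χ : MulAut G) x := by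
      intro x hx
      have h5 : τ x * ((χ : MulAut G) x)⁻¹ ∈ E := by
        have := mul_mem (h3 x).1 (inv_mem (h1 x hx))
        convert this using 1
        group
      have h6 : τ x * ((χ : MulAut G) x)⁻¹ ∈ PW G (e n) := by
        have := mul_mem (h3 x).2 (inv_mem (h2 x hx))
        convert this using 1
        group
      have h7 : τ x * ((χ : MulAut G) x)⁻¹ ∈ T n ⊓ PW G (e n) := ⟨h5.2, h6⟩
      rw [hTe n, mem_bot] at h7
      exact mul_inv_eq_one.mp h7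
    have hτC : τ ∈ Cp GM P' hP' := by
      refine ⟨hQP hτ, fun x hx => ?_⟩
      rw [h4 x hx]
      exact χ.2.2 x hx
    exact mem_BB.mpr ⟨⟨τ, hτC⟩, hτ, theta_ext _ _ h4⟩
  obtain ⟨H, hH1, hH2⟩ := kulikov_complement torsion_range hpure An hAmono hAcov e he hsep
  exact decomp_core M hP' hQP hH1 hH2

end Pool.Agent.Hhelper87.FC
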