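import Mathlib
import Pool.Agent.Hhelper87.FC.Closure
import Pool.Agent.Hhelper87.FC.Compact
import Pool.Agent.Hhelper87.FC.Decomp
set_option autoImplicit false

namespace Pool.Agent.Hhelper87.FC
open Subgroup

section
variable {U : Type*}

theorem Req.params {Pm : Type*} (inF : Finset U → Set Pm) (hc : ∀ F, (inF F).Countable)
    (W : Pm → Set U → Prop) (mono : ∀ p T T', T ⊆ T' → W p T → W p T')
    (wit : ∀ p, ∃ T : Set U, T.Countable ∧ W p T) : Req (fun F T => ∀ p ∈ inF F, W p T) where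
  mono F T T' hT h p hp := mono p T T' hT (h p hp)
  wit F := by
    choose T hT1 hT2 using wit
    refine ⟨⋃ p ∈ inF F, T p, (hc F).biUnion (fun p _ => hT1 p), fun p hp => ?_⟩
    exact mono p _ _ (Set.subset_biUnion_of_mem (u := T) hp) (hT2 p)

end

variable {G : Type*} [Group G]

theorem finite_inl (F : Finset (G ⊕ MulAut G)) :
    {x : G | (Sum.inl x : G ⊕ MulAut G) ∈ F}.Finite :=
  F.finite_toSet.preimage (Sum.inl_injective.injOn)

theorem finite_inr (F : Finset (G ⊕ MulAut G)) :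
    {φ : MulAut G | (Sum.inr φ : G ⊕ MulAut G) ∈ F}.Finite :=
  F.finite_toSet.preimage (Sum.inr_injective.injOn)

theorem finite_inSub (F : Finset (G ⊕ MulAut G)) :
    {E : Subgroup G | ∀ x ∈ E, (Sum.inl x : G ⊕ MulAut G) ∈ F}.Finite := by
  have h1 := (finite_inl F).finite_subsets
  refine (h1.preimage (f := fun E : Subgroup G => (E : Set G)) SetLike.coe_injective.injOn).subset ?_
  intro E hE
  exact fun x hx => hE x hx

theorem finite_inFin (F : Finset (G ⊕ MulAut G)) :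
    {F0 : Finset G | ∀ x ∈ F0, (Sum.inl x : G ⊕ MulAut G) ∈ F}.Finite := by
  have h1 := (finite_inl F).finite_subsets
  refine (h1.preimage (f := fun E : Finset G => (E : Set G)) Finset.coe_injective.injOn).subset ?_
  intro E hE
  exact fun x hx => hE x hx

/-- alternative, version for sets `T` in `G ⊕ MulAut G`. -/
def Good' (T : Set (G ⊕ MulAut G)) (R : G → Set G) : Prop :=
  (∃ φ : MulAut G, φ ∈ Qh G ∧ Sum.inr φ ∈ T ∧ ∀ x, φ x ∈ R x) ∨
    (∃ F : Finset G, (∀ x ∈ F, Sum.inl x ∈ T) ∧ ¬ ∃ g : G, ∀ x ∈ F, g * x * g⁻¹ ∈ R x)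

theorem Good'.mono {T T' : Set (G ⊕ MulAut G)} (hT : T ⊆ T') {R : G → Set G} (h : Good' T R) :
    Good' T' R := by
  rcases h with ⟨φ, h1, h2, h3⟩ | ⟨F, h1, h2⟩
  · exact Or.inl ⟨φ, h1, hT h2, h3⟩
  · exact Or.inr ⟨F, fun x hx => hT (h1 x hx), h2⟩

theorem exists_good' (hFC : IsFC G) {E : Subgroup G} (hE : FN E) (R : G → Set G)
    (hR : ∀ x, ∀ y ∈ R x, y * x⁻¹ ∈ E) : ∃ T : Set (G ⊕ MulAut G), T.Countable ∧ Good' T R := by
  by_cases h : ∀ F : Finset G, ∃ g : G, ∀ x ∈ F, g * x * g⁻¹ ∈ R x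
  · obtain ⟨φ, h1, h2⟩ := compactness hFC R h
    refine ⟨{Sum.inr φ}, Set.countable_singleton _, Or.inl ⟨φ, ?_, rfl, h2⟩⟩
    exact ⟨E, hE, h1, fun x => hR x _ (h2 x)⟩
  · push Not at h
    obtain ⟨F, hF⟩ := h
    refine ⟨Sum.inl '' (F : Set G), F.countable_toSet.image _, Or.inr ⟨F, ?_, ?_⟩⟩
    · exact fun x hx => ⟨x, hx, rfl⟩
    · rintro ⟨g, hg⟩
      obtain ⟨x, hx, h⟩ := hF g
      exact h (hg x hx)

theorem exists_bstar (hFC : IsFC G) (F0 : Finset G) :
    ∃ T : Set (G ⊕ MulAut G), T.Countable ∧ ∀ g : G, ∃ g' : G, Sum.inl g' ∈ T ∧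
      ∀ x ∈ F0, g * x * g⁻¹ = g' * x * g'⁻¹ := by
  classical
  have hfin : ∀ x : F0, Finite (conjugatesOf (x : G)) := fun x => (hFC x).to_subtype
  let f : G → (∀ x : F0, conjugatesOf (x : G)) :=
    fun g x => ⟨g * x * g⁻¹, conj_mem_conjugatesOf g x⟩
  have hrange : Finite (Set.range f) := (Set.toFinite (Set.range f)).to_subtype
  refine ⟨Set.range (fun t : Set.range f => (Sum.inl (Classical.choose t.2) : G ⊕ MulAut G)),
    Set.countable_range _, fun g => ?_⟩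
  refine ⟨Classical.choose (⟨g, rfl⟩ : ∃ y, f y = f g), ⟨⟨f g, g, rfl⟩, rfl⟩, fun x hx => ?_⟩
  have h1 := Classical.choose_spec (⟨g, rfl⟩ : ∃ y, f y = f g)
  have h2 := congrArg Subtype.val (congrFun h1 ⟨x, hx⟩)
  exact h2.symm

theorem exists_cl_pair (hFC : IsFC G) (Dt : Dat G) :
    ∃ cl : Set (G ⊕ MulAut G) → Set (G ⊕ MulAut G),
      (∀ S, S ⊆ cl S) ∧ (∀ S S', S ⊆ S' → cl S ⊆ cl S') ∧
      (∀ S, S.Countable → (cl S).Countable) ∧
      (∀ S x, x ∈ cl S → ∃ F : Finset (G ⊕ MulAut G), (F : Set (G ⊕ MulAut G)) ⊆ S ∧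
        x ∈ cl (F : Set (G ⊕ MulAut G))) ∧
      (∀ S, ∃ (GM : Subgroup G) (QM : Subgroup (MulAut G)),
        (∀ x, x ∈ GM ↔ Sum.inl x ∈ cl S) ∧ (∀ φ, φ ∈ QM ↔ φ ∈ Qh G ∧ Sum.inr φ ∈ cl S) ∧
        ClosedPair Dt GM QM) := by
  classical
  -- the requirements
  have r1 : Req (fun (F : Finset (G ⊕ MulAut G)) (T : Set (G ⊕ MulAut G)) =>
      ∀ p ∈ ({x : G | (Sum.inl x : G ⊕ MulAut G) ∈ F} ×ˢ {x : G | (Sum.inl x : G ⊕ MulAut G) ∈ F}),
        Sum.inl (p.1 * p.2) ∈ T) :=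
    Req.params _ (fun F => ((finite_inl F).prod (finite_inl F)).countable) _
      (fun p T T' hT h => hT h) (fun p => ⟨{_}, Set.countable_singleton _, rfl⟩)
  have r2 : Req (fun (F : Finset (G ⊕ MulAut G)) (T : Set (G ⊕ MulAut G)) =>
      ∀ p ∈ {x : G | (Sum.inl x : G ⊕ MulAut G) ∈ F},
        (Sum.inl p⁻¹ ∈ T ∧ Sum.inr (MulAut.conj p) ∈ T)) :=
    Req.params _ (fun F => (finite_inl F).countable) _
      (fun p T T' hT h => ⟨hT h.1, hT h.2⟩)
      (fun p => ⟨{_, _}, (Set.toFinite _).countable, Or.inl rfl, Or.inr rfl⟩)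
  have r3 : Req (fun (_ : Finset (G ⊕ MulAut G)) (T : Set (G ⊕ MulAut G)) =>
      ∀ p ∈ (Set.univ : Set Unit), ((fun _ => (Sum.inl 1 ∈ T ∧ Sum.inr 1 ∈ T)) p)) :=
    Req.params _ (fun F => Set.countable_univ) _
      (fun p T T' hT h => ⟨hT h.1, hT h.2⟩)
      (fun p => ⟨{_, _}, (Set.toFinite _).countable, Or.inl rfl, Or.inr rfl⟩)
  have r4 : Req (fun (F : Finset (G ⊕ MulAut G)) (T : Set (G ⊕ MulAut G)) =>
      ∀ p ∈ ({φ : MulAut G | (Sum.inr φ : G ⊕ MulAut G) ∈ F} ×ˢ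
        {φ : MulAut G | (Sum.inr φ : G ⊕ MulAut G) ∈ F}), Sum.inr (p.1 * p.2) ∈ T) :=
    Req.params _ (fun F => ((finite_inr F).prod (finite_inr F)).countable) _
      (fun p T T' hT h => hT h) (fun p => ⟨{_}, Set.countable_singleton _, rfl⟩)
  have r5 : Req (fun (F : Finset (G ⊕ MulAut G)) (T : Set (G ⊕ MulAut G)) =>
      ∀ φ ∈ {φ : MulAut G | (Sum.inr φ : G ⊕ MulAut G) ∈ F}, Sum.inr (φ⁻¹) ∈ T) :=
    Req.params _ (fun F => (finite_inr F).countable) _
      (fun p T T' hT h => hT h) (fun p => ⟨{_}, Set.countable_singleton _, rfl⟩)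
  have r6 : Req (fun (F : Finset (G ⊕ MulAut G)) (T : Set (G ⊕ MulAut G)) =>
      ∀ F0 ∈ {F0 : Finset G | ∀ x ∈ F0, (Sum.inl x : G ⊕ MulAut G) ∈ F},
        ∀ g : G, ∃ g' : G, Sum.inl g' ∈ T ∧ ∀ x ∈ F0, g * x * g⁻¹ = g' * x * g'⁻¹) :=
    Req.params _ (fun F => (finite_inFin F).countable) _
      (fun p T T' hT h g => by
        obtain ⟨g', h1, h2⟩ := h g
        exact ⟨g', hT h1, h2⟩) (fun F0 => exists_bstar hFC F0)
  have r7 : Req (fun (F : Finset (G ⊕ MulAut G)) (T : Set (G ⊕ MulAut G)) =>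
      ∀ F0 ∈ {F0 : Finset G | ∀ x ∈ F0, (Sum.inl x : G ⊕ MulAut G) ∈ F},
        (∃ E0 : Subgroup G, FN E0 ∧ (F0 : Set G) ⊆ E0) →
          ∃ E : Subgroup G, FN E ∧ (F0 : Set G) ⊆ E ∧ ∀ x ∈ E, Sum.inl x ∈ T) :=
    Req.params _ (fun F => (finite_inFin F).countable) _
      (fun p T T' hT h hE => by
        obtain ⟨E, h1, h2, h3⟩ := h hE
        exact ⟨E, h1, h2, fun x hx => hT (h3 x hx)⟩) (fun F0 => by
        by_cases hE : ∃ E0 : Subgroup G, FN E0 ∧ (F0 : Set G) ⊆ E0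
        · obtain ⟨E, h1, h2⟩ := hE
          exact ⟨Sum.inl '' (E : Set G), (h1.2.countable.image _), fun _ =>
            ⟨E, h1, h2, fun x hx => ⟨x, hx, rfl⟩⟩⟩
        · exact ⟨∅, Set.countable_empty, fun h => absurd h hE⟩)
  have r8 : Req (fun (F : Finset (G ⊕ MulAut G)) (T : Set (G ⊕ MulAut G)) =>
      ∀ φ ∈ {φ : MulAut G | (Sum.inr φ : G ⊕ MulAut G) ∈ F},
        (φ ≠ 1 → ∃ x : G, Sum.inl x ∈ T ∧ φ x ≠ x)) :=
    Req.params _ (fun F => (finite_inr F).countable) _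
      (fun p T T' hT h hp => by
        obtain ⟨x, h1, h2⟩ := h hp
        exact ⟨x, hT h1, h2⟩) (fun φ => by
        by_cases hφ : φ = 1
        · exact ⟨∅, Set.countable_empty, fun h => absurd hφ h⟩
        · have : ∃ x, φ x ≠ x := by
            by_contra hcon
            push Not at hcon
            exact hφ (MulEquiv.ext hcon)
          obtain ⟨x, hx⟩ := this
          exact ⟨{Sum.inl x}, Set.countable_singleton _, fun _ => ⟨x, rfl, hx⟩⟩)
  have r9 : Req (fun (F : Finset (G ⊕ MulAut G)) (T : Set (G ⊕ MulAut G)) =>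
      ∀ φ ∈ {φ : MulAut G | (Sum.inr φ : G ⊕ MulAut G) ∈ F},
        (φ ∈ Qh G → ∀ ψ ∈ Qh G, Sum.inr (ψ * φ * ψ⁻¹) ∈ T)) :=
    Req.params _ (fun F => (finite_inr F).countable) _
      (fun p T T' hT h hp ψ hψ => hT (h hp ψ hψ)) (fun φ => by
        by_cases hφ : φ ∈ Qh G
        · refine ⟨Sum.inr '' {χ : MulAut G | ∃ ψ : MulAut G, LI ψ ∧ χ = ψ * φ * ψ⁻¹},
            (finite_conj_set hφ).countable.image _, fun _ ψ hψ => ?_⟩
          exact ⟨_, ⟨ψ, LI_of_mem_Qh hψ, rfl⟩, rfl⟩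
        · exact ⟨∅, Set.countable_empty, fun h => absurd h hφ⟩)
  have r10 : Req (fun (F : Finset (G ⊕ MulAut G)) (T : Set (G ⊕ MulAut G)) =>
      ∀ E ∈ {E : Subgroup G | ∀ x ∈ E, (Sum.inl x : G ⊕ MulAut G) ∈ F},
        (∀ x ∈ Dt.FE E, Sum.inl x ∈ T)) :=
    Req.params _ (fun F => (finite_inSub F).countable) _
      (fun p T T' hT h x hx => hT (h x hx)) (fun E => by
        exact ⟨Sum.inl '' (Dt.FE E : Set G), (Finset.countable_toSet _).image _,
          fun x hx => ⟨x, hx, rfl⟩⟩)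
  have r11 : Req (fun (F : Finset (G ⊕ MulAut G)) (T : Set (G ⊕ MulAut G)) =>
      ∀ p ∈ ({E : Subgroup G | ∀ x ∈ E, (Sum.inl x : G ⊕ MulAut G) ∈ F} ×ˢ
        ({F0 : Finset G | ∀ x ∈ F0, (Sum.inl x : G ⊕ MulAut G) ∈ F} ×ˢ
        {x : G | (Sum.inl x : G ⊕ MulAut G) ∈ F})),
        (FN p.1 → Good' T (R1 p.1 p.2.1 p.2.2))) :=
    Req.params _ (fun F => ((finite_inSub F).prod ((finite_inFin F).prod
      (finite_inl F))).countable) _
      (fun p T T' hT h hp => (h hp).mono hT) (fun p => by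
        by_cases hE : FN p.1
        · obtain ⟨T, h1, h2⟩ := exists_good' hFC hE (R1 p.1 p.2.1 p.2.2) (fun x y hy => hy.1)
          exact ⟨T, h1, fun _ => h2⟩
        · exact ⟨∅, Set.countable_empty, fun h => absurd h hE⟩)
  have r12 : Req (fun (F : Finset (G ⊕ MulAut G)) (T : Set (G ⊕ MulAut G)) =>
      ∀ p ∈ ({E : Subgroup G | ∀ x ∈ E, (Sum.inl x : G ⊕ MulAut G) ∈ F} ×ˢ
        {φ : MulAut G | (Sum.inr φ : G ⊕ MulAut G) ∈ F}),
        (FN p.1 → Good' T (R2 Dt p.1 p.2))) :=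
    Req.params _ (fun F => ((finite_inSub F).prod (finite_inr F)).countable) _
      (fun p T T' hT h hp => (h hp).mono hT) (fun p => by
        by_cases hE : FN p.1
        · obtain ⟨T, h1, h2⟩ := exists_good' hFC hE (R2 Dt p.1 p.2) (fun x y hy => hy.1)
          exact ⟨T, h1, fun _ => h2⟩
        · exact ⟨∅, Set.countable_empty, fun h => absurd h hE⟩)
  have r13 : Req (fun (F : Finset (G ⊕ MulAut G)) (T : Set (G ⊕ MulAut G)) =>
      ∀ p ∈ ({E : Subgroup G | ∀ x ∈ E, (Sum.inl x : G ⊕ MulAut G) ∈ F} ×ˢ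
        ({φ : MulAut G | (Sum.inr φ : G ⊕ MulAut G) ∈ F} ×ˢ (Set.univ : Set ℕ))),
        (FN p.1 → Good' T (R3 p.1 p.2.1 p.2.2))) :=
    Req.params _ (fun F => ((finite_inSub F).countable.prod ((finite_inr F).countable.prod
      Set.countable_univ))) _
      (fun p T T' hT h hp => (h hp).mono hT) (fun p => by
        by_cases hE : FN p.1
        · obtain ⟨T, h1, h2⟩ := exists_good' hFC hE (R3 p.1 p.2.1 p.2.2) (fun x y hy => hy.1)
          exact ⟨T, h1, fun _ => h2⟩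
        · exact ⟨∅, Set.countable_empty, fun h => absurd h hE⟩)
  have r14 : Req (fun (F : Finset (G ⊕ MulAut G)) (T : Set (G ⊕ MulAut G)) =>
      ∀ p ∈ ({E : Subgroup G | ∀ x ∈ E, (Sum.inl x : G ⊕ MulAut G) ∈ F} ×ˢ
        ({φ : MulAut G | (Sum.inr φ : G ⊕ MulAut G) ∈ F} ×ˢ (Set.univ : Set ℕ))),
        (FN p.1 → Good' T (R4 p.1 p.2.1 p.2.2))) :=
    Req.params _ (fun F => ((finite_inSub F).countable.prod ((finite_inr F).countable.prod
      Set.countable_univ))) _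
      (fun p T T' hT h hp => (h hp).mono hT) (fun p => by
        by_cases hE : FN p.1
        · obtain ⟨T, h1, h2⟩ := exists_good' hFC hE (R4 p.1 p.2.1 p.2.2) (fun x y hy => hy.1)
          exact ⟨T, h1, fun _ => h2⟩
        · exact ⟨∅, Set.countable_empty, fun h => absurd h hE⟩)
  have hreq := ((((((((((((r1.and r2).and r3).and r4).and r5).and r6).and r7).and r8).and r9).and
    r10).and r11).and r12).and r13).and r14
  obtain ⟨cl, hcl1, hcl2, hcl3, hcl4, hcl5⟩ := exists_cl hreq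
  refine ⟨cl, hcl1, hcl2, hcl4, hcl5, fun S => ?_⟩
  have hS := hcl3 S
  -- unfold closedness
  have c1 := fun F hF => (hS F hF).1.1.1.1.1.1.1.1.1.1.1.1.1
  have c2 := fun F hF => (hS F hF).1.1.1.1.1.1.1.1.1.1.1.1.2
  have c3 := fun F hF => (hS F hF).1.1.1.1.1.1.1.1.1.1.1.2
  have c4 := fun F hF => (hS F hF).1.1.1.1.1.1.1.1.1.1.2
  have c5 := fun F hF => (hS F hF).1.1.1.1.1.1.1.1.1.2
  have c6 := fun F hF => (hS F hF).1.1.1.1.1.1.1.1.2
  have c7 := fun F hF => (hS F hF).1.1.1.1.1.1.1.2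
  have c8 := fun F hF => (hS F hF).1.1.1.1.1.1.2
  have c9 := fun F hF => (hS F hF).1.1.1.1.1.2
  have c10 := fun F hF => (hS F hF).1.1.1.1.2
  have c11 := fun F hF => (hS F hF).1.1.1.2
  have c12 := fun F hF => (hS F hF).1.1.2
  have c13 := fun F hF => (hS F hF).1.2
  have c14 := fun F hF => (hS F hF).2
  let GM : Subgroup G :=
    { carrier := {x | Sum.inl x ∈ cl S}
      mul_mem' := by
        intro x y hx hy
        have hx' : Sum.inl x ∈ cl S := hx
        have hy' : Sum.inl y ∈ cl S := hy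
        refine c1 {Sum.inl x, Sum.inl y} ?_ (x, y) ?_
        · intro z hz
          rcases Finset.mem_insert.mp (Finset.mem_coe.mp hz) with h | h
          · rw [h]; exact hx'
          · rw [Finset.mem_singleton.mp h]; exact hy'
        · constructor <;> simp
      one_mem' := (c3 ∅ (by simp) () trivial).1
      inv_mem' := by
        intro x hx
        have hx' : Sum.inl x ∈ cl S := hx
        exact (c2 {Sum.inl x} (by simpa using hx') x (by simp)).1 }
  let QM : Subgroup (MulAut G) :=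
    { carrier := {φ | φ ∈ Qh G ∧ Sum.inr φ ∈ cl S}
      mul_mem' := by
        rintro φ ψ ⟨hφ1, hφ2⟩ ⟨hψ1, hψ2⟩
        refine ⟨mul_mem hφ1 hψ1, ?_⟩
        refine c4 {Sum.inr φ, Sum.inr ψ} ?_ (φ, ψ) ?_
        · intro z hz
          rcases Finset.mem_insert.mp (Finset.mem_coe.mp hz) with h | h
          · rw [h]; exact hφ2
          · rw [Finset.mem_singleton.mp h]; exact hψ2
        · constructor <;> simp
      one_mem' := ⟨one_mem _, (c3 ∅ (by simp) () trivial).2⟩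
      inv_mem' := by
        rintro φ ⟨hφ1, hφ2⟩
        exact ⟨inv_mem hφ1, c5 {Sum.inr φ} (by simpa using hφ2) φ (by simp)⟩ }
  have hGM : ∀ x, x ∈ GM ↔ Sum.inl x ∈ cl S := fun x => Iff.rfl
  have hQM : ∀ φ, φ ∈ QM ↔ φ ∈ Qh G ∧ Sum.inr φ ∈ cl S := fun x => Iff.rfl
  refine ⟨GM, QM, hGM, hQM, ?_⟩
  -- finite sets
  have hfs : ∀ F0 : Finset G, (F0 : Set G) ⊆ GM →
      ((F0.image Sum.inl : Finset (G ⊕ MulAut G)) : Set (G ⊕ MulAut G)) ⊆ cl S := by
    intro F0 hF0 z hz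
    obtain ⟨x, hx, rfl⟩ := Finset.mem_image.mp (Finset.mem_coe.mp hz)
    exact hF0 hx
  have hgood : ∀ R : G → Set G, Good' (cl S) R → Good (GM : Set G) QM R := by
    intro R h
    rcases h with ⟨φ, h1, h2, h3⟩ | ⟨F, h1, h2⟩
    · exact Or.inl ⟨φ, ⟨h1, h2⟩, h3⟩
    · exact Or.inr ⟨F, h1, h2⟩
  refine
    { QM_le := fun φ hφ => hφ.1
      bstar := ?_
      conj := ?_
      cfn := ?_
      dsep := ?_
      enorm := ?_
      ffe := ?_
      g1 := ?_
      g2 := ?_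
      g3 := ?_
      g4 := ?_ }
  · intro F0 hF0 g
    obtain ⟨g', h1, h2⟩ := c6 _ (hfs F0 hF0) F0
      (fun x hx => Finset.mem_image_of_mem _ hx) g
    exact ⟨g', h1, h2⟩
  · intro x hx
    have hx' : Sum.inl x ∈ cl S := hx
    exact ⟨conj_mem_Qh hFC x, (c2 {Sum.inl x} (by simpa using hx') x (by simp)).2⟩
  · intro F0 hF0 hE
    obtain ⟨E, h1, h2, h3⟩ := c7 _ (hfs F0 hF0) F0
      (fun x hx => Finset.mem_image_of_mem _ hx) hE
    exact ⟨E, h1, h2, h3⟩
  · rintro φ ⟨hφ1, hφ2⟩ hfix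
    by_contra hne
    obtain ⟨x, hx, hx2⟩ := c8 {Sum.inr φ} (by simpa using hφ2) φ (by simp) hne
    exact hx2 (hfix x hx)
  · rintro φ ⟨hφ1, hφ2⟩ ψ hψ
    exact ⟨conj_mem_Qh' hφ1 (LI_of_mem_Qh hψ),
      c9 {Sum.inr φ} (by simpa using hφ2) φ (by simp) hφ1 ψ hψ⟩
  · intro E hE hEM x hx
    have h1 := hfs hE.2.toFinset (by simpa using hEM)
    exact c10 _ h1 E (fun x hx => Finset.mem_image_of_mem _ (by simpa using hx)) x hx
  · intro E hE hEM F0 hF0 g' hg'
    apply hgood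
    have h1 := hfs (hE.2.toFinset ∪ F0 ∪ {g'}) (by
      intro z hz
      simp only [Finset.coe_union, Set.Finite.coe_toFinset, Finset.coe_singleton,
        Set.mem_union, Set.mem_singleton_iff] at hz
      rcases hz with (hz | hz) | hz
      · exact hEM hz
      · exact hF0 hz
      · rw [hz]; exact hg')
    refine c11 _ h1 (E, F0, g') ⟨?_, ?_, ?_⟩ hE
    · exact fun x hx => Finset.mem_image_of_mem _ (by simp [show x ∈ E from hx])
    · exact fun x hx => Finset.mem_image_of_mem _ (by simp [show x ∈ F0 from hx])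
    · exact Finset.mem_image_of_mem _ (by simp)
  · intro E hE hEM m hm
    apply hgood
    have h1 := hfs (hE.2.toFinset) (by simpa using hEM)
    refine c12 (hE.2.toFinset.image Sum.inl ∪ {Sum.inr m}) ?_ (E, m) ⟨?_, ?_⟩ hE
    · intro z hz
      rcases Finset.mem_union.mp (Finset.mem_coe.mp hz) with h | h
      · exact h1 h
      · rw [Finset.mem_singleton.mp h]; exact hm.2
    · exact fun x hx => Finset.mem_union_left _ (Finset.mem_image_of_mem _
        (by simpa using hx))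
    · exact Finset.mem_union_right _ (by simp)
  · intro E hE hEM m hm k
    apply hgood
    have h1 := hfs (hE.2.toFinset) (by simpa using hEM)
    refine c13 (hE.2.toFinset.image Sum.inl ∪ {Sum.inr m}) ?_ (E, m, k) ⟨?_, ?_, trivial⟩ hE
    · intro z hz
      rcases Finset.mem_union.mp (Finset.mem_coe.mp hz) with h | h
      · exact h1 h
      · rw [Finset.mem_singleton.mp h]; exact hm.2
    · exact fun x hx => Finset.mem_union_left _ (Finset.mem_image_of_mem _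
        (by simpa using hx))
    · exact Finset.mem_union_right _ (by simp)
  · intro E hE hEM m hm k
    apply hgood
    have h1 := hfs (hE.2.toFinset) (by simpa using hEM)
    refine c14 (hE.2.toFinset.image Sum.inl ∪ {Sum.inr m}) ?_ (E, m, k) ⟨?_, ?_, trivial⟩ hE
    · intro z hz
      rcases Finset.mem_union.mp (Finset.mem_coe.mp hz) with h | h
      · exact h1 h
      · rw [Finset.mem_singleton.mp h]; exact hm.2
    · exact fun x hx => Finset.mem_union_left _ (Finset.mem_image_of_mem _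
        (by simpa using hx))
    · exact Finset.mem_union_right _ (by simp)

end Pool.Agent.Hhelper87.FC
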