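import Mathlib
import Pool.Agent.Hhelper87.FC.Reqs
import Pool.Agent.Hhelper87.FC.Assembly
set_option autoImplicit false

namespace Pool.Agent.Hhelper87.FC
open Subgroup Cardinal

universe u

variable {G : Type u} [Group G]

theorem conj_ker : (MulAut.conj : G →* MulAut G).ker = center G := by
  ext g
  rw [MonoidHom.mem_ker, mem_center_iff]
  constructor
  · intro h x
    have h1 : (MulAut.conj g) x = x := by rw [h]; rfl
    rw [MulAut.conj_apply] at h1
    calc x * g = (g * x * g⁻¹) * g := by rw [h1]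
      _ = g * x := by group
  · intro h
    ext x
    rw [MulAut.conj_apply, ← h x]
    simp

theorem fam_center (hFC : IsFC G) (hX : ResX G) (hcard : #(G ⧸ center G) ≤ ℵ₁) :
    Fam (center G) := by
  classical
  obtain ⟨Dt⟩ := exists_dat hX
  obtain ⟨cl, hcl1, hcl2, hcl3, hcl4, hcl5⟩ := exists_cl_pair hFC Dt
  choose GM QM hGM hQM hM using hcl5
  let I : Type u := (ℵ₁ : Cardinal.{u}).ord.ToType
  have hI : #(G ⧸ center G) ≤ #I := by
    rw [mk_ord_toType]
    exact hcard
  obtain ⟨e⟩ := (Cardinal.le_def _ _).mp hI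
  let s : I → G := fun i => (Function.invFun e i).out
  have hs : ∀ g : G, ∃ i, ∃ z ∈ center G, g = s i * z := by
    intro g
    obtain ⟨i, hi⟩ := Function.invFun_surjective e.injective (g : G ⧸ center G)
    obtain ⟨z, hz⟩ := QuotientGroup.mk_out_eq_mul (center G) g
    refine ⟨i, (z : G)⁻¹, inv_mem z.2, ?_⟩
    change g = (Function.invFun e i).out * (z : G)⁻¹
    rw [hi, hz]
    group
  have hcount : ∀ i : I, (Set.Iic i).Countable := by
    intro i
    have h1 : (Set.Iio i).Countable := by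
      rw [← Cardinal.le_aleph0_iff_set_countable, ← lt_aleph_one_iff]
      have := mk_Iio_lt i (by simp [I])
      simpa [I] using this
    have h2 : Set.Iic i = Set.Iio i ∪ {i} := by
      ext j
      simp [le_iff_lt_or_eq]
    rw [h2]
    exact h1.union (Set.countable_singleton i)
  let S : I → Set (G ⊕ MulAut G) := fun i => (fun j => Sum.inl (s j)) '' Set.Iic i
  let S' : I → Set (G ⊕ MulAut G) := fun i => (fun j => Sum.inl (s j)) '' Set.Iio i
  have hSc : ∀ i, (S i).Countable := fun i => (hcount i).image _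
  have hS'S : ∀ i, S' i ⊆ S i := fun i => Set.image_mono Set.Iio_subset_Iic_self
  have hSS' : ∀ {i j : I}, j < i → S j ⊆ S' i := fun {i j} hij =>
    Set.image_mono (Set.Iic_subset_Iio.mpr hij)
  have hQmono : ∀ {T T' : Set (G ⊕ MulAut G)}, T ⊆ T' → QM T ≤ QM T' := by
    intro T T' hT φ hφ
    rw [hQM] at hφ ⊢
    exact ⟨hφ.1, hcl2 _ _ hT hφ.2⟩
  let Pp : I → Subgroup (MulAut G) := fun i => QM (S i)
  let Pm : I → Subgroup (MulAut G) := fun i => if ∃ j, j < i then QM (S' i) else ⊥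
  have hbound : ∀ (i : I), (∃ j, j < i) → ∀ F : Finset (G ⊕ MulAut G),
      (F : Set (G ⊕ MulAut G)) ⊆ S' i → ∃ j, j < i ∧ (F : Set (G ⊕ MulAut G)) ⊆ S j := by
    intro i hi F
    induction F using Finset.induction_on with
    | empty =>
      intro _
      obtain ⟨j, hj⟩ := hi
      exact ⟨j, hj, by simp⟩
    | insert a F ha ih =>
      intro hF
      rw [Finset.coe_insert] at hF
      obtain ⟨j, hj, hjF⟩ := ih (fun x hx => hF (Or.inr hx))
      obtain ⟨k, hk, hka⟩ := hF (Or.inl rfl)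
      refine ⟨max j k, max_lt hj hk, ?_⟩
      rw [Finset.coe_insert]
      rintro x (rfl | hx)
      · exact ⟨k, le_max_right j k, hka⟩
      · exact (Set.image_mono (Set.Iic_subset_Iic.mpr (le_max_left j k))) (hjF hx)
  have hPm : ∀ i x, x ∈ Pm i ↔ x = 1 ∨ ∃ j, j < i ∧ x ∈ Pp j := by
    intro i x
    by_cases hi : ∃ j, j < i
    · have h1 : Pm i = QM (S' i) := if_pos hi
      rw [h1]
      constructor
      · intro hx
        right
        rw [hQM] at hx
        obtain ⟨F, hF, hxF⟩ := hcl4 _ _ hx.2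
        obtain ⟨j, hj, hjF⟩ := hbound i hi F hF
        exact ⟨j, hj, (hQM _ _).mpr ⟨hx.1, hcl2 _ _ hjF hxF⟩⟩
      · rintro (rfl | ⟨j, hj, hx⟩)
        · exact one_mem _
        · exact hQmono (hSS' hj) hx
    · have h1 : Pm i = ⊥ := if_neg hi
      rw [h1, mem_bot]
      constructor
      · exact fun h => Or.inl h
      · rintro (h | ⟨j, hj, -⟩)
        · exact h
        · exact absurd ⟨j, hj⟩ hi
  have hPpQ : ∀ i, Pp i ≤ Qh G := fun i => (hM (S i)).QM_le
  have hPpc : ∀ i, Countable (Pp i) := by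
    intro i
    have h1 := hcl3 _ (hSc i)
    have : Countable (cl (S i)) := h1.to_subtype
    let f : Pp i → cl (S i) := fun φ => ⟨Sum.inr φ.1, ((hQM _ _).mp φ.2).2⟩
    have hf : Function.Injective f := by
      intro φ ψ h
      apply Subtype.ext
      exact Sum.inr_injective (congrArg Subtype.val h)
    exact hf.countable
  have hL : ∀ i, ∃ L : Subgroup (MulAut G), L ≤ Pp i ∧ Pm i ⊓ L = ⊥ ∧
      (∀ ψ ∈ Pp i, ∃ φ ∈ Pm i, ∃ l ∈ L, ψ = φ * l) ∧
      ∀ p ∈ Pm i, ∀ l ∈ L, l * p = p * l := by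
    intro i
    by_cases hi : ∃ j, j < i
    · have h1 : Pm i = QM (S' i) := if_pos hi
      rw [h1]
      exact decomp (hM (S' i)) (hPpQ i) (hQmono (hS'S i)) (hPpc i)
    · have h1 : Pm i = ⊥ := if_neg hi
      rw [h1]
      refine ⟨Pp i, le_rfl, by simp, ?_, ?_⟩
      · exact fun ψ hψ => ⟨1, one_mem _, ψ, hψ, by simp⟩
      · intro p hp l _
        rw [mem_bot] at hp
        rw [hp]
        simp
  choose L hL1 hL2 hL3 hL4 using hL
  have hfam : ∀ i, Fam (⊥ : Subgroup (L i)) := by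
    intro i
    have hLQ : L i ≤ Qh G := (hL1 i).trans (hPpQ i)
    have := hPpc i
    have hLc : Countable (L i) := (Subgroup.inclusion_injective (hL1 i)).countable
    exact hall hLc (isFC_of_le_Qh hLQ) (torsion_of_le_Qh hLQ)
      (residuallyFinite_of_le_Qh hFC hLQ)
  have hf : ∀ g : G, ∃ i, MulAut.conj g ∈ Pp i := by
    intro g
    obtain ⟨i, z, hz, rfl⟩ := hs g
    refine ⟨i, ?_⟩
    have h1 : MulAut.conj z = 1 := by
      have : z ∈ (MulAut.conj : G →* MulAut G).ker := by rw [conj_ker]; exact hz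
      exact this
    rw [map_mul, h1, mul_one]
    apply (hM (S i)).conj
    rw [hGM]
    exact hcl1 _ ⟨i, Set.mem_Iic.mpr le_rfl, rfl⟩
  have hfinal := assembly (MulAut.conj : G →* MulAut G) hPm hL1 hL3 hL2 hL4 hf hfam
  rw [conj_ker] at hfinal
  exact hfinal

theorem embedding_of_fam {Z : Subgroup G} [Z.Normal] (h : Fam Z) :
    ∃ (ι : Type u) (F : ι → Type u) (_ : ∀ i, Group (F i)) (_ : ∀ i, Finite (F i))
      (f : (G ⧸ Z) →* (∀ i, F i)), Function.Injective f ∧ ∀ x, {i | f x i ≠ 1}.Finite := by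
  classical
  obtain ⟨ι, K, h1, h2, h3, h4, h5⟩ := h
  let f0 : G →* (∀ i, G ⧸ K i) := MonoidHom.pi (fun i => QuotientGroup.mk' (K i))
  have hker : ∀ g i, f0 g i = 1 ↔ g ∈ K i := by
    intro g i
    exact QuotientGroup.eq_one_iff g
  have hZ : Z ≤ f0.ker := by
    intro g hg
    rw [MonoidHom.mem_ker]
    funext i
    exact (hker g i).mpr (h5 g hg i)
  refine ⟨ι, fun i => G ⧸ K i, inferInstance, fun i => ?_, QuotientGroup.lift Z f0 hZ, ?_, ?_⟩
  · have := h2 i
    exact finite_quotient_of_finiteIndex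
  · rw [injective_iff_map_eq_one]
    intro q hq
    obtain ⟨g, rfl⟩ := QuotientGroup.mk_surjective q
    rw [QuotientGroup.eq_one_iff]
    by_contra hg
    obtain ⟨i, hi⟩ := h4 g hg
    apply hi
    rw [← hker]
    have h6 : f0 g = 1 := hq
    rw [h6]
    rfl
  · intro q
    obtain ⟨g, rfl⟩ := QuotientGroup.mk_surjective q
    refine (h3 g).subset ?_
    intro i hi hcon
    apply hi
    exact (hker g i).mpr hcon

theorem main (hFC : ∀ x : G, (conjugatesOf x).Finite)
    (hX : ∀ g : G, g ≠ 1 → ∃ N : Subgroup G, ∃ _ : N.Normal, g ∉ N ∧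
      Finite (_root_.commutator (G ⧸ N)))
    (hcard : #(G ⧸ center G) ≤ ℵ₁) :
    ∃ (ι : Type u) (F : ι → Type u) (_ : ∀ i, Group (F i)) (_ : ∀ i, Finite (F i))
      (f : (G ⧸ center G) →* (∀ i, F i)), Function.Injective f ∧
        ∀ x, {i | f x i ≠ 1}.Finite :=
  embedding_of_fam (fam_center hFC hX hcard)

end Pool.Agent.Hhelper87.FC
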