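import Mathlib
import Pool.Agent.Hhelper87.FC.Main
set_option autoImplicit false

namespace Pool.Agent.Hhelper87.FC
open Subgroup Cardinal

universe u

theorem Fam.comap {H H' : Type u} [Group H] [Group H'] {Z : Subgroup H} (h : Fam Z)
    (f : H' →* H) : Fam (Z.comap f) := by
  obtain ⟨ι, K, h1, h2, h3, h4, h5⟩ := h
  refine ⟨ι, fun i => (K i).comap f, ?_, ?_, ?_, ?_, ?_⟩
  · exact fun i => (h1 i).comap f
  · intro i
    have := h2 i
    refine ⟨?_⟩
    rw [index_comap]
    have := isFiniteRelIndex_of_finiteIndex (H := K i) (K := f.range)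
    exact relIndex_ne_zero
  · exact fun h => h3 (f h)
  · exact fun h hh => h4 (f h) hh
  · exact fun h hh i => h5 (f h) hh i

variable {G : Type u} [Group G]

theorem fam_kulikov (hFC : IsFC G) (hX : ResX G) (T : ℕ → Subgroup G)
    (hTn : ∀ n, (T n).Normal) (hTmono : Monotone T)
    (hTcov : ∀ g ∈ _root_.commutator G, ∃ n, g ∈ T n) (e : ℕ → ℕ)
    (he : ∀ n, 0 < e n) (hTe : ∀ n, T n ⊓ PW G (e n) = ⊥) :
    Fam (center G) := by
  classical
  obtain ⟨Dt⟩ := exists_dat hX
  obtain ⟨cl, hcl1, hcl2, hcl3, hcl4, hcl5⟩ := exists_cl_pair hFC Dt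
  choose GM QM hGM hQM hM using hcl5
  have hQmono : ∀ {T T' : Set (G ⊕ MulAut G)}, T ⊆ T' → QM T ≤ QM T' := by
    intro T T' hT φ hφ
    rw [hQM] at hφ ⊢
    exact ⟨hφ.1, hcl2 _ _ hT hφ.2⟩
  have hQQ : ∀ S, QM S ≤ Qh G := fun S => (hM S).QM_le
  have key : ∀ κ : Cardinal.{u}, ∀ S : Set (G ⊕ MulAut G), #S = κ →
      Fam (⊥ : Subgroup (QM S)) := by
    intro κ
    induction κ using WellFoundedLT.induction with
    | ind κ ih =>
      intro S hS
      rcases le_or_gt κ ℵ₀ with hκ | hκ
      · -- countable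
        have hSc : S.Countable := by
          rw [← Cardinal.le_aleph0_iff_set_countable, hS]
          exact hκ
        have h1 := hcl3 _ hSc
        have h2 : Countable (cl S) := h1.to_subtype
        let f : QM S → cl S := fun φ => ⟨Sum.inr φ.1, ((hQM _ _).mp φ.2).2⟩
        have hf : Function.Injective f := by
          intro φ ψ h
          apply Subtype.ext
          exact Sum.inr_injective (congrArg Subtype.val h)
        exact hall hf.countable (isFC_of_le_Qh (hQQ S)) (torsion_of_le_Qh (hQQ S))
          (residuallyFinite_of_le_Qh hFC (hQQ S))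
      · -- uncountable
        let I : Type u := κ.ord.ToType
        have hI : #I = #S := by rw [mk_ord_toType, hS]
        obtain ⟨s⟩ := Cardinal.eq.mp hI
        have hIne : Nonempty I := by
          rw [← mk_ne_zero_iff, mk_ord_toType]
          intro h0
          rw [h0] at hκ
          exact absurd hκ (not_lt.mpr zero_le)
        have hcount : ∀ i : I, #(Set.Iic i) < κ := by
          intro i
          have h1 : #(Set.Iio i) < κ := by
            have := mk_Iio_lt i (by simp [I])
            simpa [I] using this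
          have h2 : Set.Iic i = Set.Iio i ∪ {i} := by
            ext j
            simp [le_iff_lt_or_eq]
          rw [h2]
          refine lt_of_le_of_lt (mk_union_le _ _) ?_
          refine add_lt_of_lt hκ.le h1 ?_
          rw [mk_singleton]
          exact lt_of_lt_of_le one_lt_aleph0 hκ.le
        let Si : I → Set (G ⊕ MulAut G) := fun i => (fun j => (s j).1) '' Set.Iic i
        let S' : I → Set (G ⊕ MulAut G) := fun i => (fun j => (s j).1) '' Set.Iio i
        have hSicard : ∀ i, #(Si i) < κ := fun i => lt_of_le_of_lt mk_image_le (hcount i)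
        have hS'S : ∀ i, S' i ⊆ Si i := fun i => Set.image_mono Set.Iio_subset_Iic_self
        have hSS' : ∀ {i j : I}, j < i → Si j ⊆ S' i := fun {i j} hij =>
          Set.image_mono (Set.Iic_subset_Iio.mpr hij)
        let Pp : I → Subgroup (MulAut G) := fun i => QM (Si i)
        let Pm : I → Subgroup (MulAut G) := fun i => if ∃ j, j < i then QM (S' i) else ⊥
        have hbound : ∀ (i : I), (∃ j, j < i) → ∀ F : Finset (G ⊕ MulAut G),
            (F : Set (G ⊕ MulAut G)) ⊆ S' i →
            ∃ j, j < i ∧ (F : Set (G ⊕ MulAut G)) ⊆ Si j := by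
          intro i hi F
          induction F using Finset.induction_on with
          | empty =>
            intro _
            obtain ⟨j, hj⟩ := hi
            exact ⟨j, hj, by simp⟩
          | insert a F ha ih =>
            intro hF
            rw [Finset.coe_insert] at hF
            obtain ⟨j, hj, hjF⟩ := ih (fun x hx => hF (Or.inr hx))
            obtain ⟨k, hk, hka⟩ := hF (Or.inl rfl)
            refine ⟨max j k, max_lt hj hk, ?_⟩
            rw [Finset.coe_insert]
            rintro x (rfl | hx)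
            · exact ⟨k, le_max_right j k, hka⟩
            · exact (Set.image_mono (Set.Iic_subset_Iic.mpr (le_max_left j k))) (hjF hx)
        have hbound2 : ∀ F : Finset (G ⊕ MulAut G), (F : Set (G ⊕ MulAut G)) ⊆ S →
            ∃ j, (F : Set (G ⊕ MulAut G)) ⊆ Si j := by
          intro F
          induction F using Finset.induction_on with
          | empty =>
            intro _
            obtain ⟨j⟩ := hIne
            exact ⟨j, by simp⟩
          | insert a F ha ih =>
            intro hF
            rw [Finset.coe_insert] at hF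
            obtain ⟨j, hjF⟩ := ih (fun x hx => hF (Or.inr hx))
            have haS : a ∈ S := hF (Or.inl rfl)
            obtain ⟨k, hk⟩ := s.surjective ⟨a, haS⟩
            refine ⟨max j k, ?_⟩
            rw [Finset.coe_insert]
            rintro x (rfl | hx)
            · exact ⟨k, Set.mem_Iic.mpr (le_max_right j k), by simp only [hk]⟩
            · exact (Set.image_mono (Set.Iic_subset_Iic.mpr (le_max_left j k))) (hjF hx)
        have hPm : ∀ i x, x ∈ Pm i ↔ x = 1 ∨ ∃ j, j < i ∧ x ∈ Pp j := by
          intro i x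
          by_cases hi : ∃ j, j < i
          · have h1 : Pm i = QM (S' i) := if_pos hi
            rw [h1]
            constructor
            · intro hx
              right
              rw [hQM] at hx
              obtain ⟨F, hF, hxF⟩ := hcl4 _ _ hx.2
              obtain ⟨j, hj, hjF⟩ := hbound i hi F hF
              exact ⟨j, hj, (hQM _ _).mpr ⟨hx.1, hcl2 _ _ hjF hxF⟩⟩
            · rintro (rfl | ⟨j, hj, hx⟩)
              · exact one_mem _
              · exact hQmono (hSS' hj) hx
          · have h1 : Pm i = ⊥ := if_neg hi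
            rw [h1, mem_bot]
            constructor
            · exact fun h => Or.inl h
            · rintro (h | ⟨j, hj, -⟩)
              · exact h
              · exact absurd ⟨j, hj⟩ hi
        have hPpQ : ∀ i, Pp i ≤ Qh G := fun i => hQQ _
        have hL : ∀ i, ∃ L : Subgroup (MulAut G), L ≤ Pp i ∧ Pm i ⊓ L = ⊥ ∧
            (∀ ψ ∈ Pp i, ∃ φ ∈ Pm i, ∃ l ∈ L, ψ = φ * l) ∧
            ∀ p ∈ Pm i, ∀ l ∈ L, l * p = p * l := by
          intro i
          by_cases hi : ∃ j, j < i
          · have h1 : Pm i = QM (S' i) := if_pos hi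
            rw [h1]
            exact decomp_kulikov (hM (S' i)) (hPpQ i) (hQmono (hS'S i)) T hTn hTmono hTcov e he
              hTe
          · have h1 : Pm i = ⊥ := if_neg hi
            rw [h1]
            refine ⟨Pp i, le_rfl, by simp, ?_, ?_⟩
            · exact fun ψ hψ => ⟨1, one_mem _, ψ, hψ, by simp⟩
            · intro p hp l _
              rw [mem_bot] at hp
              rw [hp]
              simp
        choose L hL1 hL2 hL3 hL4 using hL
        have hfam : ∀ i, Fam (⊥ : Subgroup (L i)) := by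
          intro i
          have h1 := ih _ (hSicard i) (Si i) rfl
          have h2 := h1.comap (Subgroup.inclusion (hL1 i))
          have h3 : (⊥ : Subgroup (QM (Si i))).comap (Subgroup.inclusion (hL1 i)) = ⊥ := by
            rw [MonoidHom.comap_bot]
            exact (MonoidHom.ker_eq_bot_iff _).mpr (Subgroup.inclusion_injective (hL1 i))
          rw [h3] at h2
          exact h2
        have hf : ∀ h : QM S, ∃ i, (QM S).subtype h ∈ Pp i := by
          intro h
          have h1 := (hQM _ _).mp h.2
          obtain ⟨F, hF, hxF⟩ := hcl4 _ _ h1.2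
          obtain ⟨j, hjF⟩ := hbound2 F hF
          exact ⟨j, (hQM _ _).mpr ⟨h1.1, hcl2 _ _ hjF hxF⟩⟩
        have hfinal := assembly (QM S).subtype hPm hL1 hL3 hL2 hL4 hf hfam
        rw [ker_subtype] at hfinal
        exact hfinal
  -- conclusion
  let S : Set (G ⊕ MulAut G) := Set.range Sum.inl
  have hconj : ∀ g : G, MulAut.conj g ∈ QM S := by
    intro g
    apply (hM S).conj
    rw [hGM]
    exact hcl1 _ ⟨g, rfl⟩
  let f : G →* QM S := (MulAut.conj : G →* MulAut G).codRestrict (QM S) hconj
  have h1 := (key _ S rfl).comap f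
  have h2 : (⊥ : Subgroup (QM S)).comap f = center G := by
    rw [MonoidHom.comap_bot, ← conj_ker]
    ext g
    rw [MonoidHom.mem_ker, MonoidHom.mem_ker]
    constructor
    · intro h
      exact congrArg Subtype.val h
    · intro h
      exact Subtype.ext h
  rw [h2] at h1
  exact h1

/-- The derived subgroup of an FC-group is covered by finite normal subgroups. -/
theorem exists_FN_of_mem_commutator (hFC : IsFC G) {g : G} (hg : g ∈ _root_.commutator G) :
    ∃ E : Subgroup G, FN E ∧ g ∈ E ∧ E ≤ _root_.commutator G := by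
  have h1 : ∃ E : Subgroup G, FN E ∧ g ∈ E := by
    rw [commutator_eq_closure] at hg
    induction hg using Subgroup.closure_induction with
    | mem x hx =>
      obtain ⟨a, b, rfl⟩ := hx
      obtain ⟨E, hE, h1, -⟩ := exists_FN_comm hFC b
      exact ⟨E, hE, h1 a⟩
    | one => exact ⟨⊥, FN.bot, one_mem _⟩
    | mul x y _ _ hx hy =>
      obtain ⟨E, hE, h1⟩ := hx
      obtain ⟨F, hF, h2⟩ := hy
      exact ⟨E ⊔ F, hE.sup hF, mul_mem (mem_sup_left h1) (mem_sup_right h2)⟩
    | inv x _ hx =>
      obtain ⟨E, hE, h1⟩ := hx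
      exact ⟨E, hE, inv_mem h1⟩
  obtain ⟨E, hE, h1⟩ := h1
  have := hE.1
  exact ⟨E ⊓ _root_.commutator G, ⟨inferInstance, hE.2.subset Set.inter_subset_left⟩,
    ⟨h1, hg⟩, inf_le_right⟩

theorem exists_exponent (hX : ResX G) {E : Subgroup G} (hE : FN E) :
    ∃ e : ℕ, 0 < e ∧ E ⊓ PW G e = ⊥ := by
  obtain ⟨N, hN, h1, h2⟩ := exists_NE hX hE
  refine ⟨N.relIndex (_root_.commutator G), Nat.pos_of_ne_zero h2, ?_⟩
  have h3 : PW G (N.relIndex (_root_.commutator G)) ≤ N := by
    unfold PW
    rw [closure_le]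
    rintro _ ⟨a, ha, rfl⟩
    exact pow_relIndex_mem ha
  rw [eq_bot_iff]
  rintro x ⟨hx1, hx2⟩
  rw [← h1]
  exact ⟨h3 hx2, hx1⟩

theorem fam_countable (hFC : IsFC G) (hX : ResX G)
    (hc : ((_root_.commutator G : Subgroup G) : Set G).Countable) : Fam (center G) := by
  classical
  have hcc : Countable (_root_.commutator G) := hc.to_subtype
  obtain ⟨g, hg⟩ := exists_surjective_nat (_root_.commutator G)
  have h1 : ∀ n, ∃ E : Subgroup G, FN E ∧ (g n : G) ∈ E ∧ E ≤ _root_.commutator G :=
    fun n => exists_FN_of_mem_commutator hFC (g n).2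
  choose E hE1 hE2 hE3 using h1
  obtain ⟨T, hT0, hTs⟩ : ∃ T : ℕ → Subgroup G, T 0 = ⊥ ∧ ∀ n, T (n + 1) = T n ⊔ E n :=
    ⟨fun n => Nat.rec (motive := fun _ => Subgroup G) ⊥ (fun n T => T ⊔ E n) n, rfl,
      fun _ => rfl⟩
  have hTFN : ∀ n, FN (T n) := by
    intro n
    induction n with
    | zero => rw [hT0]; exact FN.bot
    | succ n ih => rw [hTs]; exact ih.sup (hE1 _)
  have hTmono : Monotone T := by
    apply monotone_nat_of_le_succ
    intro n
    rw [hTs]
    exact le_sup_left
  have hTcov : ∀ x ∈ _root_.commutator G, ∃ n, x ∈ T n := by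
    intro x hx
    obtain ⟨n, hn⟩ := hg ⟨x, hx⟩
    refine ⟨n + 1, ?_⟩
    rw [hTs]
    have := hE2 n
    rw [hn] at this
    exact mem_sup_right this
  have h2 : ∀ n, ∃ e : ℕ, 0 < e ∧ T n ⊓ PW G e = ⊥ := fun n => exists_exponent hX (hTFN n)
  choose e he1 he2 using h2
  exact fam_kulikov hFC hX T (fun n => (hTFN n).1) hTmono hTcov e he1 he2

theorem fam_exponent (hFC : IsFC G) (hX : ResX G) {e : ℕ} (he : 0 < e)
    (hexp : ∀ a ∈ _root_.commutator G, a ^ e = 1) : Fam (center G) := by
  refine fam_kulikov hFC hX (fun _ => ⊤) (fun _ => inferInstance) (fun _ _ _ => le_rfl)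
    (fun g _ => ⟨0, mem_top g⟩) (fun _ => e) (fun _ => he) (fun _ => ?_)
  rw [top_inf_eq]
  unfold PW
  rw [eq_bot_iff, closure_le]
  rintro _ ⟨a, ha, rfl⟩
  exact hexp a ha

theorem main2 (hFC : ∀ x : G, (conjugatesOf x).Finite)
    (hX : ∀ g : G, g ≠ 1 → ∃ N : Subgroup G, ∃ _ : N.Normal, g ∉ N ∧
      Finite (_root_.commutator (G ⧸ N)))
    (hG : ((_root_.commutator G : Subgroup G) : Set G).Countable ∨
      (∃ e : ℕ, 0 < e ∧ ∀ a ∈ _root_.commutator G, a ^ e = 1) ∨
      (∃ (T : ℕ → Subgroup G) (e : ℕ → ℕ), (∀ n, (T n).Normal) ∧ Monotone T ∧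
        (∀ g ∈ _root_.commutator G, ∃ n, g ∈ T n) ∧ (∀ n, 0 < e n) ∧
        (∀ n, T n ⊓ Subgroup.closure {b | ∃ a ∈ _root_.commutator G, a ^ e n = b} = ⊥))) :
    ∃ (ι : Type u) (F : ι → Type u) (_ : ∀ i, Group (F i)) (_ : ∀ i, Finite (F i))
      (f : (G ⧸ center G) →* (∀ i, F i)), Function.Injective f ∧
        ∀ x, {i | f x i ≠ 1}.Finite := by
  apply embedding_of_fam
  rcases hG with h | ⟨e, he, h⟩ | ⟨T, e, h1, h2, h3, h4, h5⟩
  · exact fam_countable hFC hX h
  · exact fam_exponent hFC hX he h
  · exact fam_kulikov hFC hX T h1 h2 h3 e h4 h5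

end Pool.Agent.Hhelper87.FC
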